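import Pool.Agent.Lib.MP_166ce5_al.FR.Spec

/-!
# Perturbation of commutators and squares in an N-series (module ABS)
-/

set_option autoImplicit false

namespace Pool.Agent.Lib.MP166ce5.FR

namespace ABSM

/-- the identity in the quotient -/
theorem grp {H : Type*} [Group H] {A A' B B' : H} (h1 : A' * B = B * A') (h2 : A' * B' = B' * A')
    (h3 : B' * A = A * B')
    (h4 : A' * (A * B * A⁻¹ * B⁻¹) = (A * B * A⁻¹ * B⁻¹) * A')
    (h5 : B' * (A * B * A⁻¹ * B⁻¹) = (A * B * A⁻¹ * B⁻¹) * B') :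
    (A' * A) * (B' * B) * (A' * A)⁻¹ * (B' * B)⁻¹ * (A * B * A⁻¹ * B⁻¹)⁻¹ = 1 := by
  rw [mul_inv_eq_one, mul_inv_eq_iff_eq_mul, mul_inv_eq_iff_eq_mul]
  obtain ⟨C, hC⟩ : ∃ C, C = A * B * A⁻¹ * B⁻¹ := ⟨_, rfl⟩
  rw [← hC] at h4 h5 ⊢
  have hC' : C * (B * A) = A * B := by rw [hC]; group
  calc (A' * A) * (B' * B) = A' * (A * B') * B := by group
    _ = A' * B' * (A * B) := by rw [← h3]; group
    _ = B' * A' * (A * B) := by rw [h2]
    _ = B' * A' * (C * (B * A)) := by rw [hC']
    _ = B' * (A' * C) * (B * A) := by group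
    _ = (B' * C) * A' * (B * A) := by rw [h4]; group
    _ = C * B' * (A' * B) * A := by rw [h5]; group
    _ = C * (B' * B) * (A' * A) := by rw [h1]; group

/-- the members of an N-series are normal -/
theorem normal {F : Type} [Group F] {G : ℝ → Subgroup F} (hG : IsNSer G) {ρ : ℝ} (hρ : 0 < ρ) :
    (G ρ).Normal := by
  refine ⟨fun n hn g => ?_⟩
  have h1 : g * n * g⁻¹ * n⁻¹ ∈ G (1 * ρ) :=
    hG.comm 1 ρ g n one_pos hρ (by rw [hG.top 1 le_rfl]; exact Subgroup.mem_top g) hn
  rw [one_mul] at h1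
  have h2 := mul_mem h1 hn
  rwa [inv_mul_cancel_right] at h2

/-- commutators in `N` give commuting elements of the quotient -/
theorem comm_mk {F : Type} [Group F] {N : Subgroup F} [N.Normal] {x y : F}
    (h : x * y * x⁻¹ * y⁻¹ ∈ N) : (x : F ⧸ N) * y = y * x := by
  rw [← QuotientGroup.mk_mul, ← QuotientGroup.mk_mul, QuotientGroup.eq]
  have h1 : (x * y)⁻¹ * (y * x) = (y * x)⁻¹ * ((x * y * x⁻¹ * y⁻¹)⁻¹) * (y * x) := by group
  rw [h1]
  have h2 := Subgroup.Normal.conj_mem (inferInstance : N.Normal) _ (N.inv_mem h) (y * x)⁻¹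
  rwa [inv_inv] at h2

end ABSM

open ABSM in
/-- ABS: perturbation of commutators and squares in an N-series -/
theorem specABS : SpecABS := by
  intro F _ G hG α β γ hα hβ hγ hγ1 a b a' b' ha hb ha' hb'
  have hN : (G (γ * (α * β))).Normal := normal hG (by positivity)
  have hle : ∀ x, x ∈ G (γ * α * (γ * β)) → x ∈ G (γ * (α * β)) := by
    intro x hx
    refine hG.mono _ _ (by positivity) ?_ hx
    have : γ * (γ * (α * β)) ≤ 1 * (γ * (α * β)) := by
      apply mul_le_mul_of_nonneg_right hγ1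
      positivity
    nlinarith
  have hone : ∀ x, x ∈ G 1 := fun x => by rw [hG.top 1 le_rfl]; exact Subgroup.mem_top x
  have hC1 : a * b * a⁻¹ * b⁻¹ ∈ G β := by
    have := hG.comm 1 β a b one_pos hβ (hone a) hb
    rwa [one_mul] at this
  have hC2 : a * b * a⁻¹ * b⁻¹ ∈ G α := by
    have := hG.comm α 1 a b hα one_pos ha (hone b)
    rwa [mul_one] at this
  have e1 : γ * α * β = γ * (α * β) := by ring
  have e2 : γ * β * α = γ * (α * β) := by ring
  refine ⟨?_, ?_⟩
  · have h1 := hG.comm (γ * α) β a' b (by positivity) hβ ha' hb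
    have h2 := hle _ (hG.comm (γ * α) (γ * β) a' b' (by positivity) (by positivity) ha' hb')
    have h3 := hG.comm (γ * β) α b' a (by positivity) hα hb' ha
    have h4 := hG.comm (γ * α) β a' _ (by positivity) hβ ha' hC1
    have h5 := hG.comm (γ * β) α b' _ (by positivity) hα hb' hC2
    rw [e1] at h1 h4
    rw [e2] at h3 h5
    have k1 := comm_mk h1
    have k2 := comm_mk h2
    have k3 := comm_mk h3
    have k4 := comm_mk h4
    have k5 := comm_mk h5
    have key := grp k1 k2 k3 k4 k5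
    rw [← QuotientGroup.eq_one_iff]
    exact key
  · have hN' : (G (γ * (α * α))).Normal := normal hG (by positivity)
    have h1 := hG.comm α (γ * α) a a' hα (by positivity) ha ha'
    rw [show α * (γ * α) = γ * (α * α) by ring] at h1
    have h2 := hN'.conj_mem _ h1 a'
    have h3 := hG.sq (γ * α) a' (by positivity) ha'
    have h4 : a' * a' ∈ G (γ * (α * α)) := by
      refine hG.mono _ _ (by positivity) ?_ h3
      have : γ * (γ * (α * α)) ≤ 1 * (γ * (α * α)) := by
        apply mul_le_mul_of_nonneg_right hγ1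
        positivity
      nlinarith
    have h5 := mul_mem h2 h4
    have h6 : a' * a * (a' * a) * (a * a)⁻¹ =
        a' * (a * a' * a⁻¹ * a'⁻¹) * a'⁻¹ * (a' * a') := by group
    rw [h6]
    exact h5

end Pool.Agent.Lib.MP166ce5.FR
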