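import Pool.Agent.Lib.MP_166ce5_al.FR.Spec

set_option autoImplicit false

namespace Pool.Agent.Lib.MP166ce5.FR

open FreeGroup

namespace BASM

variable {ι : Type} [DecidableEq ι] (Z : Finset ι)

/-- the endomorphism `of i ↦ of i * q i` for `i ∉ Z` -/
def β (q : ι → FreeGroup ι) : FreeGroup ι →* FreeGroup ι :=
  FreeGroup.lift fun i => if i ∈ Z then of i else of i * q i

theorem β_in (q : ι → FreeGroup ι) {i : ι} (h : i ∈ Z) : β Z q (of i) = of i := by
  rw [β, FreeGroup.lift_apply_of, if_pos h]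

theorem β_out (q : ι → FreeGroup ι) {i : ι} (h : i ∉ Z) : β Z q (of i) = of i * q i := by
  rw [β, FreeGroup.lift_apply_of, if_neg h]

theorem β_fix (q : ι → FreeGroup ι) (w : ι → ℝ) (c : ℝ) {v : FreeGroup ι}
    (h : v ∈ Subgroup.closure {u : FreeGroup ι | ∃ z ∈ Z, w z ≤ c ∧ u = of z}) : β Z q v = v := by
  have h1 : Subgroup.closure {u : FreeGroup ι | ∃ z ∈ Z, w z ≤ c ∧ u = of z} ≤
      (β Z q).eqLocus (MonoidHom.id _) := by
    rw [Subgroup.closure_le]
    rintro _ ⟨z, hz, -, rfl⟩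
    exact β_in Z q hz
  exact h1 h

theorem wt_p (w : ι → ℝ) (c ρ : ℝ) (hρ : 0 < ρ) (hc : c ≤ ρ) {v : FreeGroup ι}
    (h : v ∈ Subgroup.closure {u : FreeGroup ι | ∃ z ∈ Z, w z ≤ c ∧ u = of z}) :
    Wt FreeGroup.of w ρ v := by
  induction h using Subgroup.closure_induction with
  | mem x hx =>
    obtain ⟨z, -, hz, rfl⟩ := hx
    exact Wt.gen z (hz.trans hc)
  | one => exact Wt.one hρ
  | mul x y _ _ h1 h2 => exact Wt.mul h1 h2
  | inv x _ h1 => exact Wt.inv h1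

theorem wt_β (q : ι → FreeGroup ι) (w : ι → ℝ) (hw : ∀ i, 0 < w i)
    (hq : ∀ i, i ∉ Z → q i ∈ Subgroup.closure {u : FreeGroup ι | ∃ z ∈ Z, w z ≤ w i ∧ u = of z})
    {ρ : ℝ} {u : FreeGroup ι} (h : Wt FreeGroup.of w ρ u) : Wt FreeGroup.of w ρ (β Z q u) := by
  induction h with
  | gen i h =>
    by_cases hi : i ∈ Z
    · rw [β_in Z q hi]
      exact Wt.gen i h
    · rw [β_out Z q hi]
      exact Wt.mul (Wt.gen i h) (wt_p Z w (w i) _ ((hw i).trans_le h) h (hq i hi))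
  | one h => rw [_root_.map_one]; exact Wt.one h
  | mul _ _ h1 h2 => rw [_root_.map_mul]; exact Wt.mul h1 h2
  | inv _ h1 => rw [_root_.map_inv]; exact Wt.inv h1
  | comm _ _ h h1 h2 =>
    rw [_root_.map_mul, _root_.map_mul, _root_.map_mul, _root_.map_inv, _root_.map_inv]
    exact Wt.comm h1 h2 h
  | sq _ h h1 => rw [_root_.map_mul]; exact Wt.sq h1 h
  | top a h => exact Wt.top _ h

theorem β_β (q q' : ι → FreeGroup ι) (w : ι → ℝ)
    (hq : ∀ i, i ∉ Z → q' i ∈ Subgroup.closure {u : FreeGroup ι | ∃ z ∈ Z, w z ≤ w i ∧ u = of z})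
    (hqq : ∀ i, i ∉ Z → q i * q' i = 1) (u : FreeGroup ι) : β Z q (β Z q' u) = u := by
  have h1 : (β Z q).comp (β Z q') = MonoidHom.id _ := by
    ext i
    rw [MonoidHom.comp_apply, MonoidHom.id_apply]
    by_cases hi : i ∈ Z
    · rw [β_in Z q' hi, β_in Z q hi]
    · rw [β_out Z q' hi, _root_.map_mul, β_out Z q hi, β_fix Z q w _ (hq i hi), mul_assoc, hqq i hi,
        mul_one]
  exact DFunLike.congr_fun h1 u

end BASM

open BASM

theorem specBAS (_ : SpecWTB) : SpecBAS := by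
  intro F _ S Z p hp
  have hp' : ∀ i, i ∉ Z → (p i)⁻¹ ∈
      Subgroup.closure {u : FreeGroup S.ι | ∃ z ∈ Z, S.w z ≤ S.w i ∧ u = of z} := fun i hi =>
    Subgroup.inv_mem _ (hp i hi)
  have h1 : ∀ u, β Z (fun i => (p i)⁻¹) (β Z p u) = u :=
    β_β Z _ p S.w hp fun i _ => inv_mul_cancel _
  have h2 : ∀ u, β Z p (β Z (fun i => (p i)⁻¹) u) = u :=
    β_β Z p _ S.w hp' fun i _ => mul_inv_cancel _
  have h3 : (S.e.comp (β Z p)).range = S.e.range := by
    apply le_antisymm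
    · rintro _ ⟨u, rfl⟩
      exact ⟨β Z p u, rfl⟩
    · rintro _ ⟨u, rfl⟩
      exact ⟨β Z (fun i => (p i)⁻¹) u, by rw [MonoidHom.comp_apply, h2]⟩
  refine ⟨{ S with
    e := S.e.comp (β Z p)
    inj := S.inj.comp (Function.LeftInverse.injective h1)
    mem := fun ρ hρ u => by
      rw [MonoidHom.comp_apply, S.mem ρ hρ]
      constructor
      · intro h
        rw [← h1 u]
        exact wt_β Z _ S.w S.w0 hp' h
      · exact wt_β Z _ S.w S.w0 hp
    chain := by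
      rw [h3]
      exact S.chain }, Equiv.refl _, rfl, rfl, rfl, h3, fun i => rfl, ?_, ?_⟩
  · intro z hz
    show S.e (β Z p (of z)) = _
    rw [β_in Z p hz]
  · intro i hi
    show S.e (β Z p (of i)) = _
    rw [β_out Z p hi]

end Pool.Agent.Lib.MP166ce5.FR
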