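import Pool.Agent.Lib.MP_166ce5_al.FR.Spec

set_option autoImplicit false

namespace Pool.Agent.Lib.MP166ce5.FR

theorem specCFI : SpecCFI := by
  intro F _ G K l h
  induction h with
  | nil =>
    refine ⟨inferInstance, by simp, ?_⟩
    intro p hp
    simp at hp
  | @cons K K' l t c hl hK ht ht' h2 hc hc1 htc hlt ih =>
    obtain ⟨h3, h4, h5⟩ := ih
    have h6 : K'.relIndex K = 2 := by
      rw [Subgroup.relIndex_eq_two_iff]
      refine ⟨t⁻¹, K.inv_mem ht, fun b hb => ?_⟩
      have h7 : ¬ (b ∈ K' ∧ b * t⁻¹ ∈ K') := by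
        rintro ⟨h8, h9⟩
        refine ht' ?_
        have h10 := K'.mul_mem (K'.inv_mem h9) h8
        simpa using h10
      rcases h2 b hb with h8 | h8
      · exact Or.inr ⟨h8, fun h9 => h7 ⟨h8, h9⟩⟩
      · exact Or.inl ⟨h8, fun h9 => h7 ⟨h9, h8⟩⟩
    have h8 : K'.index = 2 * 2 ^ l.length := by
      rw [← Subgroup.relIndex_mul_index hK, h6, h4]
    refine ⟨⟨by rw [h8]; positivity⟩, ?_, ?_⟩
    · rw [h8, List.length_cons, pow_succ']
    · intro p hp
      rcases List.mem_cons.mp hp with rfl | hp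
      · exact ⟨hc, hc1⟩
      · exact h5 p hp

end Pool.Agent.Lib.MP166ce5.FR
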