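import Pool.Agent.Lib.MP_166ce5_al.FR.Spec

/-!
# CMM: commutators with the rescaled filtration
-/

set_option autoImplicit false

namespace Pool.Agent.Lib.MP166ce5.FR

open FreeGroup

namespace CMMM

/-- Conjugates have the same weight. -/
theorem wt_conj {K ι : Type} [Group K] {y : ι → K} {w : ι → ℝ} {τ : ℝ} {v : K}
    (hτ : Wt y w τ v) (a : K) : Wt y w τ (a * v * a⁻¹) := by
  have h1 : Wt y w τ (a * v * a⁻¹ * v⁻¹) :=
    Wt.comm (Wt.top a le_rfl) hτ (by rw [one_mul])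
  have h2 := Wt.mul h1 hτ
  rwa [inv_mul_cancel_right] at h2

theorem aux (hWTB : SpecWTB) (hABS : SpecABS) (hSCA : SpecSCA) (F : Type) [Group F] (S : St F)
    (hN : S.K.Normal) (lam : ℝ) (hl0 : 0 < lam) (hl1 : lam ≤ 1) (ρ : ℝ) (hρ : 0 < ρ)
    (hρ1 : ρ ≤ 1) (g : F) (hg : g ∈ S.G ρ) (σ : ℝ) (u : FreeGroup S.ι)
    (hu : Wt of (fun i => lam * S.w i) σ u) :
    ∃ v, Wt of (fun i => lam * S.w i) (ρ * σ) v ∧ S.e v = g * S.e u * g⁻¹ * (S.e u)⁻¹ := by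
  have hw' : ∀ i, 0 < lam * S.w i := fun i => mul_pos hl0 (S.w0 i)
  obtain ⟨hpos, hmono, hmem, hser, -⟩ := hWTB (FreeGroup S.ι) S.ι of (fun i => lam * S.w i) hw'
  have hgen : ∀ i, ∃ v, Wt of (fun i => lam * S.w i) (ρ * (lam * S.w i)) v ∧
      S.e v = g * S.e (of i) * g⁻¹ * (S.e (of i))⁻¹ := by
    intro i
    have h1 : S.e (of i) ∈ S.G (S.w i) := (S.mem _ (S.w0 i) _).2 (Wt.gen i le_rfl)
    have h2 := S.ser.comm ρ (S.w i) g (S.e (of i)) hρ (S.w0 i) hg h1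
    have h3 : g * S.e (of i) * g⁻¹ * (S.e (of i))⁻¹ ∈ S.K :=
      S.K.mul_mem (hN.conj_mem _ ⟨_, rfl⟩ g) (S.K.inv_mem ⟨_, rfl⟩)
    obtain ⟨v, hv⟩ := h3
    rw [← hv] at h2
    have h4 := (S.mem _ (mul_pos hρ (S.w0 i)) v).1 h2
    have h5 := hSCA S.ι S.w lam hl0 hl1 S.w0 S.w1 _ v h4
    exact ⟨v, hmono _ _ _ h5 (by nlinarith [le_refl (1 : ℝ)]), hv⟩
  have hmulc : ∀ (τ : ℝ) (a b : FreeGroup S.ι),
      (∃ v, Wt of (fun i => lam * S.w i) (ρ * τ) v ∧ S.e v = g * S.e a * g⁻¹ * (S.e a)⁻¹) →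
      (∃ v, Wt of (fun i => lam * S.w i) (ρ * τ) v ∧ S.e v = g * S.e b * g⁻¹ * (S.e b)⁻¹) →
      ∃ v, Wt of (fun i => lam * S.w i) (ρ * τ) v ∧
        S.e v = g * S.e (a * b) * g⁻¹ * (S.e (a * b))⁻¹ := by
    rintro τ a b ⟨va, ha1, ha2⟩ ⟨vb, hb1, hb2⟩
    refine ⟨va * (a * vb * a⁻¹), Wt.mul ha1 (wt_conj hb1 a), ?_⟩
    simp only [_root_.map_mul, _root_.map_inv, ha2, hb2]
    group
  have hinvc : ∀ (τ : ℝ) (a : FreeGroup S.ι),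
      (∃ v, Wt of (fun i => lam * S.w i) (ρ * τ) v ∧ S.e v = g * S.e a * g⁻¹ * (S.e a)⁻¹) →
      ∃ v, Wt of (fun i => lam * S.w i) (ρ * τ) v ∧
        S.e v = g * S.e a⁻¹ * g⁻¹ * (S.e a⁻¹)⁻¹ := by
    rintro τ a ⟨va, ha1, ha2⟩
    refine ⟨a⁻¹ * va⁻¹ * a⁻¹⁻¹, wt_conj (Wt.inv ha1) a⁻¹, ?_⟩
    simp only [_root_.map_mul, _root_.map_inv, ha2]
    group
  induction hu with
  | @gen σ i h =>
    obtain ⟨v, h1, h2⟩ := hgen i
    exact ⟨v, hmono _ _ _ h1 (mul_le_mul_of_nonneg_left h hρ.le), h2⟩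
  | @one σ h =>
    exact ⟨1, Wt.one (mul_pos hρ h), by simp⟩
  | @mul σ a b _ _ iha ihb => exact hmulc σ a b iha ihb
  | @inv σ a _ iha => exact hinvc σ a iha
  | @comm α β τ a b ha hb h iha ihb =>
    obtain ⟨va, ha1, ha2⟩ := iha
    obtain ⟨vb, hb1, hb2⟩ := ihb
    have hα := hpos _ _ ha
    have hβ := hpos _ _ hb
    have h1 := (hABS _ _ hser α β ρ hα hβ hρ hρ1 a b va vb ((hmem _ _ hα).2 ha)
      ((hmem _ _ hβ).2 hb) ((hmem _ _ (mul_pos hρ hα)).2 ha1)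
      ((hmem _ _ (mul_pos hρ hβ)).2 hb1)).1
    have h2 := (hmem _ _ (mul_pos hρ (mul_pos hα hβ))).1 h1
    refine ⟨_, hmono _ _ _ h2 (mul_le_mul_of_nonneg_left h hρ.le), ?_⟩
    simp only [_root_.map_mul, _root_.map_inv, ha2, hb2]
    group
  | @sq α τ a ha h iha =>
    obtain ⟨va, ha1, ha2⟩ := iha
    have hα := hpos _ _ ha
    have h1 := (hABS _ _ hser α α ρ hα hα hρ hρ1 a a va va ((hmem _ _ hα).2 ha)
      ((hmem _ _ hα).2 ha) ((hmem _ _ (mul_pos hρ hα)).2 ha1)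
      ((hmem _ _ (mul_pos hρ hα)).2 ha1)).2
    have h2 := (hmem _ _ (mul_pos hρ (mul_pos hα hα))).1 h1
    refine ⟨_, hmono _ _ _ h2 (mul_le_mul_of_nonneg_left h hρ.le), ?_⟩
    simp only [_root_.map_mul, _root_.map_inv, ha2]
    group
  | @top σ a h =>
    suffices hs : ∃ v, Wt of (fun i => lam * S.w i) (ρ * 1) v ∧
        S.e v = g * S.e a * g⁻¹ * (S.e a)⁻¹ by
      obtain ⟨v, h1, h2⟩ := hs
      exact ⟨v, hmono _ _ _ h1 (mul_le_mul_of_nonneg_left h hρ.le), h2⟩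
    induction a using FreeGroup.induction_on with
    | C1 => exact ⟨1, Wt.one (by simpa using hρ), by simp⟩
    | of i =>
      obtain ⟨v, h1, h2⟩ := hgen i
      refine ⟨v, hmono _ _ _ h1 (mul_le_mul_of_nonneg_left ?_ hρ.le), h2⟩
      nlinarith [S.w0 i, S.w1 i]
    | inv_of i ih => exact hinvc 1 (of i) ih
    | mul a b iha ihb => exact hmulc 1 a b iha ihb

end CMMM

theorem specCMM (hWTB : SpecWTB) (hABS : SpecABS) (hSCA : SpecSCA) : SpecCMM := by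
  intro F _ S hN lam hl0 hl1 ρ σ hρ hσ g hg u hu
  have hw' : ∀ i, 0 < lam * S.w i := fun i => mul_pos hl0 (S.w0 i)
  obtain ⟨-, hmono, -, -, -⟩ := hWTB (FreeGroup S.ι) S.ι of (fun i => lam * S.w i) hw'
  rcases le_or_gt ρ 1 with h | h
  · exact CMMM.aux hWTB hABS hSCA F S hN lam hl0 hl1 ρ hρ h g hg σ u hu
  · obtain ⟨v, h1, h2⟩ := CMMM.aux hWTB hABS hSCA F S hN lam hl0 hl1 1 one_pos le_rfl g
      (by rw [S.ser.top 1 le_rfl]; trivial) σ u hu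
    exact ⟨v, hmono _ _ _ h1 (by nlinarith), h2⟩

end Pool.Agent.Lib.MP166ce5.FR
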