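import Pool.Agent.Lib.MP_166ce5_al.FR.Spec

/-!
# DEL: conjugation by `t` multiplies weights
-/

set_option autoImplicit false

namespace Pool.Agent.Lib.MP166ce5.FR

open FreeGroup

namespace DELM

theorem wx_pos {ι : Type} (w : ι → ℝ) (i₀ : ι) (h : ∀ i, 0 < w i) : ∀ i, 0 < wx w i₀ i := by
  rintro (_ | ⟨i, _ | _⟩)
  · exact mul_pos (h _) (h _)
  · exact h _
  · exact mul_pos (h _) (h _)

theorem wx_le {ι : Type} (w : ι → ℝ) (i₀ : ι) (h : ∀ i, 0 < w i) (h1 : ∀ i, w i ≤ 1) :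
    ∀ i, wx w i₀ i ≤ 1 := by
  rintro (_ | ⟨i, _ | _⟩)
  · exact mul_le_one₀ (h1 _) (h _).le (h1 _)
  · exact h1 _
  · exact mul_le_one₀ (h1 _) (h _).le (h1 _)

theorem conj_mem {F : Type} [Group F] {G : ℝ → Subgroup F} (hG : IsNSer G) {ρ : ℝ} (hρ : 0 < ρ)
    (g a : F) (ha : a ∈ G ρ) : g * a * g⁻¹ ∈ G ρ := by
  have h1 : g ∈ G 1 := by rw [hG.top 1 le_rfl]; trivial
  have h := hG.comm 1 ρ g a one_pos hρ h1 ha
  rw [one_mul] at h
  have := (G ρ).mul_mem h ha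
  simpa using this

end DELM

open DELM

theorem specDEL (hWTB : SpecWTB) (hABS : SpecABS) : SpecDEL := by
  intro ι w i₀ hw hw1
  obtain ⟨hpos, hmono, hmem, hser, -⟩ := hWTB (FreeGroup (Nx i₀)) (Nx i₀) of (wx w i₀)
    (wx_pos w i₀ hw)
  have hc : 0 < w i₀ := hw i₀
  have hc1 : w i₀ ≤ 1 := hw1 i₀
  have hconj : ∀ (ρ : ℝ) (g a : FreeGroup (Nx i₀)), 0 < ρ → Wt of (wx w i₀) ρ a →
      Wt of (wx w i₀) ρ (g * a * g⁻¹) := by
    intro ρ g a hρ ha
    rw [← hmem _ _ hρ] at ha ⊢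
    exact conj_mem hser hρ g a ha
  have hgen : ∀ (ρ : ℝ) (i : Nx i₀), wx w i₀ i ≤ ρ →
      Wt of (wx w i₀) (ρ * w i₀) (tx i₀ (of i) * (of i)⁻¹) := by
    intro ρ i hi
    have hρ : 0 < ρ := lt_of_lt_of_le (wx_pos w i₀ hw i) hi
    rcases i with _ | ⟨i, _ | _⟩
    · have : tx i₀ (of (none : Nx i₀)) = of none := by simp [tx]
      rw [this, mul_inv_cancel]
      exact Wt.one (mul_pos hρ hc)
    · have : tx i₀ (of (some (i, false) : Nx i₀)) = of (some (i, true)) * of (some (i, false)) := by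
        simp [tx]
      rw [this, mul_inv_cancel_right]
      apply Wt.gen
      change w i.1 * w i₀ ≤ _
      exact mul_le_mul_of_nonneg_right hi hc.le
    · have : tx i₀ (of (some (i, true) : Nx i₀)) = of none * of (some (i, false)) *
        (of none)⁻¹ * (of (some (i, false)))⁻¹ * (of (some (i, true)))⁻¹ := by
        simp [tx]
      have hi' : w i.1 * w i₀ ≤ ρ := hi
      have hwi := hw i.1
      have hwi1 := hw1 i.1
      have h1 : Wt of (wx w i₀) (ρ * w i₀) (of (none : Nx i₀) * of (some (i, false)) *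
          (of none)⁻¹ * (of (some (i, false)))⁻¹) := by
        refine Wt.comm (ρ := w i₀ * w i₀) (σ := w i.1) (Wt.gen none le_rfl)
          (Wt.gen (some (i, false)) le_rfl) ?_
        nlinarith
      have h2 : Wt of (wx w i₀) (ρ * w i₀) (of (some (i, true) : Nx i₀) *
          of (some (i, true) : Nx i₀)) := by
        refine Wt.sq (ρ := w i.1 * w i₀) (Wt.gen (some (i, true)) le_rfl) ?_
        have h3 : w i.1 * w i₀ ≤ w i₀ := by nlinarith
        have h4 : 0 < w i.1 * w i₀ := mul_pos hwi hc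
        nlinarith
      have h3 := Wt.mul h1 (Wt.inv h2)
      rw [this]
      convert h3 using 1
      group
  have hmulδ : ∀ (ρ : ℝ) (a b : FreeGroup (Nx i₀)), 0 < ρ →
      Wt of (wx w i₀) (ρ * w i₀) (tx i₀ a * a⁻¹) → Wt of (wx w i₀) (ρ * w i₀) (tx i₀ b * b⁻¹) →
      Wt of (wx w i₀) (ρ * w i₀) (tx i₀ (a * b) * (a * b)⁻¹) := by
    intro ρ a b hρ ha hb
    have h := Wt.mul ha (hconj _ a _ (mul_pos hρ hc) hb)
    rw [MonoidHom.map_mul]
    convert h using 1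
    group
  have hinvδ : ∀ (ρ : ℝ) (a : FreeGroup (Nx i₀)), 0 < ρ →
      Wt of (wx w i₀) (ρ * w i₀) (tx i₀ a * a⁻¹) →
      Wt of (wx w i₀) (ρ * w i₀) (tx i₀ a⁻¹ * (a⁻¹)⁻¹) := by
    intro ρ a hρ ha
    have h := hconj _ a⁻¹ _ (mul_pos hρ hc) (Wt.inv ha)
    rw [MonoidHom.map_inv]
    convert h using 1
    group
  have hall : ∀ a : FreeGroup (Nx i₀), Wt of (wx w i₀) (1 * w i₀) (tx i₀ a * a⁻¹) := by
    intro a
    induction a using FreeGroup.induction_on with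
    | C1 => simpa using Wt.one (y := (of : Nx i₀ → FreeGroup (Nx i₀))) (w := wx w i₀) hc
    | of i => exact hgen 1 i (wx_le w i₀ hw hw1 i)
    | inv_of i ih => exact hinvδ 1 _ one_pos ih
    | mul a b ha hb => exact hmulδ 1 a b one_pos ha hb
  intro ρ v hv
  induction hv with
  | @gen ρ i h => exact hgen ρ i h
  | @one ρ h =>
    rw [MonoidHom.map_one, inv_one, mul_one]
    exact Wt.one (mul_pos h hc)
  | @mul ρ a b ha hb iha ihb => exact hmulδ ρ a b (hpos _ _ ha) iha ihb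
  | @inv ρ a ha iha => exact hinvδ ρ a (hpos _ _ ha) iha
  | @comm ρ σ τ a b ha hb h iha ihb =>
    have hρ := hpos _ _ ha
    have hσ := hpos _ _ hb
    have e1 : ρ * w i₀ = w i₀ * ρ := mul_comm _ _
    have e2 : σ * w i₀ = w i₀ * σ := mul_comm _ _
    rw [e1] at iha
    rw [e2] at ihb
    have h1 := (hABS (FreeGroup (Nx i₀)) _ hser ρ σ (w i₀) hρ hσ hc hc1 a b (tx i₀ a * a⁻¹)
      (tx i₀ b * b⁻¹) ((hmem _ _ hρ).2 ha) ((hmem _ _ hσ).2 hb)
      ((hmem _ _ (mul_pos hc hρ)).2 iha) ((hmem _ _ (mul_pos hc hσ)).2 ihb)).1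
    rw [hmem _ _ (mul_pos hc (mul_pos hρ hσ))] at h1
    have h2 := hmono _ (τ * w i₀) _ h1 (by nlinarith)
    simp only [inv_mul_cancel_right] at h2
    rw [MonoidHom.map_mul, MonoidHom.map_mul, MonoidHom.map_mul, MonoidHom.map_inv, MonoidHom.map_inv]
    exact h2
  | @sq ρ τ a ha h iha =>
    have hρ := hpos _ _ ha
    have e1 : ρ * w i₀ = w i₀ * ρ := mul_comm _ _
    rw [e1] at iha
    have h1 := (hABS (FreeGroup (Nx i₀)) _ hser ρ ρ (w i₀) hρ hρ hc hc1 a a (tx i₀ a * a⁻¹)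
      (tx i₀ a * a⁻¹) ((hmem _ _ hρ).2 ha) ((hmem _ _ hρ).2 ha)
      ((hmem _ _ (mul_pos hc hρ)).2 iha) ((hmem _ _ (mul_pos hc hρ)).2 iha)).2
    rw [hmem _ _ (mul_pos hc (mul_pos hρ hρ))] at h1
    have h2 := hmono _ (τ * w i₀) _ h1 (by nlinarith)
    simp only [inv_mul_cancel_right] at h2
    rw [MonoidHom.map_mul]
    exact h2
  | @top ρ a h =>
    exact hmono _ _ _ (hall a) (mul_le_mul_of_nonneg_right h hc.le)

end Pool.Agent.Lib.MP166ce5.FR
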