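import Mathlib

/-!
# Definitions for the slow torsion groups of exponential growth

All weights are positive real numbers. `Wt y w ρ a` says that the element `a` of a group has weight
at most `ρ`, for given weights `w i` of the elements `y i`.
-/

set_option autoImplicit false

namespace Pool.Agent.Lib.MP166ce5.FR

/-- Weighted filtration, defined from below: generators, products, inverses, commutators (weights
multiply), squares (weights are squared), and everything has weight `1`. -/
inductive Wt {K ι : Type} [Group K] (y : ι → K) (w : ι → ℝ) : ℝ → K → Prop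
  | gen {ρ : ℝ} (i : ι) (h : w i ≤ ρ) : Wt y w ρ (y i)
  | one {ρ : ℝ} (h : 0 < ρ) : Wt y w ρ 1
  | mul {ρ : ℝ} {a b : K} (ha : Wt y w ρ a) (hb : Wt y w ρ b) : Wt y w ρ (a * b)
  | inv {ρ : ℝ} {a : K} (ha : Wt y w ρ a) : Wt y w ρ a⁻¹
  | comm {ρ σ τ : ℝ} {a b : K} (ha : Wt y w ρ a) (hb : Wt y w σ b) (h : ρ * σ ≤ τ) :
      Wt y w τ (a * b * a⁻¹ * b⁻¹)
  | sq {ρ τ : ℝ} {a : K} (ha : Wt y w ρ a) (h : ρ * ρ ≤ τ) : Wt y w τ (a * a)
  | top {ρ : ℝ} (a : K) (h : 1 ≤ ρ) : Wt y w ρ a

/-- The elements of weight at most `ρ` as a subgroup (used for `0 < ρ` only). -/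
def Dg {K ι : Type} [Group K] (y : ι → K) (w : ι → ℝ) (ρ : ℝ) : Subgroup K :=
  Subgroup.closure {a | Wt y w ρ a}

/-- N-series (only the indices `ρ > 0` matter). -/
structure IsNSer {F : Type} [Group F] (G : ℝ → Subgroup F) : Prop where
  mono : ∀ ρ σ, 0 < ρ → ρ ≤ σ → G ρ ≤ G σ
  top : ∀ ρ, 1 ≤ ρ → G ρ = ⊤
  comm : ∀ ρ σ a b, 0 < ρ → 0 < σ → a ∈ G ρ → b ∈ G σ → a * b * a⁻¹ * b⁻¹ ∈ G (ρ * σ)
  sq : ∀ ρ a, 0 < ρ → a ∈ G ρ → a * a ∈ G (ρ * ρ)

/-- A chain of index two steps from the whole group down to a subgroup; the list contains the pairs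
(representative, weight), the last step first. -/
inductive Chain {F : Type} [Group F] (G : ℝ → Subgroup F) : Subgroup F → List (F × ℝ) → Prop
  | nil : Chain G ⊤ []
  | cons {K K' : Subgroup F} {l : List (F × ℝ)} (t : F) (c : ℝ) (hl : Chain G K l)
      (hK : K' ≤ K) (ht : t ∈ K) (ht' : t ∉ K') (h2 : ∀ g ∈ K, g ∈ K' ∨ g * t⁻¹ ∈ K')
      (hc : 0 < c) (hc1 : c ≤ 1) (htc : t ∈ G c)
      (hlt : ∀ ρ, 0 < ρ → ρ < c → ∀ g ∈ K, g ∈ G ρ → g ∈ K') : Chain G K' ((t, c) :: l)

/-- The parity of the exponent sum of the generator `i₀`. -/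
def par {ι : Type} [DecidableEq ι] (i₀ : ι) : FreeGroup ι →* Multiplicative (ZMod 2) :=
  FreeGroup.lift fun i => if i = i₀ then Multiplicative.ofAdd 1 else 1

/-- The generators of the kernel of `par i₀`. -/
abbrev Nx {ι : Type} (i₀ : ι) : Type := Option ({i : ι // i ≠ i₀} × Bool)

/-- `t², y_i, t y_i t⁻¹ y_i⁻¹` for `t = y_(i₀)`, `i ≠ i₀`. -/
def gx {ι : Type} (i₀ : ι) : Nx i₀ → FreeGroup ι
  | none => FreeGroup.of i₀ * FreeGroup.of i₀
  | some (i, false) => FreeGroup.of i.1
  | some (i, true) => FreeGroup.of i₀ * FreeGroup.of i.1 * (FreeGroup.of i₀)⁻¹ *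
      (FreeGroup.of i.1)⁻¹

/-- The map of free groups onto the kernel of `par i₀`. -/
def jx {ι : Type} (i₀ : ι) : FreeGroup (Nx i₀) →* FreeGroup ι := FreeGroup.lift (gx i₀)

/-- The weights of the new generators. -/
def wx {ι : Type} (w : ι → ℝ) (i₀ : ι) : Nx i₀ → ℝ
  | none => w i₀ * w i₀
  | some (i, false) => w i.1
  | some (i, true) => w i.1 * w i₀

/-- Conjugation by `t` on the free group on the new generators. -/
def tx {ι : Type} (i₀ : ι) : FreeGroup (Nx i₀) →* FreeGroup (Nx i₀) :=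
  FreeGroup.lift fun
    | none => FreeGroup.of none
    | some (i, false) => FreeGroup.of (some (i, true)) * FreeGroup.of (some (i, false))
    | some (i, true) => FreeGroup.of none * FreeGroup.of (some (i, false)) *
        (FreeGroup.of none)⁻¹ * (FreeGroup.of (some (i, false)))⁻¹ *
        (FreeGroup.of (some (i, true)))⁻¹

/-- A state: a subgroup `K` (the range of `e`) of `F` which is free on `e (of i)`, weights `w i` of
the free generators, an N-series `G` on `F` which induces on `K` the weighted filtration, and a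
chain of index two steps from `F` to `K`. -/
structure St (F : Type) [Group F] where
  ι : Type
  fin : Fintype ι
  dec : DecidableEq ι
  e : FreeGroup ι →* F
  inj : Function.Injective e
  w : ι → ℝ
  w0 : ∀ i, 0 < w i
  w1 : ∀ i, w i ≤ 1
  G : ℝ → Subgroup F
  ser : IsNSer G
  mem : ∀ ρ, 0 < ρ → ∀ u, e u ∈ G ρ ↔ Wt FreeGroup.of w ρ u
  l : List (F × ℝ)
  chain : Chain G e.range l

attribute [instance] St.fin St.dec

/-- The subgroup of a state. -/
abbrev St.K {F : Type} [Group F] (S : St F) : Subgroup F := S.e.range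

/-- The sum of the weights of the generators minus one. -/
noncomputable def St.A {F : Type} [Group F] (S : St F) : ℝ := (∑ i, S.w i) - 1

/-- The weighted index of `K`. -/
noncomputable def St.I {F : Type} [Group F] (S : St F) : ℝ := (S.l.map fun p => 1 + p.2).prod

/-- A list of relators with weights. -/
def Rel {F : Type} [Group F] (S : St F) (R : List (F × ℝ)) : Prop :=
  ∀ p ∈ R, 0 < p.2 ∧ p.1 ∈ S.G p.2 ∧ p.1 ∈ S.K

/-- The sum of the weights of a list. -/
noncomputable def wsum {F : Type} (R : List (F × ℝ)) : ℝ := (R.map Prod.snd).sum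

/-- A normal state with relators. -/
structure Lv (F : Type) [Group F] where
  S : St F
  nor : S.K.Normal
  R : List (F × ℝ)
  hR : Rel S R

/-- The normalised deficiency. -/
noncomputable def Lv.θ {F : Type} [Group F] (L : Lv F) : ℝ := L.S.A / L.S.I - wsum L.R

/-- All products of sublists. -/
noncomputable def sub : List ℝ → List ℝ
  | [] => [1]
  | c :: l => sub l ++ (sub l).map (c * ·)

/-- The elements of the free group which are words of length at most `n`. -/
def Len {ι : Type} (n : ℕ) : Set (FreeGroup ι) := {g | ∃ L : List (ι × Bool), L.length ≤ n ∧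
  FreeGroup.mk L = g}

/-- The tower function. -/
def tower : ℕ → ℕ
  | 0 => 1
  | k + 1 => 2 ^ tower k

/-- Products of elements `g - 1` of the group algebra of `F ⧸ K` over the field with two elements,
`g` in `H`, with total weight at most `ρ`: their span. -/
noncomputable def U {F : Type} [Group F] (K : Subgroup F) [K.Normal] (G : ℝ → Subgroup F)
    (H : Subgroup F) (ρ : ℝ) : Submodule (ZMod 2) (MonoidAlgebra (ZMod 2) (F ⧸ K)) :=
  Submodule.span (ZMod 2) {x | ∃ L : List (F × ℝ), (∀ p ∈ L, 0 < p.2 ∧ p.1 ∈ G p.2 ∧ p.1 ∈ H) ∧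
    (L.map Prod.snd).prod ≤ ρ ∧
    x = (L.map fun p => (MonoidAlgebra.of (ZMod 2) (F ⧸ K) (p.1 : F ⧸ K) - 1)).prod}

end Pool.Agent.Lib.MP166ce5.FR
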