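import Pool.Agent.Lib.MP_166ce5_al.FR.Spec

/-!
# MP_166ce5_al, FR: module EXP, generators of the normal closure with weights
-/

set_option autoImplicit false

namespace Pool.Agent.Lib.MP166ce5.FR

namespace EXPM

/-- The elements `m` of `M` with `t m t⁻¹` in `M`. -/
def M1 {F : Type} [Group F] (M : Subgroup F) (t : F) : Subgroup F where
  carrier := {m | m ∈ M ∧ t * m * t⁻¹ ∈ M}
  one_mem' := ⟨M.one_mem, by simp⟩
  mul_mem' := by
    rintro a b ⟨ha, ha'⟩ ⟨hb, hb'⟩
    refine ⟨M.mul_mem ha hb, ?_⟩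
    have h := M.mul_mem ha' hb'
    have e : t * a * t⁻¹ * (t * b * t⁻¹) = t * (a * b) * t⁻¹ := by group
    rwa [e] at h
  inv_mem' := by
    rintro a ⟨ha, ha'⟩
    refine ⟨M.inv_mem ha, ?_⟩
    have h := M.inv_mem ha'
    have e : (t * a * t⁻¹)⁻¹ = t * a⁻¹ * t⁻¹ := by group
    rwa [e] at h

lemma mem_M1 {F : Type} [Group F] {M : Subgroup F} {t m : F} :
    m ∈ M1 M t ↔ m ∈ M ∧ t * m * t⁻¹ ∈ M := Iff.rfl

lemma wsum_append {F : Type} (E E' : List (F × ℝ)) : wsum (E ++ E') = wsum E + wsum E' := by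
  simp [wsum]

lemma wsum_map {F : Type} (f : F × ℝ → F) (c : ℝ) (E : List (F × ℝ)) :
    wsum (E.map fun p => (f p, c * p.2)) = c * wsum E := by
  induction E with
  | nil => simp [wsum]
  | cons p E ih =>
    simp only [wsum, List.map_cons, List.sum_cons] at ih ⊢
    rw [ih]
    ring

lemma key {F : Type} [Group F] {G : ℝ → Subgroup F} (hG : IsNSer G) {K : Subgroup F}
    {l : List (F × ℝ)} (hl : Chain G K l) (r : F) (ρ : ℝ) (hρ : 0 < ρ) (hr : r ∈ G ρ) :
    ∃ E : List (F × ℝ), (∀ p ∈ E, 0 < p.2 ∧ p.1 ∈ G p.2) ∧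
      wsum E = ρ * (l.map fun p => 1 + p.2).prod ∧
      (∀ p ∈ E, p.1 ∈ Subgroup.normalClosure {r}) ∧
      ∀ M : Subgroup F, (∀ k ∈ K, ∀ m ∈ M, k * m * k⁻¹ ∈ M) → (∀ p ∈ E, p.1 ∈ M) →
        ∀ f : F, f * r * f⁻¹ ∈ M := by
  induction hl with
  | nil =>
    refine ⟨[(r, ρ)], ?_, ?_, ?_, ?_⟩
    · intro p hp
      rw [List.mem_singleton] at hp
      subst hp
      exact ⟨hρ, hr⟩
    · simp [wsum]
    · intro p hp
      rw [List.mem_singleton] at hp
      subst hp
      exact Subgroup.subset_normalClosure rfl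
    · intro M hM hE f
      exact hM f (Subgroup.mem_top f) r (hE (r, ρ) (List.mem_singleton.2 rfl))
  | @cons K K' l t c hl hK ht ht' h2 hc hc1 htc hlt ih =>
    obtain ⟨E, hE1, hE2, hE3, hE4⟩ := ih
    refine ⟨E ++ E.map fun p => (t * p.1 * t⁻¹ * p.1⁻¹, c * p.2), ?_, ?_, ?_, ?_⟩
    · intro p hp
      rcases List.mem_append.1 hp with hp | hp
      · exact hE1 p hp
      · obtain ⟨q, hq, rfl⟩ := List.mem_map.1 hp
        obtain ⟨h3, h4⟩ := hE1 q hq
        exact ⟨mul_pos hc h3, hG.comm c q.2 t q.1 hc h3 htc h4⟩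
    · rw [wsum_append, wsum_map (fun p => t * p.1 * t⁻¹ * p.1⁻¹), hE2, List.map_cons,
        List.prod_cons]
      ring
    · intro p hp
      rcases List.mem_append.1 hp with hp | hp
      · exact hE3 p hp
      · obtain ⟨q, hq, rfl⟩ := List.mem_map.1 hp
        have h3 := hE3 q hq
        exact Subgroup.mul_mem _ (Subgroup.normalClosure_normal.conj_mem _ h3 t)
          (Subgroup.inv_mem _ h3)
    · intro M hM hE f
      have htt : t * t ∈ K' := by
        rcases h2 (t * t) (K.mul_mem ht ht) with h | h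
        · exact h
        · exfalso
          apply ht'
          have e : t * t * t⁻¹ = t := by group
          rwa [e] at h
      have hconj : ∀ k ∈ K', t * k * t⁻¹ ∈ K' := by
        intro k hk
        rcases h2 (t * k * t⁻¹) (K.mul_mem (K.mul_mem ht (hK hk)) (K.inv_mem ht)) with h | h
        · exact h
        · exfalso
          apply ht'
          have h3 := K'.mul_mem (K'.mul_mem h htt) (K'.inv_mem hk)
          have e : t * k * t⁻¹ * t⁻¹ * (t * t) * k⁻¹ = t := by group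
          rwa [e] at h3
      have hin : ∀ p ∈ E, p.1 ∈ M1 M t := by
        intro p hp
        have h3 : p.1 ∈ M := hE p (List.mem_append.2 (Or.inl hp))
        have h4 : t * p.1 * t⁻¹ * p.1⁻¹ ∈ M :=
          hE (t * p.1 * t⁻¹ * p.1⁻¹, c * p.2) (List.mem_append.2 (Or.inr
            (List.mem_map.2 ⟨p, hp, rfl⟩)))
        refine ⟨h3, ?_⟩
        have h5 := M.mul_mem h4 h3
        have e : t * p.1 * t⁻¹ * p.1⁻¹ * p.1 = t * p.1 * t⁻¹ := by group
        rwa [e] at h5
      have hK' : ∀ k ∈ K', ∀ m ∈ M1 M t, k * m * k⁻¹ ∈ M1 M t := by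
        rintro k hk m ⟨hm, hm'⟩
        refine ⟨hM k hk m hm, ?_⟩
        have h3 := hM (t * k * t⁻¹) (hconj k hk) (t * m * t⁻¹) hm'
        have e : t * k * t⁻¹ * (t * m * t⁻¹) * (t * k * t⁻¹)⁻¹ = t * (k * m * k⁻¹) * t⁻¹ := by
          group
        rwa [e] at h3
      have ht1 : ∀ m ∈ M1 M t, t * m * t⁻¹ ∈ M1 M t := by
        rintro m ⟨hm, hm'⟩
        refine ⟨hm', ?_⟩
        have h3 := hM (t * t) htt m hm
        have e : t * t * m * (t * t)⁻¹ = t * (t * m * t⁻¹) * t⁻¹ := by group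
        rwa [e] at h3
      have hKK : ∀ k ∈ K, ∀ m ∈ M1 M t, k * m * k⁻¹ ∈ M1 M t := by
        intro k hk m hm
        rcases h2 k hk with h | h
        · exact hK' k h m hm
        · have h3 := hK' (k * t⁻¹) h (t * m * t⁻¹) (ht1 m hm)
          have e : k * t⁻¹ * (t * m * t⁻¹) * (k * t⁻¹)⁻¹ = k * m * k⁻¹ := by group
          rwa [e] at h3
      exact (hE4 (M1 M t) hKK hin f).1

end EXPM

open EXPM in
theorem specEXP : SpecEXP := by
  intro F _ S hN r ρ hρ hr hrK
  obtain ⟨E, h1, h2, h3, h4⟩ := key S.ser S.chain r ρ hρ hr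
  have hle : Subgroup.normalClosure {r} ≤ S.K := by
    have := hN
    exact Subgroup.normalClosure_le_normal (Set.singleton_subset_iff.2 hrK)
  exact ⟨E, fun p hp => ⟨(h1 p hp).1, (h1 p hp).2, hle (h3 p hp)⟩, h2, h3, h4⟩

end Pool.Agent.Lib.MP166ce5.FR
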