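import Pool.Agent.Lib.MP_166ce5_al.FR.Spec

/-!
# The map `jx` is injective
-/

set_option autoImplicit false

namespace Pool.Agent.Lib.MP166ce5.FR

open FreeGroup

namespace FRIM

variable {ι : Type} (i₀ : ι)

/-- The permutation of the generator `i₀`. -/
def pT : Equiv.Perm (FreeGroup (Nx i₀) × Bool) where
  toFun x := if x.2 then (x.1, false) else (of none * x.1, true)
  invFun x := if x.2 then ((of none)⁻¹ * x.1, false) else (x.1, true)
  left_inv := by
    rintro ⟨e, s⟩
    cases s <;> simp
  right_inv := by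
    rintro ⟨e, s⟩
    cases s <;> simp

/-- The permutation of the other generators. -/
def pY (i : {i : ι // i ≠ i₀}) : Equiv.Perm (FreeGroup (Nx i₀) × Bool) where
  toFun x := if x.2 then (of (some (i, true)) * (of (some (i, false)) * x.1), true)
    else (of (some (i, false)) * x.1, false)
  invFun x := if x.2 then ((of (some (i, false)))⁻¹ * ((of (some (i, true)))⁻¹ * x.1), true)
    else ((of (some (i, false)))⁻¹ * x.1, false)
  left_inv := by
    rintro ⟨e, s⟩
    cases s <;> simp
  right_inv := by
    rintro ⟨e, s⟩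
    cases s <;> simp

open Classical in
/-- The action. -/
noncomputable def act : FreeGroup ι →* Equiv.Perm (FreeGroup (Nx i₀) × Bool) :=
  FreeGroup.lift fun i => if h : i = i₀ then pT i₀ else pY i₀ ⟨i, h⟩

theorem act_t : act i₀ (of i₀) = pT i₀ := by
  simp [act]

theorem act_y (i : {i : ι // i ≠ i₀}) : act i₀ (of i.1) = pY i₀ i := by
  have h := i.2
  simp [act, h]

theorem act_gx (x : Nx i₀) (e : FreeGroup (Nx i₀)) :
    act i₀ (gx i₀ x) (e, false) = (of x * e, false) := by
  rcases x with _ | ⟨i, s⟩
  · simp [gx, act_t, pT]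
  · cases s
    · simp [gx, act_y, pY]
    · simp only [gx, _root_.map_mul, _root_.map_inv, act_t, act_y, Equiv.Perm.mul_apply]
      have h1 : (pY i₀ i)⁻¹ (e, false) = ((of (some (i, false)))⁻¹ * e, false) := rfl
      have h2 : (pT i₀)⁻¹ ((of (some (i, false)))⁻¹ * e, false) =
        ((of (some (i, false)))⁻¹ * e, true) := rfl
      rw [h1, h2]
      simp [pY, pT]

theorem act_jx (v e : FreeGroup (Nx i₀)) : act i₀ (jx i₀ v) (e, false) = (v * e, false) := by
  induction v using FreeGroup.induction_on generalizing e with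
  | C1 => simp
  | of x => simpa [jx] using act_gx i₀ x e
  | inv_of x hx =>
    rw [_root_.map_inv, _root_.map_inv, Equiv.Perm.inv_eq_iff_eq, hx]
    simp
  | mul a b ha hb => rw [_root_.map_mul, _root_.map_mul, Equiv.Perm.mul_apply, hb, ha, mul_assoc]

end FRIM

theorem specFRI : SpecFRI := by
  intro ι i₀ u v huv
  have h1 := FRIM.act_jx i₀ u 1
  have h2 := FRIM.act_jx i₀ v 1
  rw [huv, h2] at h1
  simpa using (congrArg Prod.fst h1).symm

end Pool.Agent.Lib.MP166ce5.FR
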