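import Pool.Agent.Lib.MP_166ce5_al.FR.Spec

/-!
# FRR: the range of `jx` and conjugation by `t`
-/

set_option autoImplicit false

namespace Pool.Agent.Lib.MP166ce5.FR

open FreeGroup (of)

namespace FRRM

variable {ι : Type} (i₀ : ι)

lemma jx_none : jx i₀ (of none) = of i₀ * of i₀ := by
  simp [jx, gx]

lemma jx_false (i : {i : ι // i ≠ i₀}) : jx i₀ (of (some (i, false))) = of i.1 := by
  simp [jx, gx]

lemma jx_true (i : {i : ι // i ≠ i₀}) : jx i₀ (of (some (i, true))) =
    of i₀ * of i.1 * (of i₀)⁻¹ * (of i.1)⁻¹ := by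
  simp [jx, gx]

lemma tx_none : tx i₀ (of none) = of none := by
  simp [tx]

lemma tx_false (i : {i : ι // i ≠ i₀}) : tx i₀ (of (some (i, false))) =
    of (some (i, true)) * of (some (i, false)) := by
  simp [tx]

lemma tx_true (i : {i : ι // i ≠ i₀}) : tx i₀ (of (some (i, true))) =
    of none * of (some (i, false)) * (of none)⁻¹ * (of (some (i, false)))⁻¹ *
        (of (some (i, true)))⁻¹ := by
  simp [tx]

lemma conj_eq (v : FreeGroup (Nx i₀)) : jx i₀ (tx i₀ v) = of i₀ * jx i₀ v * (of i₀)⁻¹ := by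
  have key : (jx i₀).comp (tx i₀) = (MulAut.conj (of i₀)).toMonoidHom.comp (jx i₀) := by
    ext x
    rcases x with _ | ⟨i, _ | _⟩
    · show jx i₀ (tx i₀ (of none)) = of i₀ * jx i₀ (of none) * (of i₀)⁻¹
      rw [tx_none, jx_none]
      group
    · show jx i₀ (tx i₀ (of (some (i, false)))) = of i₀ * jx i₀ (of (some (i, false))) * (of i₀)⁻¹
      rw [tx_false, map_mul, jx_true, jx_false]
      group
    · show jx i₀ (tx i₀ (of (some (i, true)))) = of i₀ * jx i₀ (of (some (i, true))) * (of i₀)⁻¹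
      rw [tx_true, map_mul, map_mul, map_mul, map_mul, map_inv, map_inv, map_inv, jx_none,
        jx_false, jx_true]
      group
  exact DFunLike.congr_fun key v

variable [DecidableEq ι]

lemma par_self : par i₀ (of i₀) = Multiplicative.ofAdd 1 := by
  simp [par]

lemma par_ne (i : ι) (h : i ≠ i₀) : par i₀ (of i) = 1 := by
  simp [par, h]

lemma two (x : Multiplicative (ZMod 2)) : x * x = 1 := by
  revert x; decide

lemma par_jx (v : FreeGroup (Nx i₀)) : par i₀ (jx i₀ v) = 1 := by
  have key : (par i₀).comp (jx i₀) = 1 := by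
    ext x
    rcases x with _ | ⟨i, _ | _⟩
    · show par i₀ (jx i₀ (of none)) = 1
      rw [jx_none, map_mul, two]
    · show par i₀ (jx i₀ (of (some (i, false)))) = 1
      rw [jx_false, par_ne _ _ i.2]
    · show par i₀ (jx i₀ (of (some (i, true)))) = 1
      rw [jx_true, map_mul, map_mul, map_mul, map_inv, map_inv, par_ne _ _ i.2]
      simp
  exact DFunLike.congr_fun key v

/-- the union of the two cosets is everything -/
lemma cover (u : FreeGroup ι) :
    (∃ v, jx i₀ v = u) ∨ (∃ v, jx i₀ v * of i₀ = u) := by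
  have gen : ∀ (i : ι) (u : FreeGroup ι), ((∃ v, jx i₀ v = u) ∨ (∃ v, jx i₀ v * of i₀ = u)) →
      ((∃ v, jx i₀ v = u * of i) ∨ (∃ v, jx i₀ v * of i₀ = u * of i)) ∧
      ((∃ v, jx i₀ v = u * (of i)⁻¹) ∨ (∃ v, jx i₀ v * of i₀ = u * (of i)⁻¹)) := by
    intro i u hu
    by_cases hi : i = i₀
    · subst hi
      rcases hu with ⟨v, rfl⟩ | ⟨v, rfl⟩
      · refine ⟨Or.inr ⟨v, rfl⟩, Or.inr ⟨v * (of none)⁻¹, ?_⟩⟩
        rw [map_mul, map_inv, jx_none]
        group
      · refine ⟨Or.inl ⟨v * of none, ?_⟩, Or.inl ⟨v, ?_⟩⟩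
        · rw [map_mul, jx_none]
          group
        · group
    · rcases hu with ⟨v, rfl⟩ | ⟨v, rfl⟩
      · refine ⟨Or.inl ⟨v * of (some (⟨i, hi⟩, false)), ?_⟩,
          Or.inl ⟨v * (of (some (⟨i, hi⟩, false)))⁻¹, ?_⟩⟩
        · rw [map_mul, jx_false]
        · rw [map_mul, map_inv, jx_false]
      · have h := conj_eq i₀ (of (some (⟨i, hi⟩, false)))
        rw [jx_false] at h
        refine ⟨Or.inr ⟨v * tx i₀ (of (some (⟨i, hi⟩, false))), ?_⟩,
          Or.inr ⟨v * (tx i₀ (of (some (⟨i, hi⟩, false))))⁻¹, ?_⟩⟩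
        · rw [map_mul, h]
          group
        · rw [map_mul, map_inv, h]
          group
  induction u using FreeGroup.induction_on with
  | C1 => exact Or.inl ⟨1, map_one _⟩
  | of i =>
    have := (gen i 1 (Or.inl ⟨1, map_one _⟩)).1
    rwa [one_mul] at this
  | inv_of i _ =>
    have := (gen i 1 (Or.inl ⟨1, map_one _⟩)).2
    rwa [one_mul] at this
  | mul x y hx hy =>
    rcases hx with ⟨v, rfl⟩ | ⟨v, rfl⟩
    · rcases hy with ⟨w, rfl⟩ | ⟨w, rfl⟩
      · exact Or.inl ⟨v * w, map_mul _ _ _⟩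
      · refine Or.inr ⟨v * w, ?_⟩
        rw [map_mul, mul_assoc]
    · rcases hy with ⟨w, rfl⟩ | ⟨w, rfl⟩
      · refine Or.inr ⟨v * tx i₀ w, ?_⟩
        rw [map_mul, conj_eq]
        group
      · refine Or.inl ⟨v * tx i₀ w * of none, ?_⟩
        rw [map_mul, map_mul, conj_eq, jx_none]
        group

lemma ker_eq (u : FreeGroup ι) : u ∈ (jx i₀).range ↔ par i₀ u = 1 := by
  constructor
  · rintro ⟨v, rfl⟩
    exact par_jx i₀ v
  · intro h
    rcases cover i₀ u with ⟨v, hv⟩ | ⟨v, hv⟩
    · exact ⟨v, hv⟩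
    · exfalso
      rw [← hv, map_mul, par_jx, par_self, one_mul] at h
      revert h
      decide

lemma par_other (i : {i : ι // i ≠ i₀}) (v : FreeGroup (Nx i₀)) :
    par i.1 (jx i₀ v) = par (some (i, false) : Nx i₀) v := by
  have key : (par i.1).comp (jx i₀) = par (some (i, false) : Nx i₀) := by
    ext x
    rcases x with _ | ⟨j, _ | _⟩
    · show par i.1 (jx i₀ (of none)) = par (some (i, false) : Nx i₀) (of none)
      rw [jx_none, map_mul, two, par_ne]
      simp
    · show par i.1 (jx i₀ (of (some (j, false)))) = par (some (i, false) : Nx i₀) (of (some (j, false)))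
      rw [jx_false]
      by_cases h : j = i
      · subst h
        rw [par_self, par_self]
      · rw [par_ne, par_ne]
        · simpa using h
        · intro h'
          exact h (Subtype.ext h')
    · show par i.1 (jx i₀ (of (some (j, true)))) = par (some (i, false) : Nx i₀) (of (some (j, true)))
      rw [jx_true, map_mul, map_mul, map_mul, map_inv, map_inv, par_ne (some (i, false) : Nx i₀)]
      · rw [mul_comm (par i.1 (of i₀)) (par i.1 (of j.1)), mul_assoc (par i.1 (of j.1))]
        simp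
      · simp
  exact DFunLike.congr_fun key v

end FRRM

theorem specFRR : SpecFRR := by
  intro ι _ i₀
  exact ⟨FRRM.ker_eq i₀, FRRM.conj_eq i₀, FRRM.par_other i₀⟩

end Pool.Agent.Lib.MP166ce5.FR
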