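import Pool.Agent.Lib.MP_166ce5_al.FR.Spec

/-!
# Exponential growth from unbounded sums
-/

set_option autoImplicit false

namespace Pool.Agent.Lib.MP166ce5.FR

namespace GRWM

theorem sum_sub (l : List ℝ) : (sub l).sum = (l.map fun c => 1 + c).prod := by
  induction l with
  | nil => simp [sub]
  | cons c l ih =>
    have h : ((sub l).map (c * ·)).sum = c * (sub l).sum := by
      have := List.sum_map_mul_left (l := sub l) (f := fun x : ℝ => x) (r := c)
      simpa using this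
    simp only [sub, List.sum_append, List.map_cons, List.prod_cons, h, ih]
    ring

theorem sub_mem (l : List ℝ) (hl : ∀ c ∈ l, 0 < c ∧ c ≤ 1) : ∀ x ∈ sub l, 0 < x ∧ x ≤ 1 := by
  induction l with
  | nil => intro x hx; simp [sub] at hx; subst hx; norm_num
  | cons c l ih =>
    intro x hx
    have ih' := ih fun c' hc' => hl c' (List.mem_cons_of_mem _ hc')
    obtain ⟨hc0, hc1⟩ := hl c List.mem_cons_self
    simp only [sub, List.mem_append, List.mem_map] at hx
    rcases hx with hx | ⟨y, hy, rfl⟩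
    · exact ih' x hx
    · obtain ⟨h0, h1⟩ := ih' y hy
      exact ⟨mul_pos hc0 h0, mul_le_one₀ hc1 h0.le h1⟩

theorem one_term (s : ℝ) (hs : 0 < s) (hs1 : s < 1) (x : ℝ) (hx : x ≤ 1) (N : ℕ) :
    x ≤ (∑ n ∈ Finset.range N, (1 - s) * s ^ n *
      (if s ^ (n + 1) < x then (1 : ℝ) else 0)) + s ^ N := by
  induction N with
  | zero => simpa using hx
  | succ N ih =>
    rw [Finset.sum_range_succ]
    by_cases h : s ^ (N + 1) < x
    · rw [if_pos h]
      have : (1 - s) * s ^ N * 1 + s ^ (N + 1) = s ^ N := by ring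
      linarith
    · rw [if_neg h]
      have h1 : 0 ≤ ∑ n ∈ Finset.range N, (1 - s) * s ^ n *
          (if s ^ (n + 1) < x then (1 : ℝ) else 0) := by
        refine Finset.sum_nonneg fun n _ => ?_
        refine mul_nonneg (mul_nonneg (by linarith) (pow_nonneg hs.le _)) ?_
        split_ifs <;> norm_num
      have h2 := not_lt.1 h
      linarith

theorem sum_le (s : ℝ) (hs : 0 < s) (hs1 : s < 1) (N : ℕ) (L : List ℝ)
    (hL : ∀ x ∈ L, x ≤ 1) :
    L.sum ≤ (∑ n ∈ Finset.range N, (1 - s) * s ^ n *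
      ((L.countP (fun x => s ^ (n + 1) < x) : ℕ) : ℝ)) + (L.length : ℝ) * s ^ N := by
  induction L with
  | nil => simp
  | cons x L ih =>
    have ih' := ih fun y hy => hL y (List.mem_cons_of_mem _ hy)
    have h1 := one_term s hs hs1 x (hL x List.mem_cons_self) N
    have h2 : ∀ n, (((x :: L).countP (fun x => s ^ (n + 1) < x) : ℕ) : ℝ) =
        ((L.countP (fun x => s ^ (n + 1) < x) : ℕ) : ℝ) +
          (if s ^ (n + 1) < x then (1 : ℝ) else 0) := by
      intro n
      rw [List.countP_cons]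
      by_cases h : s ^ (n + 1) < x <;> simp [h]
    simp only [h2, mul_add, Finset.sum_add_distrib, List.sum_cons, List.length_cons]
    push_cast
    linarith

end GRWM

open GRWM in
theorem specGRW : SpecGRW := by
  intro s γ hs hs1 hγ0 hmono hsub hB n₀
  by_contra hn
  rw [not_le] at hn
  have hn0 : n₀ ≠ 0 := by
    rintro rfl
    rw [pow_zero] at hn
    have : (1 : ℝ) ≤ (γ 0 : ℝ) := by exact_mod_cast hγ0
    linarith
  have hn1 : 1 ≤ n₀ := Nat.one_le_iff_ne_zero.2 hn0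
  obtain ⟨q, hq⟩ : ∃ q : ℝ, q = (γ n₀ : ℝ) * s ^ n₀ := ⟨_, rfl⟩
  have hq1 : q < 1 := by
    rw [hq]
    have h1 : (γ n₀ : ℝ) * s ^ n₀ < (s⁻¹) ^ n₀ * s ^ n₀ :=
      mul_lt_mul_of_pos_right hn (pow_pos hs _)
    rwa [← mul_pow, inv_mul_cancel₀ hs.ne', one_pow] at h1
  have hq0 : 0 ≤ q := by rw [hq]; positivity
  have hpow : ∀ k r, γ (k * n₀ + r) ≤ γ n₀ ^ k * γ r := by
    intro k
    induction k with
    | zero => intro r; simp
    | succ k ih =>
      intro r
      have h1 : (k + 1) * n₀ + r = n₀ + (k * n₀ + r) := by ring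
      rw [h1]
      refine (hsub _ _).trans ?_
      rw [pow_succ, mul_assoc, mul_comm (γ n₀) (γ r), ← mul_assoc, mul_comm]
      exact Nat.mul_le_mul_right _ (ih r)
  have hterm : ∀ k r, r < n₀ → (γ (k * n₀ + r) : ℝ) * s ^ (k * n₀ + r) ≤ (γ n₀ : ℝ) * q ^ k := by
    intro k r hr
    have h1 : (γ (k * n₀ + r) : ℝ) ≤ (γ n₀ : ℝ) ^ k * (γ n₀ : ℝ) := by
      have h2 : γ (k * n₀ + r) ≤ γ n₀ ^ k * γ n₀ :=
        (hpow k r).trans (Nat.mul_le_mul_left _ (hmono hr.le))
      exact_mod_cast h2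
    have h3 : s ^ (k * n₀ + r) ≤ (s ^ n₀) ^ k := by
      rw [pow_add, ← pow_mul, mul_comm n₀ k]
      exact mul_le_of_le_one_right (pow_nonneg hs.le _) (pow_le_one₀ hs.le hs1.le)
    calc (γ (k * n₀ + r) : ℝ) * s ^ (k * n₀ + r)
        ≤ ((γ n₀ : ℝ) ^ k * (γ n₀ : ℝ)) * (s ^ n₀) ^ k :=
          mul_le_mul h1 h3 (pow_nonneg hs.le _) (by positivity)
      _ = (γ n₀ : ℝ) * q ^ k := by rw [hq, mul_pow]; ring
  have hblock : ∀ K : ℕ, ∑ n ∈ Finset.range (K * n₀), (γ n : ℝ) * s ^ n ≤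
      (n₀ : ℝ) * (γ n₀ : ℝ) * ∑ k ∈ Finset.range K, q ^ k := by
    intro K
    induction K with
    | zero => simp
    | succ K ih =>
      have h1 : (K + 1) * n₀ = K * n₀ + n₀ := by ring
      rw [h1, Finset.sum_range_add, Finset.sum_range_succ, mul_add]
      refine add_le_add ih ?_
      calc ∑ r ∈ Finset.range n₀, (γ (K * n₀ + r) : ℝ) * s ^ (K * n₀ + r)
          ≤ ∑ _r ∈ Finset.range n₀, (γ n₀ : ℝ) * q ^ K :=
            Finset.sum_le_sum fun r hr => hterm K r (Finset.mem_range.1 hr)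
        _ = (n₀ : ℝ) * (γ n₀ : ℝ) * q ^ K := by
            rw [Finset.sum_const, Finset.card_range, nsmul_eq_mul]; ring
  obtain ⟨C, hC⟩ : ∃ C : ℝ, C = (n₀ : ℝ) * (γ n₀ : ℝ) * (1 - q)⁻¹ := ⟨_, rfl⟩
  have hsum : ∀ N : ℕ, ∑ n ∈ Finset.range N, (γ n : ℝ) * s ^ n ≤ C := by
    intro N
    have h1 : ∑ n ∈ Finset.range N, (γ n : ℝ) * s ^ n ≤
        ∑ n ∈ Finset.range (N * n₀), (γ n : ℝ) * s ^ n := by
      refine Finset.sum_le_sum_of_subset_of_nonneg ?_ fun n _ _ => by positivity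
      intro n hn'
      rw [Finset.mem_range] at hn' ⊢
      exact hn'.trans_le (Nat.le_mul_of_pos_right N (Nat.pos_of_ne_zero hn0))
    have h2 : ∑ k ∈ Finset.range N, q ^ k ≤ (1 - q)⁻¹ := by
      have h3 := mul_neg_geom_sum q N
      have h4 : 0 < 1 - q := by linarith
      rw [← one_div, le_div_iff₀ h4, mul_comm, h3]
      have := pow_nonneg hq0 N
      linarith
    refine h1.trans ((hblock N).trans ?_)
    rw [hC]
    exact mul_le_mul_of_nonneg_left h2 (by positivity)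
  obtain ⟨l, hl, hlB, hlc⟩ := hB (C + 1)
  have hmem := sub_mem l hl
  have hC0 : 0 ≤ C := by simpa using hsum 0
  have hbig : ∀ N : ℕ, C + 1 ≤ C + ((sub l).length : ℝ) * s ^ N := by
    intro N
    have h1 := sum_le s hs hs1 N (sub l) fun x hx => (hmem x hx).2
    rw [sum_sub] at h1
    have h2 : ∑ n ∈ Finset.range N, (1 - s) * s ^ n *
        (((sub l).countP (fun x => s ^ (n + 1) < x) : ℕ) : ℝ) ≤
        (1 - s) * ∑ n ∈ Finset.range N, (γ n : ℝ) * s ^ n := by
      rw [Finset.mul_sum]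
      refine Finset.sum_le_sum fun n _ => ?_
      have h3 : (((sub l).countP (fun x => s ^ (n + 1) < x) : ℕ) : ℝ) ≤ (γ n : ℝ) := by
        exact_mod_cast hlc n
      have h4 : 0 ≤ (1 - s) * s ^ n := mul_nonneg (by linarith) (pow_nonneg hs.le _)
      calc _ ≤ (1 - s) * s ^ n * (γ n : ℝ) := mul_le_mul_of_nonneg_left h3 h4
        _ = (1 - s) * ((γ n : ℝ) * s ^ n) := by ring
    have h5 : (1 - s) * ∑ n ∈ Finset.range N, (γ n : ℝ) * s ^ n ≤ C := by
      calc (1 - s) * ∑ n ∈ Finset.range N, (γ n : ℝ) * s ^ n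
          ≤ 1 * C := mul_le_mul (by linarith) (hsum N)
            (Finset.sum_nonneg fun n _ => by positivity) (by norm_num)
        _ = C := one_mul C
    linarith
  obtain ⟨N, hN⟩ := exists_pow_lt_of_lt_one
    (show (0 : ℝ) < ((sub l).length + 1 : ℝ)⁻¹ by positivity) hs1
  have h1 := hbig N
  have h2 : ((sub l).length : ℝ) * s ^ N < 1 := by
    have h3 : (0 : ℝ) < (sub l).length + 1 := by positivity
    calc ((sub l).length : ℝ) * s ^ N ≤ ((sub l).length + 1) * s ^ N :=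
          mul_le_mul_of_nonneg_right (by linarith) (pow_nonneg hs.le _)
      _ < ((sub l).length + 1) * ((sub l).length + 1 : ℝ)⁻¹ := mul_lt_mul_of_pos_left hN h3
      _ = 1 := mul_inv_cancel₀ h3.ne'
  linarith

end Pool.Agent.Lib.MP166ce5.FR
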