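import Pool.Agent.Lib.MP_166ce5_al.FR.Spec

set_option autoImplicit false

namespace Pool.Agent.Lib.MP166ce5.FR

open FreeGroup

namespace INIM

/-- the first state -/
noncomputable def S0 (hWTB : SpecWTB) (d : ℕ) (s : ℝ) (hs : 0 < s) (hs1 : s ≤ 1) :
    St (FreeGroup (Fin d)) where
  ι := Fin d
  fin := inferInstance
  dec := inferInstance
  e := MonoidHom.id _
  inj := Function.injective_id
  w := fun _ => s
  w0 := fun _ => hs
  w1 := fun _ => hs1
  G := Dg FreeGroup.of (fun _ : Fin d => s)
  ser := (hWTB _ _ FreeGroup.of (fun _ : Fin d => s) (fun _ => hs)).2.2.2.1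
  mem := fun ρ hρ u => (hWTB _ _ FreeGroup.of (fun _ : Fin d => s) (fun _ => hs)).2.2.1 ρ u hρ
  l := []
  chain := by
    rw [MonoidHom.range_eq_top.2 Function.surjective_id]
    exact Chain.nil

end INIM

open INIM in
theorem specINI (hWTB : SpecWTB) : SpecINI := by
  intro d s hs hs1
  have hK : (S0 hWTB d s hs hs1).K = ⊤ := MonoidHom.range_eq_top.2 Function.surjective_id
  refine ⟨{ S := S0 hWTB d s hs hs1
            nor := by
              rw [hK]
              infer_instance
            R := []
            hR := by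
              intro p hp
              exact absurd hp List.not_mem_nil }, hK, ?_, rfl, ?_, ?_⟩
  · show ((([] : List (FreeGroup (Fin d) × ℝ))).map fun p => 1 + p.2).prod = 1
    simp
  · show ((∑ _i : Fin d, s) - 1) / (((([] : List (FreeGroup (Fin d) × ℝ))).map
      fun p => 1 + p.2).prod) - (([] : List (FreeGroup (Fin d) × ℝ)).map Prod.snd).sum = d * s - 1
    simp
  · intro i
    exact ((hWTB _ _ FreeGroup.of (fun _ : Fin d => s) (fun _ => hs)).2.2.1 s _ hs).2
      (Wt.gen i (le_refl _))

end Pool.Agent.Lib.MP166ce5.FR
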