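import Pool.Agent.Lib.MP_166ce5_al.FR.Spec

/-!
# ITR: iteration of the step over a set of generators
-/

set_option autoImplicit false

namespace Pool.Agent.Lib.MP166ce5.FR

open FreeGroup

namespace ITRM

theorem aux (hNXT : SpecNXT) : ∀ (n : ℕ) (F : Type) [Group F] (S : St F) (Z : Finset S.ι),
    Z.card = n → ∃ S' : St F, S'.G = S.G ∧ S'.A = S.A * ∏ z ∈ Z, (1 + S.w z) ∧
    S'.I = S.I * ∏ z ∈ Z, (1 + S.w z) ∧
    ∀ g, g ∈ S'.K ↔ ∃ u, (∀ z ∈ Z, par z u = 1) ∧ S.e u = g := by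
  intro n
  induction n with
  | zero =>
    intro F _ S Z hZ
    rw [Finset.card_eq_zero] at hZ
    subst hZ
    refine ⟨S, rfl, by simp, by simp, fun g => ?_⟩
    constructor
    · rintro ⟨u, hu⟩
      exact ⟨u, by simp, hu⟩
    · rintro ⟨u, -, hu⟩
      exact ⟨u, hu⟩
  | succ n ih =>
    intro F _ S Z hZ
    obtain ⟨i₀, hi₀⟩ : Z.Nonempty := by
      rw [← Finset.card_pos]
      omega
    obtain ⟨S₁, f, hf, hG, hA, hI, hw, hK, hpar⟩ := hNXT F S i₀
    let f' : {x // x ∈ Z.erase i₀} → S₁.ι := fun i => f ⟨i.1, Finset.ne_of_mem_erase i.2⟩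
    have hf' : Function.Injective f' := by
      intro x y hxy
      have h1 : (⟨x.1, Finset.ne_of_mem_erase x.2⟩ : {i : S.ι // i ≠ i₀})
          = ⟨y.1, Finset.ne_of_mem_erase y.2⟩ := hf hxy
      exact Subtype.ext (Subtype.mk.inj h1)
    obtain ⟨S', hG', hA', hI', hK'⟩ := ih F S₁ ((Z.erase i₀).attach.image f') (by
      rw [Finset.card_image_of_injective _ hf', Finset.card_attach, Finset.card_erase_of_mem hi₀]
      omega)
    have hprod : ∏ z ∈ (Z.erase i₀).attach.image f', (1 + S₁.w z)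
        = ∏ z ∈ Z.erase i₀, (1 + S.w z) := by
      rw [Finset.prod_image (fun x _ y _ h => hf' h), ← Finset.prod_attach (Z.erase i₀)]
      refine Finset.prod_congr rfl fun x _ => ?_
      rw [show S₁.w (f' x) = S.w x.1 from hw _]
    have hprod2 : (1 + S.w i₀) * ∏ z ∈ Z.erase i₀, (1 + S.w z) = ∏ z ∈ Z, (1 + S.w z) :=
      Finset.mul_prod_erase Z (fun z => 1 + S.w z) hi₀
    refine ⟨S', hG'.trans hG, ?_, ?_, fun g => ?_⟩
    · rw [hA', hA, hprod, ← hprod2, mul_assoc]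
    · rw [hI', hI, hprod, ← hprod2, mul_assoc]
    · rw [hK' g]
      constructor
      · rintro ⟨u', hu', hg⟩
        obtain ⟨u, hu, hug⟩ := (hK g).1 ⟨u', hg⟩
        refine ⟨u, fun z hz => ?_, hug⟩
        by_cases hzi : z = i₀
        · rw [hzi]
          exact hu
        · have h1 := hpar ⟨z, hzi⟩ u u' (hg.trans hug.symm)
          rw [← h1]
          refine hu' _ (Finset.mem_image.2 ⟨⟨z, Finset.mem_erase.2 ⟨hzi, hz⟩⟩, Finset.mem_attach _ _, rfl⟩)
      · rintro ⟨u, hu, hug⟩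
        obtain ⟨u', hu'⟩ := (hK g).2 ⟨u, hu i₀ hi₀, hug⟩
        refine ⟨u', fun z hz => ?_, hu'⟩
        obtain ⟨x, -, rfl⟩ := Finset.mem_image.1 hz
        have h1 := hpar ⟨x.1, Finset.ne_of_mem_erase x.2⟩ u u' (hu'.trans hug.symm)
        exact h1.trans (hu x.1 (Finset.mem_of_mem_erase x.2))

end ITRM

theorem specITR (hNXT : SpecNXT) : SpecITR := fun F _ S Z => ITRM.aux hNXT Z.card F S Z rfl

end Pool.Agent.Lib.MP166ce5.FR
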