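import Pool.Agent.Lib.MP_166ce5_al.FR.Spec

/-!
# Conjugation by `t` in the group algebra (JAD)
-/

set_option autoImplicit false

namespace Pool.Agent.Lib.MP166ce5.FR

open FreeGroup

namespace JADM

variable {F : Type} [Group F] (K : Subgroup F) [K.Normal]

/-- The image of an element in the group algebra. -/
noncomputable def br (g : F) : MonoidAlgebra (ZMod 2) (F ⧸ K) :=
  MonoidAlgebra.of (ZMod 2) (F ⧸ K) (g : F ⧸ K)

theorem br_mul (g h : F) : br K (g * h) = br K g * br K h := by
  unfold br
  rw [← _root_.map_mul]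
  rfl

theorem br_one : br K 1 = 1 := by
  unfold br
  rw [show ((1 : F) : F ⧸ K) = 1 from rfl, _root_.map_one]

theorem br_inv (t : F) : br K t⁻¹ * br K t = 1 := by
  rw [← br_mul, inv_mul_cancel, br_one]

theorem br_inv' (t : F) : br K t * br K t⁻¹ = 1 := by
  rw [← br_mul, mul_inv_cancel, br_one]

/-- The difference between the conjugate and the element. -/
noncomputable def Df (t : F) (a : MonoidAlgebra (ZMod 2) (F ⧸ K)) :
    MonoidAlgebra (ZMod 2) (F ⧸ K) := br K t * a * br K t⁻¹ - a

theorem Df_add (t : F) (a b : MonoidAlgebra (ZMod 2) (F ⧸ K)) :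
    Df K t (a + b) = Df K t a + Df K t b := by
  unfold Df
  noncomm_ring

theorem Df_smul (t : F) (r : ZMod 2) (a : MonoidAlgebra (ZMod 2) (F ⧸ K)) :
    Df K t (r • a) = r • Df K t a := by
  unfold Df
  rw [mul_smul_comm, smul_mul_assoc, smul_sub]

theorem Df_zero (t : F) : Df K t 0 = 0 := by
  unfold Df
  simp

theorem Df_one (t : F) : Df K t 1 = 0 := by
  unfold Df
  rw [mul_one, br_inv', sub_self]

theorem Df_mul (t : F) (x y : MonoidAlgebra (ZMod 2) (F ⧸ K)) :
    Df K t (x * y) = Df K t x * (y + Df K t y) + x * Df K t y := by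
  have h : br K t * (x * y) * br K t⁻¹ = (br K t * x * br K t⁻¹) * (br K t * y * br K t⁻¹) := by
    calc br K t * (x * y) * br K t⁻¹ = br K t * x * 1 * (y * br K t⁻¹) := by noncomm_ring
      _ = br K t * x * (br K t⁻¹ * br K t) * (y * br K t⁻¹) := by rw [br_inv]
      _ = _ := by noncomm_ring
  unfold Df
  rw [h]
  noncomm_ring

theorem Df_gen (t g : F) : Df K t (br K g - 1) = (br K (t * g * t⁻¹ * g⁻¹) - 1) * br K g := by
  unfold Df
  rw [sub_mul, ← br_mul, mul_sub, sub_mul, ← br_mul, ← br_mul, mul_one, br_inv', one_mul,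
    inv_mul_cancel_right]
  abel

omit [Group F] in
theorem prod_pos (L : List (F × ℝ)) (h : ∀ p ∈ L, 0 < p.2) : 0 < (L.map Prod.snd).prod := by
  induction L with
  | nil => simp
  | cons p L ih =>
    rw [List.map_cons, List.prod_cons]
    exact mul_pos (h p (by simp)) (ih fun q hq => h q (by simp [hq]))

end JADM

open JADM in
theorem specJAD (hJAU : SpecJAU) : SpecJAD := by
  intro F _ G hG K K' _ t c hc hc1 ht hK' σ hσ a ha
  obtain ⟨hmono, hone, hmul, hgen⟩ := hJAU F G K K'
  change Df K t a ∈ U K G K' (c * σ)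
  have key : ∀ L : List (F × ℝ), (∀ p ∈ L, 0 < p.2 ∧ p.1 ∈ G p.2 ∧ p.1 ∈ K') →
      Df K t (L.map fun p => (br K p.1 - 1)).prod ∈ U K G K' (c * (L.map Prod.snd).prod) := by
    intro L
    induction L with
    | nil =>
      intro _
      simp only [List.map_nil, List.prod_nil, Df_one]
      exact Submodule.zero_mem _
    | cons p L ih =>
      intro hL
      have hp := hL p (by simp)
      have hL' : ∀ q ∈ L, 0 < q.2 ∧ q.1 ∈ G q.2 ∧ q.1 ∈ K' := fun q hq => hL q (by simp [hq])
      have hπ : 0 < (L.map Prod.snd).prod := prod_pos L fun q hq => (hL' q hq).1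
      have ih' := ih hL'
      rw [List.map_cons, List.prod_cons, List.map_cons, List.prod_cons, Df_mul]
      have hx : br K p.1 - 1 ∈ U K G K' p.2 := hgen p.2 p.1 hp.1 hp.2.1 hp.2.2
      have hDx : Df K t (br K p.1 - 1) ∈ U K G K' (c * p.2) := by
        rw [Df_gen]
        have h1 : br K (t * p.1 * t⁻¹ * p.1⁻¹) - 1 ∈ U K G K' (c * p.2) := by
          apply hgen _ _ (mul_pos hc hp.1)
          · exact hG.comm c p.2 t p.1 hc hp.1 ht hp.2.1
          · exact K'.mul_mem (hK' _ hp.2.2) (K'.inv_mem hp.2.2)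
        have h2 : br K p.1 ∈ U K G K' 1 := by
          have h3 : br K p.1 - 1 ∈ U K G K' 1 := by
            apply hgen 1 p.1 one_pos _ hp.2.2
            rw [hG.top 1 le_rfl]
            exact Subgroup.mem_top _
          have h4 := (U K G K' 1).add_mem h3 (hone 1 le_rfl)
          rwa [sub_add_cancel] at h4
        have h5 := hmul (c * p.2) 1 _ _ (mul_pos hc hp.1) one_pos h1 h2
        rwa [mul_one] at h5
      have hy : (L.map fun p => (br K p.1 - 1)).prod ∈ U K G K' (L.map Prod.snd).prod :=
        Submodule.subset_span ⟨L, hL', le_rfl, rfl⟩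
      have hyD : (L.map fun p => (br K p.1 - 1)).prod +
          Df K t (L.map fun p => (br K p.1 - 1)).prod ∈ U K G K' (L.map Prod.snd).prod := by
        refine (U K G K' _).add_mem hy (hmono _ _ ?_ ih')
        nlinarith
      have e1 : c * (p.2 * (L.map Prod.snd).prod) = (c * p.2) * (L.map Prod.snd).prod := by ring
      have e2 : (c * p.2) * (L.map Prod.snd).prod = p.2 * (c * (L.map Prod.snd).prod) := by ring
      rw [e1]
      refine (U K G K' _).add_mem (hmul _ _ _ _ (mul_pos hc hp.1) hπ hDx hyD) ?_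
      rw [e2]
      exact hmul _ _ _ _ hp.1 (mul_pos hc hπ) hx ih'
  unfold U at ha
  induction ha using Submodule.span_induction with
  | mem x hx =>
    obtain ⟨L, hL, hLσ, rfl⟩ := hx
    exact hmono _ _ (mul_le_mul_of_nonneg_left hLσ hc.le) (key L hL)
  | zero =>
    rw [Df_zero]
    exact Submodule.zero_mem _
  | add x y _ _ hx hy =>
    rw [Df_add]
    exact Submodule.add_mem _ hx hy
  | smul r x _ hx =>
    rw [Df_smul]
    exact Submodule.smul_mem _ _ hx

end Pool.Agent.Lib.MP166ce5.FR
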