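import Pool.Agent.Lib.MP_166ce5_al.FR.Spec

/-!
# JAU: basic facts on `U`
-/

set_option autoImplicit false

namespace Pool.Agent.Lib.MP166ce5.FR

theorem specJAU : SpecJAU := by
  intro F _ G K H _
  refine ⟨?_, ?_, ?_, ?_⟩
  · intro ρ σ h
    apply Submodule.span_mono
    rintro x ⟨L, h1, h2, h3⟩
    exact ⟨L, h1, h2.trans h, h3⟩
  · intro ρ h
    apply Submodule.subset_span
    exact ⟨[], by simp, by simpa using h, by simp⟩
  · intro ρ σ a b hρ hσ ha hb
    unfold U at ha hb ⊢
    have h := Submodule.mul_mem_mul ha hb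
    rw [Submodule.span_mul_span] at h
    refine Submodule.span_mono ?_ h
    rintro x ⟨x₁, ⟨L₁, h1, h2, rfl⟩, x₂, ⟨L₂, h3, h4, rfl⟩, rfl⟩
    refine ⟨L₁ ++ L₂, ?_, ?_, ?_⟩
    · intro p hp
      rcases List.mem_append.1 hp with hp | hp
      · exact h1 p hp
      · exact h3 p hp
    · rw [List.map_append, List.prod_append]
      refine mul_le_mul h2 h4 ?_ hρ.le
      apply List.prod_nonneg
      intro c hc
      obtain ⟨p, hp, rfl⟩ := List.mem_map.1 hc
      exact (h3 p hp).1.le
    · rw [List.map_append, List.prod_append]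
  · intro ρ g hρ hg hH
    apply Submodule.subset_span
    refine ⟨[(g, ρ)], ?_, ?_, ?_⟩
    · intro p hp
      rw [List.mem_singleton] at hp
      subst hp
      exact ⟨hρ, hg, hH⟩
    · simp
    · simp

end Pool.Agent.Lib.MP166ce5.FR
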