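import Pool.Agent.Lib.MP_166ce5_al.FR.Spec
import Pool.Agent.Lib.MP_166ce5_al.FR.JAD

/-!
# One step in the group algebra (JEA)
-/

set_option autoImplicit false

namespace Pool.Agent.Lib.MP166ce5.FR

open FreeGroup

namespace JEAM

open JADM

variable {F : Type} [Group F] (K : Subgroup F) [K.Normal]

/-- The difference `t - 1`. -/
noncomputable def TT (t : F) : MonoidAlgebra (ZMod 2) (F ⧸ K) := br K t - 1

/-- The right hand side of the claim. -/
noncomputable def W (G : ℝ → Subgroup F) (K' : Subgroup F) (t : F) (c ρ : ℝ) :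
    Submodule (ZMod 2) (MonoidAlgebra (ZMod 2) (F ⧸ K)) :=
  U K G K' ρ ⊔ (U K G K' (ρ / c)).map (LinearMap.mulRight (ZMod 2) (TT K t))

theorem mem_W {G : ℝ → Subgroup F} {K' : Subgroup F} {t : F} {c ρ : ℝ}
    {x : MonoidAlgebra (ZMod 2) (F ⧸ K)} :
    x ∈ W K G K' t c ρ ↔ ∃ a ∈ U K G K' ρ, ∃ b ∈ U K G K' (ρ / c), a + b * TT K t = x := by
  unfold W
  rw [Submodule.mem_sup]
  constructor
  · rintro ⟨a, ha, y, hy, rfl⟩
    obtain ⟨b, hb, rfl⟩ := Submodule.mem_map.1 hy
    exact ⟨a, ha, b, hb, rfl⟩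
  · rintro ⟨a, ha, b, hb, rfl⟩
    exact ⟨a, ha, b * TT K t, Submodule.mem_map.2 ⟨b, hb, rfl⟩, rfl⟩

theorem two_eq (x : MonoidAlgebra (ZMod 2) (F ⧸ K)) : x + x = 0 := by
  rw [← two_smul (ZMod 2) x, show (2 : ZMod 2) = 0 from rfl, zero_smul]

theorem TT_sq (t : F) : TT K t * TT K t = br K (t * t) - 1 := by
  have h := two_eq K (br K t)
  unfold TT
  rw [br_mul]
  have e : (br K t - 1) * (br K t - 1) = br K t * br K t - (br K t + br K t) + 1 := by
    noncomm_ring
  rw [e, h, sub_zero]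
  have h1 := two_eq K (1 : MonoidAlgebra (ZMod 2) (F ⧸ K))
  have h2 : (1 : MonoidAlgebra (ZMod 2) (F ⧸ K)) = -1 := eq_neg_of_add_eq_zero_left h1
  rw [sub_eq_add_neg, ← h2]

theorem TT_mul (t : F) (a : MonoidAlgebra (ZMod 2) (F ⧸ K)) :
    TT K t * a = a * TT K t + Df K t a + Df K t a * TT K t := by
  have h : br K t * a = (a + Df K t a) * br K t := by
    unfold Df
    calc br K t * a = br K t * a * (br K t⁻¹ * br K t) := by rw [br_inv, mul_one]
      _ = (a + (br K t * a * br K t⁻¹ - a)) * br K t := by noncomm_ring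
  unfold TT
  rw [sub_mul, one_mul, h]
  noncomm_ring

end JEAM

open JADM JEAM in
theorem specJEA (hJAU : SpecJAU) (hJAD : SpecJAD) : SpecJEA := by
  intro F _ G hG K K' H _ _hK hK'H t c htH htK' h2 hc hc1 htc hlt ρ hρ
  obtain ⟨hmono, hone, hmul, hgen⟩ := hJAU F G K K'
  change U K G H ρ ≤ W K G K' t c ρ
  -- `t` normalises `K'`
  have htt : t * t ∈ K' := by
    rcases h2 (t * t) (H.mul_mem htH htH) with h | h
    · exact h
    · rw [mul_inv_cancel_right] at h
      exact absurd h htK'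
  have hnor : ∀ g ∈ K', t * g * t⁻¹ ∈ K' := by
    intro g hg
    rcases h2 (t * g * t⁻¹) (H.mul_mem (H.mul_mem htH (hK'H hg)) (H.inv_mem htH)) with h | h
    · exact h
    · exfalso
      apply htK'
      have h3 : t * g * t⁻¹ * t⁻¹ * (t * t) * g⁻¹ ∈ K' :=
        K'.mul_mem (K'.mul_mem h htt) (K'.inv_mem hg)
      have h4 : t * g * t⁻¹ * t⁻¹ * (t * t) * g⁻¹ = t := by group
      rwa [h4] at h3
  have hD : ∀ σ, 0 < σ → ∀ a ∈ U K G K' σ, Df K t a ∈ U K G K' (c * σ) := by
    intro σ hσ a ha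
    exact hJAD F G hG K K' t c hc hc1 htc hnor σ hσ a ha
  have hT2 : TT K t * TT K t ∈ U K G K' (c * c) := by
    rw [TT_sq]
    exact hgen (c * c) (t * t) (mul_pos hc hc) (hG.sq c t hc htc) htt
  have hle : ∀ σ : ℝ, 0 < σ → σ ≤ σ / c := by
    intro σ hσ
    rw [le_div_iff₀ hc]
    nlinarith
  -- generators
  have hgW : ∀ σ g, 0 < σ → g ∈ G σ → g ∈ H → br K g - 1 ∈ W K G K' t c σ := by
    intro σ g hσ hgσ hgH
    rw [mem_W]
    by_cases hgK : g ∈ K'
    · exact ⟨br K g - 1, hgen σ g hσ hgσ hgK, 0, Submodule.zero_mem _, by rw [zero_mul, add_zero]⟩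
    · have hk : g * t⁻¹ ∈ K' := (h2 g hgH).resolve_left hgK
      have hcσ : c ≤ σ := by
        by_contra hh
        exact hgK (hlt σ hσ (not_le.1 hh) g hgH hgσ)
      have hkG : g * t⁻¹ ∈ G σ := (G σ).mul_mem hgσ ((G σ).inv_mem (hG.mono c σ hc hcσ htc))
      have h5 : br K (g * t⁻¹) - 1 ∈ U K G K' σ := hgen σ _ hσ hkG hk
      refine ⟨br K (g * t⁻¹) - 1, h5, (br K (g * t⁻¹) - 1) + 1, ?_, ?_⟩
      · exact Submodule.add_mem _ (hmono _ _ (hle σ hσ) h5)
          (hone _ (by rw [le_div_iff₀ hc]; linarith))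
      · have h6 : br K g = br K (g * t⁻¹) * br K t := by
          rw [← br_mul, inv_mul_cancel_right]
        rw [h6, TT]
        noncomm_ring
  -- products
  have hmW : ∀ σ τ x y, 0 < σ → 0 < τ → x ∈ W K G K' t c σ → y ∈ W K G K' t c τ →
      x * y ∈ W K G K' t c (σ * τ) := by
    intro σ τ x y hσ hτ hx hy
    rw [mem_W] at hx hy ⊢
    obtain ⟨a, ha, b, hb, rfl⟩ := hx
    obtain ⟨a', ha', b', hb', rfl⟩ := hy
    have hσc : 0 < σ / c := div_pos hσ hc
    have hτc : 0 < τ / c := div_pos hτ hc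
    have hDa := hD τ hτ a' ha'
    have hDb := hD (τ / c) hτc b' hb'
    have e1 : σ / c * (c * τ) = σ * τ := by field_simp
    have e2 : c * (τ / c) = τ := by field_simp
    rw [e2] at hDb
    have m1 : a * a' ∈ U K G K' (σ * τ) := hmul _ _ _ _ hσ hτ ha ha'
    have m2 : b * Df K t a' ∈ U K G K' (σ * τ) := by
      rw [← e1]
      exact hmul _ _ _ _ hσc (mul_pos hc hτ) hb hDa
    have m3 : b * b' * (TT K t * TT K t) ∈ U K G K' (σ * τ) := by
      have := hmul _ _ _ _ (mul_pos hσc hτc) (mul_pos hc hc) (hmul _ _ _ _ hσc hτc hb hb') hT2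
      have e3 : σ / c * (τ / c) * (c * c) = σ * τ := by field_simp
      rwa [e3] at this
    have m4 : b * Df K t b' * (TT K t * TT K t) ∈ U K G K' (σ * τ) := by
      have := hmul _ _ _ _ (mul_pos hσc hτ) (mul_pos hc hc) (hmul _ _ _ _ hσc hτ hb hDb) hT2
      refine hmono _ _ ?_ this
      have e3 : σ / c * τ * (c * c) = σ * τ * c := by field_simp
      rw [e3]
      have := mul_pos hσ hτ
      nlinarith
    have n1 : a * b' ∈ U K G K' (σ * τ / c) := by
      have := hmul _ _ _ _ hσ hτc ha hb'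
      have e3 : σ * (τ / c) = σ * τ / c := by ring
      rwa [e3] at this
    have n2 : b * a' ∈ U K G K' (σ * τ / c) := by
      have := hmul _ _ _ _ hσc hτ hb ha'
      have e3 : σ / c * τ = σ * τ / c := by ring
      rwa [e3] at this
    have n3 : b * Df K t a' ∈ U K G K' (σ * τ / c) := hmono _ _ (hle _ (mul_pos hσ hτ)) m2
    have n4 : b * Df K t b' ∈ U K G K' (σ * τ / c) := by
      have := hmul _ _ _ _ hσc hτ hb hDb
      have e3 : σ / c * τ = σ * τ / c := by ring
      rwa [e3] at this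
    refine ⟨a * a' + b * Df K t a' + b * b' * (TT K t * TT K t) +
      b * Df K t b' * (TT K t * TT K t), ?_, a * b' + b * a' + b * Df K t a' + b * Df K t b',
      ?_, ?_⟩
    · exact Submodule.add_mem _ (Submodule.add_mem _ (Submodule.add_mem _ m1 m2) m3) m4
    · exact Submodule.add_mem _ (Submodule.add_mem _ (Submodule.add_mem _ n1 n2) n3) n4
    · have t1 := TT_mul K t a'
      have t2 := TT_mul K t b'
      have e4 : (a + b * TT K t) * (a' + b' * TT K t) =
          a * a' + a * b' * TT K t + b * (TT K t * a') + b * (TT K t * b') * TT K t := by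
        noncomm_ring
      rw [e4, t1, t2]
      noncomm_ring
  have hWmono : ∀ σ τ, σ ≤ τ → W K G K' t c σ ≤ W K G K' t c τ := by
    intro σ τ h
    unfold W
    exact sup_le_sup (hmono _ _ h) (Submodule.map_mono (hmono _ _ (by gcongr)))
  have key : ∀ L : List (F × ℝ), (∀ p ∈ L, 0 < p.2 ∧ p.1 ∈ G p.2 ∧ p.1 ∈ H) →
      (L.map fun p => (br K p.1 - 1)).prod ∈ W K G K' t c (L.map Prod.snd).prod := by
    intro L
    induction L with
    | nil =>
      intro _
      simp only [List.map_nil, List.prod_nil]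
      rw [mem_W]
      exact ⟨1, hone 1 le_rfl, 0, Submodule.zero_mem _, by rw [zero_mul, add_zero]⟩
    | cons p L ih =>
      intro hL
      have hp := hL p (by simp)
      have hL' : ∀ q ∈ L, 0 < q.2 ∧ q.1 ∈ G q.2 ∧ q.1 ∈ H := fun q hq => hL q (by simp [hq])
      have hπ : 0 < (L.map Prod.snd).prod := prod_pos L fun q hq => (hL' q hq).1
      rw [List.map_cons, List.prod_cons, List.map_cons, List.prod_cons]
      exact hmW _ _ _ _ hp.1 hπ (hgW _ _ hp.1 hp.2.1 hp.2.2) (ih hL')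
  unfold U
  rw [Submodule.span_le]
  rintro x ⟨L, hL, hLρ, rfl⟩
  exact hWmono _ _ hLρ (key L hL)

end Pool.Agent.Lib.MP166ce5.FR
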