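import Pool.Agent.Lib.MP_166ce5_al.FR.Spec

/-!
# Module JEB: dimensions
-/

set_option autoImplicit false

namespace Pool.Agent.Lib.MP166ce5.FR

namespace JEBM

lemma sub_pos : ∀ (l : List ℝ), (∀ c ∈ l, 0 < c) → ∀ x ∈ sub l, 0 < x
  | [], _, x, hx => by
    have : x = 1 := by simpa [sub] using hx
    rw [this]
    exact one_pos
  | c :: l, h, x, hx => by
    have ih := sub_pos l fun y hy => h y (List.mem_cons_of_mem _ hy)
    have hc : 0 < c := h c List.mem_cons_self
    rw [sub, List.mem_append, List.mem_map] at hx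
    rcases hx with hx | ⟨y, hy, rfl⟩
    · exact ih x hx
    · exact mul_pos hc (ih y hy)

section
variable {F : Type} [Group F] (G : ℝ → Subgroup F) (K : Subgroup F) [K.Normal]

/-- the step -/
lemma finrank_step [Module.Finite (ZMod 2) (MonoidAlgebra (ZMod 2) (F ⧸ K))]
    {A B C : Submodule (ZMod 2) (MonoidAlgebra (ZMod 2) (F ⧸ K))}
    (f : MonoidAlgebra (ZMod 2) (F ⧸ K) →ₗ[ZMod 2] MonoidAlgebra (ZMod 2) (F ⧸ K))
    (h : A ≤ B ⊔ C.map f) :
    Module.finrank (ZMod 2) A ≤ Module.finrank (ZMod 2) B + Module.finrank (ZMod 2) C := by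
  have h1 := Submodule.finrank_mono h
  have h2 := Submodule.finrank_add_le_finrank_add_finrank B (C.map f)
  have h3 := Submodule.finrank_map_le f C
  omega

/-- the chain -/
lemma chain_bound [Module.Finite (ZMod 2) (MonoidAlgebra (ZMod 2) (F ⧸ K))] (hG : IsNSer G)
    (hJEA : SpecJEA) {K' : Subgroup F} {l : List (F × ℝ)} (hc : Chain G K' l) :
    K ≤ K' → (∀ c ∈ l.map Prod.snd, 0 < c) → ∀ ρ, 0 < ρ →
    Module.finrank (ZMod 2) (U K G ⊤ ρ) ≤
      ((sub (l.map Prod.snd)).map fun x => Module.finrank (ZMod 2) (U K G K' (ρ / x))).sum := by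
  induction hc with
  | nil =>
    intro _ _ ρ _
    rw [List.map_nil, sub, List.map_cons, List.map_nil, List.sum_cons, List.sum_nil, div_one,
      add_zero]
  | @cons K₁ K₂ l t c hl hK ht ht' h2 hc hc1 htc hlt ih =>
    intro hKK hpos ρ hρ
    have hpos' : ∀ c ∈ l.map Prod.snd, 0 < c := fun y hy => hpos y (by
      rw [List.map_cons]
      exact List.mem_cons_of_mem _ hy)
    have h1 := ih (hKK.trans hK) hpos' ρ hρ
    refine h1.trans ?_
    rw [List.map_cons, sub, List.map_append, List.sum_append, List.map_map,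
      ← List.sum_map_add]
    apply List.sum_le_sum
    intro x hx
    have hx0 := sub_pos _ hpos' x hx
    have hle := hJEA F G hG K K₂ K₁ hKK hK t c ht ht' h2 hc hc1 htc hlt (ρ / x) (by positivity)
    have h3 := finrank_step K _ hle
    have h4 : ρ / x / c = ρ / (c * x) := by
      rw [div_div, mul_comm]
    rw [h4] at h3
    exact h3

/-- the bottom of the chain -/
lemma bottom (ρ : ℝ) [Module.Finite (ZMod 2) (MonoidAlgebra (ZMod 2) (F ⧸ K))] :
    Module.finrank (ZMod 2) (U K G K ρ) ≤ if 1 ≤ ρ then 1 else 0 := by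
  have hle : U K G K ρ ≤ Submodule.span (ZMod 2)
      (if 1 ≤ ρ then {(1 : MonoidAlgebra (ZMod 2) (F ⧸ K))} else ∅) := by
    refine Submodule.span_le.mpr ?_
    rintro x ⟨L, hL, hp, rfl⟩
    rcases L with _ | ⟨p, L⟩
    · have h1 : (1 : ℝ) ≤ ρ := by simpa using hp
      rw [if_pos h1]
      exact Submodule.subset_span (by simp)
    · have h1 : ((p.1 : F) : F ⧸ K) = 1 :=
        (QuotientGroup.eq_one_iff p.1).mpr (hL p List.mem_cons_self).2.2
      rw [List.map_cons, List.prod_cons, h1, map_one, sub_self, zero_mul]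
      exact Submodule.zero_mem _
  refine (Submodule.finrank_mono hle).trans ?_
  by_cases h : 1 ≤ ρ
  · rw [if_pos h, if_pos h]
    refine (finrank_span_le_card _).trans ?_
    simp
  · rw [if_neg h, if_neg h, Submodule.span_empty, finrank_bot]

lemma sum_if (l : List ℝ) (ρ : ℝ) (hl : ∀ x ∈ l, 0 < x) :
    (l.map fun x => if 1 ≤ ρ / x then 1 else 0).sum = l.countP (fun x => x ≤ ρ) := by
  induction l with
  | nil => simp
  | cons a l ih =>
    have ha : 0 < a := hl a List.mem_cons_self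
    rw [List.map_cons, List.sum_cons, List.countP_cons,
      ih fun x hx => hl x (List.mem_cons_of_mem _ hx), add_comm]
    congr 1
    by_cases h : a ≤ ρ
    · rw [if_pos ((one_le_div ha).mpr h), if_pos (by simpa using h)]
    · rw [if_neg (fun h' => h ((one_le_div ha).mp h')), if_neg (by simpa using h)]

end

end JEBM

open JEBM in
theorem specJEB (hJEA : SpecJEA) (hCFI : SpecCFI) : SpecJEB := by
  intro F _ G hG K _ l hl
  obtain ⟨hfi, hidx, hw⟩ := hCFI F G K l hl
  have hcard : Nat.card (F ⧸ K) = 2 ^ l.length := hidx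
  refine ⟨hfi, hcard, fun ρ hρ => ?_⟩
  have : Finite (F ⧸ K) := Subgroup.finite_quotient_of_finiteIndex
  have hfin : Module.Finite (ZMod 2) (MonoidAlgebra (ZMod 2) (F ⧸ K)) :=
    Module.Finite.equiv (MonoidAlgebra.coeffLinearEquiv (ZMod 2)).symm
  have hpos : ∀ c ∈ l.map Prod.snd, 0 < c := by
    intro c hc
    obtain ⟨p, hp, rfl⟩ := List.mem_map.mp hc
    exact (hw p hp).1
  refine (chain_bound G K hG hJEA hl le_rfl hpos ρ hρ).trans ?_
  rw [← sum_if _ ρ (sub_pos _ hpos)]
  apply List.sum_le_sum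
  intro x _
  exact bottom G K (ρ / x)

end Pool.Agent.Lib.MP166ce5.FR
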