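import Pool.Agent.Lib.MP_166ce5_al.FR.Spec

/-!
# Module JEC: many elements in the balls
-/

set_option autoImplicit false

namespace Pool.Agent.Lib.MP166ce5.FR

open FreeGroup

namespace JECM

lemma length_sub (l : List ℝ) : (sub l).length = 2 ^ l.length := by
  induction l with
  | nil => simp [sub]
  | cons c l ih => simp [sub, ih, pow_succ]; ring

lemma countP_add (l : List ℝ) (r : ℝ) :
    l.countP (fun x => r < x) + l.countP (fun x => x ≤ r) = l.length := by
  induction l with
  | nil => simp
  | cons a l ih =>
    rw [List.countP_cons, List.countP_cons, List.length_cons]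
    by_cases h : a ≤ r
    · have h' : ¬ r < a := not_lt.2 h
      simp only [h, h', decide_true, decide_false, if_true, Bool.false_eq_true, if_false]
      omega
    · have h' : r < a := not_le.1 h
      simp only [h, h', decide_true, decide_false, if_true, Bool.false_eq_true, if_false]
      omega

lemma len_mono {ι : Type} {m n : ℕ} (h : m ≤ n) : Len (ι := ι) m ⊆ Len n := by
  rintro g ⟨L, hL, rfl⟩
  exact ⟨L, hL.trans h, rfl⟩

lemma len_mul {ι : Type} {n : ℕ} (i : ι) {g : FreeGroup ι} (hg : g ∈ Len n) :
    FreeGroup.of i * g ∈ Len (n + 1) := by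
  obtain ⟨L, hL, rfl⟩ := hg
  refine ⟨(i, true) :: L, by simpa using hL, ?_⟩
  show FreeGroup.mk ([(i, true)] ++ L) = FreeGroup.mk [(i, true)] * FreeGroup.mk L
  rw [FreeGroup.mul_mk]

section
variable {d : ℕ} (K : Subgroup (FreeGroup (Fin d))) [K.Normal]

/-- the group algebra -/
abbrev V := MonoidAlgebra (ZMod 2) (FreeGroup (Fin d) ⧸ K)

/-- the image of an element -/
noncomputable abbrev b (g : FreeGroup (Fin d)) : V K :=
  MonoidAlgebra.of (ZMod 2) (FreeGroup (Fin d) ⧸ K) (g : FreeGroup (Fin d) ⧸ K)

lemma b_mul (g h : FreeGroup (Fin d)) : b K (g * h) = b K g * b K h := by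
  show MonoidAlgebra.of _ _ ((g : FreeGroup (Fin d) ⧸ K) * (h : FreeGroup (Fin d) ⧸ K)) = _
  rw [_root_.map_mul]

lemma b_one : b K 1 = 1 := by
  show MonoidAlgebra.of _ _ (1 : FreeGroup (Fin d) ⧸ K) = _
  rw [_root_.map_one]

/-- product of the factors -/
noncomputable abbrev P (L : List (Fin d)) : V K := (L.map fun i => (b K (of i) - 1 : V K)).prod

lemma P_mem_span (L : List (Fin d)) :
    P K L ∈ Submodule.span (ZMod 2) (b K '' Len L.length) := by
  induction L with
  | nil =>
    apply Submodule.subset_span
    exact ⟨1, ⟨[], by simp, rfl⟩, by rw [b_one]; simp [P]⟩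
  | cons i L ih =>
    have e : P K (i :: L) = b K (of i) * P K L - P K L := by
      simp only [P, List.map_cons, List.prod_cons]
      rw [sub_mul, one_mul]
    rw [e]
    refine sub_mem ?_ ?_
    · have h : ∀ x ∈ Submodule.span (ZMod 2) (b K '' Len L.length),
          b K (of i) * x ∈ Submodule.span (ZMod 2) (b K '' Len (i :: L).length) := by
        intro x hx
        induction hx using Submodule.span_induction with
        | mem x hx =>
          obtain ⟨g, hg, rfl⟩ := hx
          apply Submodule.subset_span
          refine ⟨of i * g, ?_, b_mul K _ _⟩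
          exact len_mul i hg
        | zero => rw [mul_zero]; exact zero_mem _
        | add x y _ _ hx hy => rw [mul_add]; exact add_mem hx hy
        | smul c x _ hx => rw [mul_smul_comm]; exact Submodule.smul_mem _ _ hx
      exact h _ ih
    · refine Submodule.span_mono (Set.image_mono (len_mono ?_)) ih
      simp

lemma span_P [Finite (FreeGroup (Fin d) ⧸ K)] :
    Submodule.span (ZMod 2) (Set.range (P K)) = ⊤ := by
  set Q := Submodule.span (ZMod 2) (Set.range (P K)) with hQ
  have hof : ∀ i : Fin d, ∀ x ∈ Q, b K (of i) * x ∈ Q := by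
    intro i x hx
    induction hx using Submodule.span_induction with
    | mem x hx =>
      obtain ⟨L, rfl⟩ := hx
      have e : b K (of i) * P K L = P K (i :: L) + P K L := by
        simp only [P, List.map_cons, List.prod_cons]
        rw [sub_mul, one_mul, sub_add_cancel]
      rw [e]
      exact add_mem (Submodule.subset_span ⟨_, rfl⟩) (Submodule.subset_span ⟨_, rfl⟩)
    | zero => rw [mul_zero]; exact zero_mem _
    | add x y _ _ hx hy => rw [mul_add]; exact add_mem hx hy
    | smul c x _ hx => rw [mul_smul_comm]; exact Submodule.smul_mem _ _ hx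
  have hpow : ∀ i : Fin d, ∀ n : ℕ, ∀ x ∈ Q, b K (of i ^ n) * x ∈ Q := by
    intro i n
    induction n with
    | zero => intro x hx; rw [pow_zero, b_one, one_mul]; exact hx
    | succ n ih =>
      intro x hx
      rw [pow_succ', b_mul, mul_assoc]
      exact hof i _ (ih x hx)
  have hg : ∀ g : FreeGroup (Fin d), ∀ x ∈ Q, b K g * x ∈ Q := by
    intro g
    induction g using FreeGroup.induction_on with
    | C1 => intro x hx; rw [b_one, one_mul]; exact hx
    | of i => exact hof i
    | inv_of i _ =>
      intro x hx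
      have h1 : IsOfFinOrder ((of i : FreeGroup (Fin d)) : FreeGroup (Fin d) ⧸ K) :=
        isOfFinOrder_of_finite _
      have h2 : b K ((of i)⁻¹) = b K (of i ^
          (orderOf ((of i : FreeGroup (Fin d)) : FreeGroup (Fin d) ⧸ K) - 1)) := by
        show MonoidAlgebra.of _ _ _ = MonoidAlgebra.of _ _ _
        congr 1
        have h3 := h1.orderOf_pos
        rw [QuotientGroup.mk_inv, QuotientGroup.mk_pow]
        rw [inv_eq_iff_mul_eq_one, ← pow_succ', Nat.sub_add_cancel h3, pow_orderOf_eq_one]
      show b K ((of i)⁻¹) * x ∈ Q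
      rw [h2]
      exact hpow i _ x hx
    | mul g h ihg ihh =>
      intro x hx
      rw [b_mul, mul_assoc]
      exact ihg _ (ihh x hx)
  have h1 : (1 : V K) ∈ Q := Submodule.subset_span ⟨[], by simp [P]⟩
  rw [eq_top_iff]
  rintro x -
  induction x using MonoidAlgebra.induction_on with
  | of g =>
    obtain ⟨g, rfl⟩ := QuotientGroup.mk_surjective g
    have := hg g 1 h1
    rwa [mul_one] at this
  | add x y hx hy => exact add_mem hx hy
  | smul r x hx => exact Submodule.smul_mem _ _ hx

end

end JECM

open JECM in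
theorem specJEC (hJEB : SpecJEB) : SpecJEC := by
  intro d s hs hs1 S hN hof n
  have : S.K.Normal := hN
  obtain ⟨hfi, hcard, hU⟩ := hJEB (FreeGroup (Fin d)) S.G S.ser S.K S.l S.chain
  have : Finite (FreeGroup (Fin d) ⧸ S.K) := inferInstance
  have : Fintype (FreeGroup (Fin d) ⧸ S.K) := Fintype.ofFinite _
  set l := sub (S.l.map Prod.snd) with hl
  have hlen : l.length = 2 ^ S.l.length := by rw [hl, length_sub, List.length_map]
  have hc := countP_add l (s ^ (n + 1))
  have hU1 := hU (s ^ (n + 1)) (by positivity)
  have hspan : Submodule.span (ZMod 2) (b S.K '' Len n) ⊔ U S.K S.G ⊤ (s ^ (n + 1)) = ⊤ := by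
    rw [eq_top_iff, ← span_P S.K, Submodule.span_le]
    rintro x ⟨L, rfl⟩
    by_cases h : L.length ≤ n
    · exact Submodule.mem_sup_left
        (Submodule.span_mono (Set.image_mono (len_mono h)) (P_mem_span S.K L))
    · apply Submodule.mem_sup_right
      apply Submodule.subset_span
      refine ⟨L.map fun i => (of i, s), ?_, ?_, ?_⟩
      · intro p hp
        rw [List.mem_map] at hp
        obtain ⟨i, -, rfl⟩ := hp
        exact ⟨hs, hof i, Subgroup.mem_top _⟩
      · rw [List.map_map]
        have : (Prod.snd ∘ fun i : Fin d => ((of i : FreeGroup (Fin d)), s)) = fun _ => s := rfl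
        rw [this, List.map_const', List.prod_replicate]
        exact pow_le_pow_of_le_one hs.le hs1.le (by omega)
      · simp only [P, List.map_map]
        rfl
  have hfin : Module.Finite (ZMod 2) (MonoidAlgebra (ZMod 2) (FreeGroup (Fin d) ⧸ S.K)) :=
    Module.Finite.equiv (MonoidAlgebra.coeffLinearEquiv (ZMod 2)).symm
  have hdim : Module.finrank (ZMod 2) (MonoidAlgebra (ZMod 2) (FreeGroup (Fin d) ⧸ S.K)) =
      2 ^ S.l.length := by
    rw [← hcard, Nat.card_eq_fintype_card,
      LinearEquiv.finrank_eq (MonoidAlgebra.coeffLinearEquiv (ZMod 2)),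
      Module.finrank_finsupp_self]
  have h1 : Module.finrank (ZMod 2) (⊤ : Submodule (ZMod 2)
      (MonoidAlgebra (ZMod 2) (FreeGroup (Fin d) ⧸ S.K))) ≤
      Module.finrank (ZMod 2) (Submodule.span (ZMod 2) (b S.K '' Len n)) +
        Module.finrank (ZMod 2) (U S.K S.G ⊤ (s ^ (n + 1))) := by
    rw [← hspan]
    exact Submodule.finrank_add_le_finrank_add_finrank _ _
  rw [finrank_top, hdim] at h1
  have h2 : Module.finrank (ZMod 2) (Submodule.span (ZMod 2) (b S.K '' Len n)) ≤
      ((QuotientGroup.mk : FreeGroup (Fin d) → FreeGroup (Fin d) ⧸ S.K) '' Len n).ncard := by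
    have hf : (b S.K '' Len n) = (MonoidAlgebra.of (ZMod 2) (FreeGroup (Fin d) ⧸ S.K)) ''
        ((QuotientGroup.mk : FreeGroup (Fin d) → FreeGroup (Fin d) ⧸ S.K) '' Len n) := by
      rw [Set.image_image]
    have hfinite : (b S.K '' Len n).Finite := by
      rw [hf]
      exact (Set.toFinite _).image _
    have : Fintype (b S.K '' Len n) := hfinite.fintype
    refine (finrank_span_le_card _).trans ?_
    rw [← Set.ncard_eq_toFinset_card', hf]
    exact Set.ncard_image_le (Set.toFinite _)
  omega

end Pool.Agent.Lib.MP166ce5.FR
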