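import Pool.Agent.Lib.MP_166ce5_al.FR.Spec

/-!
# Module LEV (MP_166ce5_al): one level (helper92)
-/

set_option autoImplicit false

namespace Pool.Agent.Lib.MP166ce5.FR

open FreeGroup (of)

namespace LEVM

section Vec

variable {ι : Type}

/-- the vector of the parities -/
def vec [DecidableEq ι] (u : FreeGroup ι) : ι → ZMod 2 := fun i => Multiplicative.toAdd (par i u)

variable [DecidableEq ι]

lemma vec_apply (u : FreeGroup ι) (i : ι) : vec u i = Multiplicative.toAdd (par i u) := rfl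

lemma vec_eq_zero (u : FreeGroup ι) (i : ι) : vec u i = 0 ↔ par i u = 1 := by
  rw [vec_apply]
  exact Iff.rfl

lemma vec_one : vec (1 : FreeGroup ι) = 0 := by
  funext i
  rw [vec_apply, map_one]
  rfl

lemma vec_mul (u v : FreeGroup ι) : vec (u * v) = vec u + vec v := by
  funext i
  rw [vec_apply, map_mul]
  rfl

lemma vec_inv (u : FreeGroup ι) : vec u⁻¹ = -vec u := by
  funext i
  rw [vec_apply, map_inv]
  rfl

lemma vec_of (j : ι) : vec (of j) = Pi.single j (1 : ZMod 2) := by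
  funext i
  rw [vec_apply, par, FreeGroup.lift_apply_of]
  by_cases h : j = i
  · subst h
    rw [if_pos rfl, Pi.single_eq_same]
    rfl
  · rw [if_neg h, Pi.single_eq_of_ne (fun h' => h h'.symm)]
    rfl

lemma zmod2 (a : ZMod 2) : a = 0 ∨ a = 1 := by
  revert a
  decide

lemma vec_list (l : List ι) (g : ι → FreeGroup ι) :
    vec ((l.map g).prod) = (l.map fun i => vec (g i)).sum := by
  induction l with
  | nil => simpa using vec_one
  | cons a l ih =>
    rw [List.map_cons, List.prod_cons, vec_mul, ih, List.map_cons, List.sum_cons]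

lemma exists_vec [Fintype ι] (v : ι → ZMod 2) :
    ∃ u ∈ Subgroup.closure {u : FreeGroup ι | ∃ z, v z ≠ 0 ∧ u = of z}, vec u = v := by
  refine ⟨((Finset.univ : Finset ι).toList.map fun z => if v z = 0 then 1 else of z).prod,
    ?_, ?_⟩
  · apply Subgroup.list_prod_mem
    intro x hx
    rw [List.mem_map] at hx
    obtain ⟨z, -, rfl⟩ := hx
    split_ifs with h
    · exact Subgroup.one_mem _
    · exact Subgroup.subset_closure ⟨z, h, rfl⟩
  · rw [vec_list, Finset.sum_map_toList]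
    have e : ∀ z, vec (if v z = 0 then (1 : FreeGroup ι) else of z) =
        Pi.single z (v z) := by
      intro z
      rcases zmod2 (v z) with h | h
      · rw [if_pos h, vec_one, h, Pi.single_zero]
      · rw [if_neg (by rw [h]; decide), vec_of, h]
    rw [Finset.sum_congr rfl (fun z _ => e z)]
    exact Finset.univ_sum_single v

lemma vec_sum [Fintype ι] (v : ι → ZMod 2) :
    v = ∑ j, v j • (Pi.single j (1 : ZMod 2) : ι → ZMod 2) := by
  conv_lhs => rw [← Finset.univ_sum_single v]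
  refine Finset.sum_congr rfl fun j _ => ?_
  rw [← Pi.single_smul', smul_eq_mul, mul_one]

/-- the vector of the image of a word under a homomorphism -/
lemma vec_hom {κ : Type} [Fintype κ] [DecidableEq κ] (β : FreeGroup κ →* FreeGroup ι)
    (u : FreeGroup κ) : vec (β u) = ∑ j, vec u j • vec (β (of j)) := by
  induction u using FreeGroup.induction_on with
  | C1 =>
    rw [map_one, vec_one, vec_one]
    simp
  | of j₀ =>
    rw [vec_of]
    rw [Finset.sum_eq_single j₀]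
    · rw [Pi.single_eq_same, one_smul]
    · intro j _ hj
      rw [Pi.single_eq_of_ne hj, zero_smul]
    · intro h
      exact absurd (Finset.mem_univ _) h
  | inv_of j₀ ih =>
    rw [map_inv, vec_inv, ih, vec_inv, ← Finset.sum_neg_distrib]
    refine Finset.sum_congr rfl fun j _ => ?_
    rw [Pi.neg_apply, neg_smul]
  | mul a b ha hb =>
    rw [map_mul, vec_mul, ha, hb, vec_mul, ← Finset.sum_add_distrib]
    refine Finset.sum_congr rfl fun j _ => ?_
    rw [Pi.add_apply, add_smul]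

end Vec

section State

variable {F : Type} [Group F]

lemma rel_list (hEXP : SpecEXP) (S : St F) (hK : S.K.Normal) (R : List (F × ℝ)) (hR : Rel S R) :
    ∃ E : List (F × ℝ), Rel S E ∧ wsum E = wsum R * S.I ∧
      (∀ p ∈ E, p.1 ∈ Subgroup.normalClosure {r : F | ∃ q ∈ R, r = q.1}) ∧
      ∀ M : Subgroup F, (∀ k ∈ S.K, ∀ m ∈ M, k * m * k⁻¹ ∈ M) → (∀ p ∈ E, p.1 ∈ M) →
        ∀ q ∈ R, ∀ f : F, f * q.1 * f⁻¹ ∈ M := by
  induction R with
  | nil =>
    refine ⟨[], ?_, ?_, ?_, ?_⟩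
    · intro p hp
      exact absurd hp List.not_mem_nil
    · simp [wsum]
    · intro p hp
      exact absurd hp List.not_mem_nil
    · intro M _ _ q hq
      exact absurd hq List.not_mem_nil
  | cons q R ih =>
    obtain ⟨E, h1, h2, h3, h4⟩ := ih (fun p hp => hR p (List.mem_cons_of_mem _ hp))
    obtain ⟨g1, g2, g3⟩ := hR q List.mem_cons_self
    obtain ⟨E', k1, k2, k3, k4⟩ := hEXP F S hK q.1 q.2 g1 g2 g3
    refine ⟨E' ++ E, ?_, ?_, ?_, ?_⟩
    · intro p hp
      rcases List.mem_append.1 hp with hp | hp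
      · exact k1 p hp
      · exact h1 p hp
    · have e1 : wsum (E' ++ E) = wsum E' + wsum E := by simp [wsum]
      have e2 : wsum (q :: R) = q.2 + wsum R := by simp [wsum]
      rw [e1, e2, k2, h2]
      ring
    · intro p hp
      rcases List.mem_append.1 hp with hp | hp
      · refine Subgroup.normalClosure_mono ?_ (k3 p hp)
        rintro x rfl
        exact ⟨q, List.mem_cons_self, rfl⟩
      · refine Subgroup.normalClosure_mono ?_ (h3 p hp)
        rintro x ⟨r, hr, rfl⟩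
        exact ⟨r, List.mem_cons_of_mem _ hr, rfl⟩
    · intro M hM hE r hr f
      rcases List.mem_cons.1 hr with rfl | hr
      · exact k4 M hM (fun p hp => hE p (List.mem_append_left _ hp)) f
      · exact h4 M hM (fun p hp => hE p (List.mem_append_right _ hp)) r hr f

/-- the data after the change of the basis -/
structure Chg (S S₁ : St F) (f : S.ι ≃ S₁.ι) (Z : Finset S.ι) (p : S.ι → FreeGroup S.ι)
    (P : S.ι → (S.ι → ZMod 2)) : Prop where
  hp : ∀ i, i ∉ Z → vec (p i) = P i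
  hez : ∀ z ∈ Z, S₁.e (of (f z)) = S.e (of z)
  hei : ∀ i, i ∉ Z → S₁.e (of (f i)) = S.e (of i * p i)

lemma vec_change {S S₁ : St F} {f : S.ι ≃ S₁.ι} {Z : Finset S.ι} {p : S.ι → FreeGroup S.ι}
    {P : S.ι → (S.ι → ZMod 2)} (h : Chg S S₁ f Z p P) (u : FreeGroup S.ι)
    (u₁ : FreeGroup S₁.ι) (hu : S.e u = S₁.e u₁) :
    vec u = ∑ i ∈ Finset.univ.filter (fun i => i ∈ Z), vec u₁ (f i) •
        (Pi.single i (1 : ZMod 2) : S.ι → ZMod 2) +
      ∑ i ∈ Finset.univ.filter (fun i => ¬ i ∈ Z), vec u₁ (f i) •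
        ((Pi.single i (1 : ZMod 2) : S.ι → ZMod 2) + P i) := by
  let β : FreeGroup S₁.ι →* FreeGroup S.ι := FreeGroup.lift fun j =>
    if f.symm j ∈ Z then of (f.symm j) else of (f.symm j) * p (f.symm j)
  have hβ : ∀ i, β (of (f i)) = if i ∈ Z then of i else of i * p i := by
    intro i
    rw [FreeGroup.lift_apply_of, Equiv.symm_apply_apply]
  have hc : S.e.comp β = S₁.e := by
    apply FreeGroup.ext_hom
    intro j
    obtain ⟨i, rfl⟩ := f.surjective j
    rw [MonoidHom.comp_apply, hβ]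
    by_cases hi : i ∈ Z
    · rw [if_pos hi, h.hez i hi]
    · rw [if_neg hi, h.hei i hi]
  have hu' : u = β u₁ := by
    apply S.inj
    rw [hu, ← hc]
    rfl
  rw [hu', vec_hom β u₁, ← Equiv.sum_comp f]
  rw [← Finset.sum_filter_add_sum_filter_not Finset.univ (fun i => i ∈ Z)]
  congr 1
  · refine Finset.sum_congr rfl fun i hi => ?_
    rw [Finset.mem_filter] at hi
    rw [hβ, if_pos hi.2, vec_of]
  · refine Finset.sum_congr rfl fun i hi => ?_
    rw [Finset.mem_filter] at hi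
    rw [hβ, if_neg hi.2, vec_mul, vec_of, h.hp i hi.2]

lemma vec_zero {S S₁ : St F} {f : S.ι ≃ S₁.ι} {Z : Finset S.ι} {p : S.ι → FreeGroup S.ι}
    {P : S.ι → (S.ι → ZMod 2)} (h : Chg S S₁ f Z p P) (V : Submodule (ZMod 2) (S.ι → ZMod 2))
    (hV : ∀ i, i ∉ Z → Pi.single i 1 + P i ∈ V)
    (hV0 : ∀ v ∈ V, (∀ i, i ∉ Z → v i = 0) → v = 0)
    (u : FreeGroup S.ι) (huV : vec u ∈ V)
    (u₁ : FreeGroup S₁.ι) (hu : S.e u = S₁.e u₁) (z : S.ι) (hz : z ∈ Z) :
    vec u₁ (f z) = 0 := by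
  have h1 := vec_change h u u₁ hu
  have h2 : ∑ i ∈ Finset.univ.filter (fun i => ¬ i ∈ Z), vec u₁ (f i) •
        ((Pi.single i (1 : ZMod 2) : S.ι → ZMod 2) + P i) ∈ V := by
    refine Submodule.sum_mem _ fun i hi => Submodule.smul_mem _ _ ?_
    rw [Finset.mem_filter] at hi
    exact hV i hi.2
  have h3 : ∑ i ∈ Finset.univ.filter (fun i => i ∈ Z), vec u₁ (f i) •
        (Pi.single i (1 : ZMod 2) : S.ι → ZMod 2) ∈ V := by
    have h4 := Submodule.sub_mem _ huV h2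
    rwa [h1, add_sub_cancel_right] at h4
  have h5 : ∀ j, (∑ i ∈ Finset.univ.filter (fun i => i ∈ Z), vec u₁ (f i) •
        (Pi.single i (1 : ZMod 2) : S.ι → ZMod 2)) j = if j ∈ Z then vec u₁ (f j) else 0 := by
    intro j
    rw [Finset.sum_apply]
    by_cases hj : j ∈ Z
    · rw [if_pos hj, Finset.sum_eq_single j]
      · rw [Pi.smul_apply, Pi.single_eq_same, smul_eq_mul, mul_one]
      · intro i _ hi
        rw [Pi.smul_apply, Pi.single_eq_of_ne (fun h' => hi h'.symm), smul_zero]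
      · intro h'
        exact absurd (Finset.mem_filter.2 ⟨Finset.mem_univ _, hj⟩) h'
    · rw [if_neg hj]
      refine Finset.sum_eq_zero fun i hi => ?_
      rw [Finset.mem_filter] at hi
      have : j ≠ i := fun h' => hj (h' ▸ hi.2)
      rw [Pi.smul_apply, Pi.single_eq_of_ne this, smul_zero]
  have h6 := hV0 _ h3 (fun i hi => by rw [h5, if_neg hi])
  have h7 := h5 z
  rw [h6, if_pos hz] at h7
  exact h7.symm

/-- homomorphisms which kill all conjugates of the relators -/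
def Kills (K : Subgroup F) (R : List (F × ℝ)) (φ : K →* Multiplicative (ZMod 2)) : Prop :=
  ∀ (x : K) (q : F × ℝ) (f : F), q ∈ R → (x : F) = f * q.1 * f⁻¹ → φ x = 1

lemma kills_closure {K : Subgroup F} {R : List (F × ℝ)} {φ : K →* Multiplicative (ZMod 2)}
    (hK : K.Normal) (hRK : ∀ q ∈ R, q.1 ∈ K)
    (h : Kills K R φ) (x : K)
    (hx : (x : F) ∈ Subgroup.normalClosure {r : F | ∃ q ∈ R, r = q.1}) : φ x = 1 := by
  have h1 : Subgroup.normalClosure {r : F | ∃ q ∈ R, r = q.1} ≤ φ.ker.map K.subtype := by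
    unfold Subgroup.normalClosure
    rw [Subgroup.closure_le]
    intro y hy
    rw [Group.mem_conjugatesOfSet_iff] at hy
    obtain ⟨a, ⟨q, hq, rfl⟩, hc⟩ := hy
    rw [isConj_iff] at hc
    obtain ⟨c, hc⟩ := hc
    have hyK : y ∈ K := by
      rw [← hc]
      exact hK.conj_mem _ (hRK q hq) c
    exact ⟨⟨y, hyK⟩, h ⟨y, hyK⟩ q c hq hc.symm, rfl⟩
  obtain ⟨k, hk, hkx⟩ := h1 hx
  have : k = x := Subtype.ext hkx
  rw [← this]
  exact hk

lemma normal_of {K N : Subgroup F} (hK : K.Normal) (R : List (F × ℝ))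
    (h : ∀ g (hg : g ∈ K), g ∈ N ↔ ∀ φ : K →* Multiplicative (ZMod 2), Kills K R φ → φ ⟨g, hg⟩ = 1)
    (hN : N ≤ K) : N.Normal := by
  constructor
  intro g hg f
  have hgK := hN hg
  have hfK := hK.conj_mem g hgK f
  rw [h _ hfK]
  intro φ hφ
  have h1 := (h g hgK).1 hg (φ.comp (MulAut.conjNormal (H := K) f).toMonoidHom) ?_
  · have e : (MulAut.conjNormal (H := K) f) ⟨g, hgK⟩ = ⟨f * g * f⁻¹, hfK⟩ := by
      apply Subtype.ext
      rw [MulAut.conjNormal_apply]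
    rw [← e]
    exact h1
  · intro x q f' hq hx
    refine hφ _ q (f * f') hq ?_
    change (((MulAut.conjNormal (H := K) f) x : K) : F) = _
    rw [MulAut.conjNormal_apply, hx]
    group

lemma list_supp (hLIN : SpecLIN) (S : St F) (g : F) (σ : ℝ) (h0 : 0 < σ) (hg : g ∈ S.G σ)
    (u : FreeGroup S.ι) (hu : S.e u = g) (i : S.ι) (hi : vec u i ≠ 0) : S.w i ≤ σ := by
  by_contra hc
  rw [not_le] at hc
  apply hi
  rw [vec_eq_zero]
  have hW : Wt of S.w σ u := by
    rw [← S.mem σ h0, hu]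
    exact hg
  refine hLIN S.ι S.w S.w1 (par i) σ ?_ u hW
  intro j hj
  have hji : j ≠ i := by
    rintro rfl
    exact absurd hj (not_le.2 hc)
  rw [par, FreeGroup.lift_apply_of, if_neg hji]

lemma conj_par {κ : Type} [DecidableEq κ] (z : κ) (v u : FreeGroup κ) (h : par z u = 1) :
    par z (v * u * v⁻¹) = 1 := by
  rw [map_mul, map_mul, map_inv, h, mul_one, mul_inv_cancel]

/-- the subgroup after the iteration -/
def IsNew (S₁ S' : St F) {ι : Type} (f : ι → S₁.ι) (Z : Finset ι) : Prop :=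
  ∀ g, g ∈ S'.K ↔ ∃ u, (∀ z ∈ Z, vec u (f z) = 0) ∧ S₁.e u = g

lemma new_conj {S S₁ S' : St F} {f : S.ι → S₁.ι} {Z : Finset S.ι} (h : IsNew S₁ S' f Z)
    (hK : S₁.K = S.K) (k : F) (hk : k ∈ S.K) (m : F) (hm : m ∈ S'.K) : k * m * k⁻¹ ∈ S'.K := by
  rw [← hK] at hk
  obtain ⟨v, rfl⟩ := hk
  obtain ⟨u, hu, rfl⟩ := (h m).1 hm
  refine (h _).2 ⟨v * u * v⁻¹, fun z hz => ?_, by rw [map_mul, map_mul, map_inv]⟩
  rw [vec_eq_zero]
  exact conj_par _ _ _ ((vec_eq_zero _ _).1 (hu z hz))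

lemma sub_one_iff {S S₁ S' : St F} {f : S.ι ≃ S₁.ι} {Z : Finset S.ι} (h : IsNew S₁ S' f Z)
    (hK : S₁.K = S.K) (R : List (F × ℝ)) (hconj : ∀ q ∈ R, ∀ g : F, g * q.1 * g⁻¹ ∈ S'.K)
    (g : F) (hg : g ∈ S.K)
    (hφ : ∀ φ : S.K →* Multiplicative (ZMod 2), Kills S.K R φ → φ ⟨g, hg⟩ = 1) : g ∈ S'.K := by
  have hg' : g ∈ S₁.K := by
    rw [hK]
    exact hg
  obtain ⟨u₁, hu₁⟩ := hg'
  let E1 : FreeGroup S₁.ι ≃* S.K :=
    (MonoidHom.ofInjective S₁.inj).trans (MulEquiv.subgroupCongr hK)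
  have hE1 : ∀ u, ((E1 u : S.K) : F) = S₁.e u := fun u => rfl
  refine (h g).2 ⟨u₁, fun z hz => ?_, hu₁⟩
  rw [vec_eq_zero]
  have h1 := hφ ((par (f z)).comp E1.symm.toMonoidHom) ?_
  · have e : E1.symm ⟨g, hg⟩ = u₁ := by
      rw [MulEquiv.symm_apply_eq]
      apply Subtype.ext
      rw [hE1]
      exact hu₁.symm
    have h2 : par (f z) (E1.symm ⟨g, hg⟩) = 1 := h1
    rwa [e] at h2
  · intro x q f' hq hx
    have hx' : (x : F) ∈ S'.K := by
      rw [hx]
      exact hconj q hq f'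
    obtain ⟨u, hu, hux⟩ := (h _).1 hx'
    have e : E1.symm x = u := by
      rw [MulEquiv.symm_apply_eq]
      apply Subtype.ext
      rw [hE1]
      exact hux.symm
    change par (f z) (E1.symm x) = 1
    rw [e]
    exact (vec_eq_zero _ _).1 (hu z hz)

lemma one_of_sub (hVEC : SpecVEC) {S S₁ S' : St F} {f : S.ι ≃ S₁.ι} {Z : Finset S.ι}
    {p : S.ι → FreeGroup S.ι} {P : S.ι → (S.ι → ZMod 2)} (hC : Chg S S₁ f Z p P)
    (h : IsNew S₁ S' f Z) (hKn : S.K.Normal)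
    (hK : S₁.K = S.K) (R E : List (F × ℝ)) (hR : Rel S R) (hE : Rel S E)
    (hEn : ∀ q ∈ E, q.1 ∈ Subgroup.normalClosure {r : F | ∃ q ∈ R, r = q.1})
    (pre : F → FreeGroup S.ι) (hpre : ∀ g ∈ S.K, S.e (pre g) = g)
    (hV : ∀ i, i ∉ Z → (Pi.single i 1 + P i : S.ι → ZMod 2) ∈ Submodule.span (ZMod 2)
      {v | v ∈ (E.map fun q => (vec (pre q.1), q.2)).map Prod.fst})
    (g : F) (hg : g ∈ S.K) (hg' : g ∈ S'.K)
    (φ : S.K →* Multiplicative (ZMod 2)) (hφ : Kills S.K R φ) : φ ⟨g, hg⟩ = 1 := by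
  obtain ⟨u₁, hz, hu₁⟩ := (h g).1 hg'
  have hRK : ∀ q ∈ R, q.1 ∈ S.K := fun q hq => (hR q hq).2.2
  let ψ : FreeGroup S.ι →* Multiplicative (ZMod 2) :=
    φ.comp (S.e.codRestrict S.K fun u => ⟨u, rfl⟩)
  have hψ : ∀ i, i ∉ Z → ψ (of i * p i) = 1 := by
    intro i hi
    refine hVEC S.ι ψ {u' | ∃ q ∈ E, S.e u' = q.1} ?_ (of i * p i) ?_
    · rintro u' ⟨q, hq, hu'⟩
      refine kills_closure hKn hRK hφ ⟨S.e u', ⟨u', rfl⟩⟩ ?_
      change S.e u' ∈ _
      rw [hu']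
      exact hEn q hq
    · have e : (fun j => Multiplicative.toAdd (par j (of i * p i))) =
          (Pi.single i 1 + P i : S.ι → ZMod 2) := by
        have := vec_mul (of i) (p i)
        rw [vec_of, hC.hp i hi] at this
        exact this
      rw [e]
      refine Submodule.span_mono ?_ (hV i hi)
      intro v hv
      have hv' : v ∈ (E.map fun q => (vec (pre q.1), q.2)).map Prod.fst := hv
      rw [List.map_map, List.mem_map] at hv'
      obtain ⟨q, hq, rfl⟩ := hv'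
      exact ⟨pre q.1, ⟨q, hq, hpre _ (hE q hq).2.2⟩, rfl⟩
  let ψ₁ : FreeGroup S₁.ι →* Multiplicative (ZMod 2) :=
    φ.comp (S₁.e.codRestrict S.K fun u => by rw [← hK]; exact ⟨u, rfl⟩)
  have hψ₁ : ψ₁ u₁ = 1 := by
    refine hVEC S₁.ι ψ₁ {u | ∃ i, i ∉ Z ∧ u = of (f i)} ?_ u₁ ?_
    · rintro u ⟨i, hi, rfl⟩
      have e : (⟨S₁.e (of (f i)), by rw [← hK]; exact ⟨_, rfl⟩⟩ : S.K) =
          ⟨S.e (of i * p i), ⟨_, rfl⟩⟩ := Subtype.ext (hC.hei i hi)
      change φ ⟨S₁.e (of (f i)), _⟩ = 1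
      rw [e]
      exact hψ i hi
    · change vec u₁ ∈ _
      rw [vec_sum (vec u₁)]
      refine Submodule.sum_mem _ fun j _ => ?_
      obtain ⟨i, rfl⟩ := f.surjective j
      by_cases hi : i ∈ Z
      · rw [hz i hi, zero_smul]
        exact Submodule.zero_mem _
      · refine Submodule.smul_mem _ _ (Submodule.subset_span ⟨of (f i), ⟨i, hi, rfl⟩, ?_⟩)
        exact (vec_of (f i)).symm
  have e : (⟨g, hg⟩ : S.K) = ⟨S₁.e u₁, by rw [← hK]; exact ⟨_, rfl⟩⟩ := Subtype.ext hu₁.symm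
  rw [e]
  exact hψ₁

end State

end LEVM

open LEVM in
theorem specLEV (hLIN : SpecLIN) (hITR : SpecITR) (hBAS : SpecBAS) (hLAL : SpecLAL)
    (hEXP : SpecEXP) (hVEC : SpecVEC) (hPOW : SpecPOW) : SpecLEV := by
  intro F _ S hK R hR
  obtain ⟨E, hE, hEs, hEn, hEM⟩ := rel_list hEXP S hK R hR
  have hex : ∀ g ∈ S.K, ∃ u, S.e u = g := fun g hg => hg
  choose! pre hpre using hex
  obtain ⟨L, hLdef⟩ : ∃ L : List ((S.ι → ZMod 2) × ℝ),
    L = E.map fun q => (vec (pre q.1), q.2) := ⟨_, rfl⟩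
  have hL : ∀ q ∈ L, 0 ≤ q.2 ∧ ∀ i, q.1 i ≠ 0 → S.w i ≤ q.2 := by
    intro q hq
    rw [hLdef, List.mem_map] at hq
    obtain ⟨r, hr, rfl⟩ := hq
    obtain ⟨k1, k2, k3⟩ := hE r hr
    exact ⟨k1.le, fun i hi => list_supp hLIN S r.1 r.2 k1 k2 (pre r.1) (hpre _ k3) i hi⟩
  obtain ⟨Z, P, h1, h2, h3, h4⟩ := hLAL S.ι S.w S.w0 L hL
  have hexp : ∀ i, ∃ u ∈ Subgroup.closure {u : FreeGroup S.ι | ∃ z, P i z ≠ 0 ∧ u = of z},
    vec u = P i := fun i => exists_vec (P i)
  choose p hpc hpv using hexp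
  obtain ⟨S₁, f, b1, b2, b3, b4, b5, b6, b7⟩ := hBAS F S Z p (fun i hi => by
    refine Subgroup.closure_mono ?_ (hpc i)
    rintro u ⟨z, hz, rfl⟩
    obtain ⟨g1, g2⟩ := h2 i hi z hz
    exact ⟨z, g1, g2, rfl⟩)
  have hC : Chg S S₁ f Z p P := ⟨fun i _ => hpv i, b6, b7⟩
  obtain ⟨S', c1, c2, c3, c4⟩ := hITR F S₁ (Z.map f.toEmbedding)
  have hnew : IsNew S₁ S' f Z := by
    intro g
    rw [c4 g]
    constructor
    · rintro ⟨u, hu, hug⟩
      refine ⟨u, fun z hz => ?_, hug⟩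
      rw [vec_eq_zero]
      exact hu (f z) (Finset.mem_map_of_mem _ hz)
    · rintro ⟨u, hu, hug⟩
      refine ⟨u, fun z hz => ?_, hug⟩
      rw [Finset.mem_map] at hz
      obtain ⟨z', hz', rfl⟩ := hz
      exact (vec_eq_zero _ _).1 (hu z' hz')
  have hES : ∀ q ∈ E, q.1 ∈ S'.K := by
    intro q hq
    obtain ⟨k1, k2, k3⟩ := hE q hq
    have k4 : q.1 ∈ S₁.K := by
      rw [b4]
      exact k3
    obtain ⟨u₁, hu₁⟩ := k4
    refine (hnew _).2 ⟨u₁, fun z hz => ?_, hu₁⟩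
    refine vec_zero hC _ h1 h3 (pre q.1) (Submodule.subset_span ?_) u₁ ?_ z hz
    · change vec (pre q.1) ∈ L.map Prod.fst
      rw [hLdef, List.map_map, List.mem_map]
      exact ⟨q, hq, rfl⟩
    · rw [hu₁]
      exact hpre _ k3
  have hconj := hEM S'.K (fun k hk m hm => new_conj hnew b4 k hk m hm) hES
  have hle : S'.K ≤ S.K := by
    intro g hg
    obtain ⟨u, -, rfl⟩ := (hnew g).1 hg
    rw [← b4]
    exact ⟨u, rfl⟩
  have hiff : ∀ g (hg : g ∈ S.K), g ∈ S'.K ↔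
      ∀ φ : S.K →* Multiplicative (ZMod 2), Kills S.K R φ → φ ⟨g, hg⟩ = 1 := by
    intro g hg
    constructor
    · intro hg' φ hφ
      exact one_of_sub hVEC hC hnew hK b4 R E hR hE hEn pre hpre (by rw [← hLdef]; exact h1)
        g hg hg' φ hφ
    · intro hφ
      exact sub_one_iff hnew b4 R hconj g hg hφ
  have hPe : ∏ z ∈ Z.map f.toEmbedding, (1 + S₁.w z) = ∏ z ∈ Z, (1 + S.w z) := by
    rw [Finset.prod_map]
    refine Finset.prod_congr rfl fun z _ => ?_
    change 1 + S₁.w (f z) = _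
    rw [b5]
  refine ⟨S', ∏ z ∈ Z, (1 + S.w z), normal_of hK R hiff hle, hle, c1.trans b1, ?_, ?_, ?_, ?_, ?_⟩
  · intro k hk
    rw [← b4] at hk
    obtain ⟨u, rfl⟩ := hk
    refine (hnew _).2 ⟨u * u, fun z _ => ?_, map_mul _ _ _⟩
    rw [vec_mul, Pi.add_apply]
    exact CharTwo.add_self_eq_zero _
  · intro q hq
    have := hconj q hq 1
    rwa [one_mul, inv_one, mul_one] at this
  · have e1 : (L.map Prod.snd).sum = wsum R * S.I := by
      rw [← hEs, hLdef, List.map_map]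
      rfl
    rw [e1] at h4
    refine le_trans (Real.rpow_le_rpow_of_exponent_le (by norm_num) ?_)
      (hPOW S.ι Z S.w S.w0 S.w1)
    refine le_trans (le_of_eq ?_) h4
    rw [St.A]
    ring
  · rw [c2, b2, hPe]
  · rw [c3, b3, hPe]

end Pool.Agent.Lib.MP166ce5.FR
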