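import Pool.Agent.Lib.MP_166ce5_al.FR.Spec

/-!
# Homomorphisms to the group of order two (module LIN)
-/

set_option autoImplicit false

namespace Pool.Agent.Lib.MP166ce5.FR

open FreeGroup (of)

namespace LINM

theorem sq_eq_one (x : Multiplicative (ZMod 2)) : x * x = 1 := by
  revert x
  decide

end LINM

/-- LIN: homomorphisms to the group of order two -/
theorem specLIN : SpecLIN := by
  intro ι w hw φ ρ hρ u hu
  revert hρ
  induction hu with
  | gen i h => intro hρ; exact hρ i h
  | one h => intro _; exact map_one φ
  | mul ha hb iha ihb => intro hρ; rw [map_mul, iha hρ, ihb hρ, one_mul]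
  | inv ha iha => intro hρ; rw [map_inv, iha hρ, inv_one]
  | comm ha hb h iha ihb =>
    intro _
    rw [map_mul, map_mul, map_mul, map_inv, map_inv, mul_comm (φ _) (φ _), mul_assoc, mul_assoc,
      mul_inv_cancel_left, mul_inv_cancel]
  | sq ha h iha => intro _; rw [map_mul, LINM.sq_eq_one]
  | top a h =>
    intro hρ
    have h1 : φ = 1 := by
      apply FreeGroup.ext_hom
      intro i
      rw [hρ i ((hw i).trans h)]
      rfl
    rw [h1]
    rfl

end Pool.Agent.Lib.MP166ce5.FR
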