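import Pool.Agent.Lib.MP_166ce5_al.FR.Spec

set_option autoImplicit false

namespace Pool.Agent.Lib.MP166ce5.FR

open FreeGroup

namespace MAINM

theorem len_finite {ι : Type} [Finite ι] (n : ℕ) : (Len n : Set (FreeGroup ι)).Finite := by
  have h1 : {L : List (ι × Bool) | L.length ≤ n}.Finite := List.finite_length_le _ n
  refine (h1.image fun L => FreeGroup.mk L).subset ?_
  rintro g ⟨L, hL, rfl⟩
  exact ⟨L, hL, rfl⟩

theorem len_mono {ι : Type} {m n : ℕ} (h : m ≤ n) : (Len m : Set (FreeGroup ι)) ⊆ Len n := by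
  rintro g ⟨L, hL, rfl⟩
  exact ⟨L, hL.trans h, rfl⟩

theorem one_mem_len {ι : Type} (n : ℕ) : (1 : FreeGroup ι) ∈ Len n :=
  ⟨[], by simp, by rw [FreeGroup.one_eq_mk]⟩

theorem len_split {ι : Type} (m n : ℕ) (g : FreeGroup ι) (hg : g ∈ Len (m + n)) :
    ∃ a ∈ (Len m : Set (FreeGroup ι)), ∃ b ∈ (Len n : Set (FreeGroup ι)), g = a * b := by
  obtain ⟨L, hL, rfl⟩ := hg
  refine ⟨FreeGroup.mk (L.take m), ⟨L.take m, ?_, rfl⟩, FreeGroup.mk (L.drop m),
    ⟨L.drop m, ?_, rfl⟩, ?_⟩
  · rw [List.length_take]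
    exact min_le_left _ _
  · rw [List.length_drop]
    omega
  · rw [FreeGroup.mul_mk, List.take_append_drop]

end MAINM

open MAINM in
theorem specMAIN (hSEQ : SpecSEQ) (hJEC : SpecJEC) (hGRW : SpecGRW) (hCFI : SpecCFI) :
    SpecMAIN := by
  classical
  intro d a hd ha had
  have ha0 : 0 < a := by linarith
  have hs0 : 0 < a⁻¹ := inv_pos.2 ha0
  have hs1 : a⁻¹ < 1 := inv_lt_one_of_one_lt₀ ha
  have hds : 1 < (d : ℝ) * a⁻¹ := by
    rw [← div_eq_mul_inv, lt_div_iff₀ ha0, one_mul]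
    exact had
  obtain ⟨N, c, -, hnor, hfin, -, htow, hB⟩ := hSEQ d a⁻¹ hd hs0 hs1 hds
  set M : Subgroup (FreeGroup (Fin d)) := ⨅ j, N j with hM
  have hMnor : M.Normal := Subgroup.normal_iInf_normal hnor
  have hMle : ∀ j, M ≤ N j := fun j => iInf_le _ j
  set x : Fin d → FreeGroup (Fin d) ⧸ M := fun i => QuotientGroup.mk' M (of i) with hx
  have hlift : FreeGroup.lift x = QuotientGroup.mk' M := by
    apply FreeGroup.ext_hom
    intro i
    rw [FreeGroup.lift_apply_of]
  have hsurj : Function.Surjective (QuotientGroup.mk' M) := QuotientGroup.mk'_surjective M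
  -- the growth function
  set γ : ℕ → ℕ := fun n => (QuotientGroup.mk' M '' Len n).ncard with hγ
  have hγfin : ∀ n, (QuotientGroup.mk' M '' Len n).Finite := fun n => (len_finite n).image _
  have hγ0 : 1 ≤ γ 0 := by
    rw [hγ, Nat.one_le_iff_ne_zero]
    intro h
    rw [Set.ncard_eq_zero (hγfin 0)] at h
    have h1 : QuotientGroup.mk' M 1 ∈ QuotientGroup.mk' M '' Len 0 := ⟨1, one_mem_len 0, rfl⟩
    rw [h] at h1
    exact h1
  have hγm : Monotone γ := fun m n h =>
    Set.ncard_le_ncard (Set.image_mono (len_mono h)) (hγfin n)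
  have hγs : ∀ m n, γ (m + n) ≤ γ m * γ n := by
    intro m n
    have h1 : QuotientGroup.mk' M '' Len (m + n) ⊆
        (fun p : (FreeGroup (Fin d) ⧸ M) × (FreeGroup (Fin d) ⧸ M) => p.1 * p.2) ''
          ((QuotientGroup.mk' M '' Len m) ×ˢ (QuotientGroup.mk' M '' Len n)) := by
      rintro _ ⟨g, hg, rfl⟩
      obtain ⟨u, hu, v, hv, rfl⟩ := len_split m n g hg
      exact ⟨(QuotientGroup.mk' M u, QuotientGroup.mk' M v),
        ⟨⟨u, hu, rfl⟩, ⟨v, hv, rfl⟩⟩, (_root_.map_mul _ _ _).symm⟩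
    calc γ (m + n) ≤ _ := Set.ncard_le_ncard h1 (((hγfin m).prod (hγfin n)).image _)
      _ ≤ _ := Set.ncard_image_le ((hγfin m).prod (hγfin n))
      _ = γ m * γ n := Set.ncard_prod
  have hgrow : ∀ n, a ^ n ≤ (γ n : ℝ) := by
    intro n
    have h := hGRW a⁻¹ γ hs0 hs1 hγ0 hγm hγs ?_ n
    · rwa [inv_inv] at h
    · intro B
      obtain ⟨j, S, hSK, hSG, hSI⟩ := hB B
      obtain ⟨-, -, hw⟩ := hCFI _ S.G S.K S.l S.chain
      have hSn : S.K.Normal := by
        rw [hSK]
        exact hnor j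
      refine ⟨S.l.map Prod.snd, ?_, ?_, fun n => ?_⟩
      · intro c hc
        rw [List.mem_map] at hc
        obtain ⟨p, hp, rfl⟩ := hc
        exact hw p hp
      · rw [List.map_map]
        exact hSI
      · refine (hJEC d a⁻¹ hs0 hs1 S hSn hSG n).trans ?_
        have hMS : M ≤ S.K := by
          rw [hSK]
          exact hMle j
        have h1 : (QuotientGroup.mk : FreeGroup (Fin d) → FreeGroup (Fin d) ⧸ S.K) '' Len n ⊆
            (QuotientGroup.map M S.K (MonoidHom.id _) (by simpa using hMS)) ''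
              (QuotientGroup.mk' M '' Len n) := by
          rintro _ ⟨g, hg, rfl⟩
          exact ⟨QuotientGroup.mk' M g, ⟨g, hg, rfl⟩, rfl⟩
        exact (Set.ncard_le_ncard h1 ((hγfin n).image _)).trans (Set.ncard_image_le (hγfin n))
  refine ⟨FreeGroup (Fin d) ⧸ M, inferInstance, x, c, ?_, ?_, ?_, ?_, ?_⟩
  · have h1 : Set.range x = QuotientGroup.mk' M '' Set.range of := by
      rw [← Set.range_comp]
      rfl
    rw [h1, ← MonoidHom.map_closure, FreeGroup.closure_range_of, ← MonoidHom.range_eq_map]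
    exact MonoidHom.range_eq_top.2 hsurj
  · by_contra hcon
    rw [not_infinite_iff_finite] at hcon
    obtain ⟨n, hn⟩ := pow_unbounded_of_one_lt (Nat.card (FreeGroup (Fin d) ⧸ M) : ℝ) ha
    have h1 : γ n ≤ Nat.card (FreeGroup (Fin d) ⧸ M) := by
      rw [← Set.ncard_univ]
      exact Set.ncard_le_ncard (Set.subset_univ _) Set.finite_univ
    have h2 : (γ n : ℝ) ≤ (Nat.card (FreeGroup (Fin d) ⧸ M) : ℝ) := by exact_mod_cast h1
    exact absurd ((hgrow n).trans h2) (not_le.2 hn)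
  · intro g hg
    obtain ⟨u, rfl⟩ := hsurj g
    have hu : u ∉ M := fun h => hg ((QuotientGroup.eq_one_iff u).2 h)
    rw [hM, Subgroup.mem_iInf] at hu
    push Not at hu
    obtain ⟨j, hj⟩ := hu
    have hker : (QuotientGroup.mk' M).ker ≤ N j := by
      rw [QuotientGroup.ker_mk']
      exact hMle j
    have hcm : ((N j).map (QuotientGroup.mk' M)).comap (QuotientGroup.mk' M) = N j :=
      Subgroup.comap_map_eq_self hker
    refine ⟨(N j).map (QuotientGroup.mk' M), (hnor j).map _ hsurj, ?_, ?_⟩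
    · have h1 : (((N j).map (QuotientGroup.mk' M)).comap (QuotientGroup.mk' M)).index =
          ((N j).map (QuotientGroup.mk' M)).index :=
        Subgroup.index_comap_of_surjective _ hsurj
      rw [hcm] at h1
      refine ⟨?_⟩
      rw [← h1]
      exact (hfin j).index_ne_zero
    · intro h
      apply hj
      rw [← hcm]
      exact h
  · intro n
    rw [hlift]
    exact hgrow n
  · intro k g hg
    rw [hlift] at hg
    obtain ⟨u, hu, rfl⟩ := hg
    rw [← _root_.map_pow]
    refine (QuotientGroup.eq_one_iff _).2 ?_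
    rw [hM, Subgroup.mem_iInf]
    intro j
    exact htow k j u hu

end Pool.Agent.Lib.MP166ce5.FR
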