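import Pool.Agent.Lib.MP_166ce5_al.FR.Spec

set_option autoImplicit false

namespace Pool.Agent.Lib.MP166ce5.FR

theorem specNE0 (hLEV : SpecLEV) (hCFI : SpecCFI) : SpecNE0 := by
  intro F _ L
  obtain ⟨S', P, hnor, hK, hG, hsq, hrel, hP, hA, hI⟩ := hLEV F L.S L.nor L.R L.hR
  have hI0 : 0 < L.S.I := by
    obtain ⟨_, _, hl⟩ := hCFI F L.S.G L.S.e.range L.S.l L.S.chain
    unfold St.I
    apply List.prod_pos
    intro a ha
    obtain ⟨p, hp, rfl⟩ := List.mem_map.1 ha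
    have := (hl p hp).1
    linarith
  have hP0 : 0 < P := lt_of_lt_of_le (Real.rpow_pos_of_pos (by norm_num) _) hP
  refine ⟨⟨S', hnor, L.R, ?_⟩, hK, hsq, rfl, hG, ?_, ?_⟩
  · intro p hp
    obtain ⟨h1, h2, _⟩ := L.hR p hp
    exact ⟨h1, by rw [hG]; exact h2, hrel p hp⟩
  · show S'.A / S'.I - wsum L.R = L.S.A / L.S.I - wsum L.R
    rw [hA, hI, mul_div_mul_right _ _ hP0.ne']
  · show L.S.I * (2 : ℝ) ^ (1 + L.S.I * L.θ) ≤ S'.I
    rw [hI]
    have h1 : 1 + L.S.A - L.S.I * wsum L.R = 1 + L.S.I * L.θ := by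
      unfold Lv.θ
      field_simp
      ring
    rw [h1] at hP
    exact mul_le_mul_of_nonneg_left hP hI0.le

end Pool.Agent.Lib.MP166ce5.FR
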