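import Pool.Agent.Lib.MP_166ce5_al.FR.Spec

/-!
# Module NEX: a stage and a level together
-/

set_option autoImplicit false

namespace Pool.Agent.Lib.MP166ce5.FR

open FreeGroup

namespace NEXM

private lemma prodPos {F : Type} (l : List (F × ℝ)) (h : ∀ p ∈ l, 0 < p.2) :
    0 < (l.map fun p => 1 + p.2).prod := by
  induction l with
  | nil => simp
  | cons a l ih =>
    rw [List.map_cons, List.prod_cons]
    have h1 := h a (List.mem_cons_self)
    have h2 := ih fun p hp => h p (List.mem_cons_of_mem _ hp)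
    exact mul_pos (by linarith) h2

/-- The new relators. -/
private noncomputable def rel {F : Type} [Group F] (R : List (F × ℝ)) (V : List F) (lam : ℝ) :
    List (F × ℝ) :=
  R.map (fun p => (p.1, lam * p.2)) ++ V.map (fun v => (v * v, lam * lam))

private lemma wsumRel {F : Type} [Group F] (R : List (F × ℝ)) (V : List F) (lam : ℝ) :
    wsum (rel R V lam) = lam * wsum R + V.length * (lam * lam) := by
  have h1 : (R.map (fun p => lam * p.2)).sum = lam * (R.map Prod.snd).sum := by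
    induction R with
    | nil => simp
    | cons a R ih =>
      simp only [List.map_cons, List.sum_cons, ih]
      ring
  have h2 : (V.map (fun _ => lam * lam)).sum = V.length * (lam * lam) := by
    induction V with
    | nil => simp
    | cons a V ih =>
      simp only [List.map_cons, List.sum_cons, ih, List.length_cons]
      push_cast
      ring
  unfold wsum rel
  rw [List.map_append, List.map_map, List.map_map, List.sum_append]
  have h3 : (Prod.snd ∘ fun p : F × ℝ => (p.1, lam * p.2)) = fun p : F × ℝ => lam * p.2 := rfl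
  have h4 : (Prod.snd ∘ fun v : F => (v * v, lam * lam)) = fun _ : F => lam * lam := rfl
  rw [h3, h4, h1, h2]

private lemma numbers (A I W n θ q lam T : ℝ) (hI : 0 < I) (hn : 0 ≤ n) (hnq : n ≤ q)
    (hθ : θ = A / I - W) (hθ0 : 0 < θ) (hθq : θ ≤ 4 * q) (hIq : 16 * q / θ ^ 2 ≤ I)
    (hlam : lam = θ / (4 * q))
    (hT : T = (lam * (1 + A) - 1) / I - (lam * W + n * (lam * lam))) :
    0 < lam ∧ lam ≤ 1 ∧ θ ^ 2 / (8 * q) ≤ T ∧ T ≤ θ := by
  have hq : 0 < q := by linarith
  have hlam0 : 0 < lam := by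
    rw [hlam]
    positivity
  have hlam1 : lam ≤ 1 := by
    rw [hlam, div_le_one (by positivity)]
    exact hθq
  have h1 : T = lam * θ - (1 - lam) / I - n * (lam * lam) := by
    rw [hT, hθ]
    field_simp
    ring
  have h2 : lam * θ = θ ^ 2 / (4 * q) := by
    rw [hlam]
    ring
  have h3 : 1 / I ≤ θ ^ 2 / (16 * q) := by
    rw [div_le_div_iff₀ hI (by positivity)]
    rw [div_le_iff₀ (by positivity)] at hIq
    linarith
  have h4 : n * (lam * lam) ≤ θ ^ 2 / (16 * q) := by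
    have h5 : n * (lam * lam) ≤ q * (lam * lam) :=
      mul_le_mul_of_nonneg_right hnq (by positivity)
    have h6 : q * (lam * lam) = θ ^ 2 / (16 * q) := by
      rw [hlam]
      field_simp
      ring
    linarith
  have h5 : (1 - lam) / I ≤ 1 / I := by
    apply div_le_div_of_nonneg_right _ hI.le
    linarith
  have h6 : 0 ≤ (1 - lam) / I := div_nonneg (by linarith) hI.le
  have h7 : 0 ≤ n * (lam * lam) := by positivity
  refine ⟨hlam0, hlam1, ?_, ?_⟩
  · have h8 : θ ^ 2 / (8 * q) = θ ^ 2 / (4 * q) - θ ^ 2 / (16 * q) - θ ^ 2 / (16 * q) := by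
      field_simp
      ring
    rw [h8, h1, h2]
    linarith
  · rw [h1]
    have h8 : lam * θ ≤ 1 * θ := mul_le_mul_of_nonneg_right hlam1 hθ0.le
    linarith

end NEXM

theorem specNEX (hLEV : SpecLEV) (hSTG : SpecSTG) (hCFI : SpecCFI) : SpecNEX := by
  intro F _ L V q hV hVq hθ0 hθq hIq
  have hI : 0 < L.S.I :=
    NEXM.prodPos L.S.l fun p hp => ((hCFI F L.S.G L.S.K L.S.l L.S.chain).2.2 p hp).1
  obtain ⟨hlam0, hlam1, hT1, hT2⟩ := NEXM.numbers L.S.A L.S.I (wsum L.R) V.length L.θ q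
    (L.θ / (4 * q)) _ hI (Nat.cast_nonneg _) hVq rfl hθ0 hθq hIq rfl rfl
  generalize L.θ / (4 * q) = lam at hlam0 hlam1 hT1 hT2
  obtain ⟨S₁, hK, hA, hI1, hG, hR1, hV1⟩ := hSTG F L.S L.nor lam hlam0 hlam1
  have hn1 : S₁.K.Normal := by
    rw [hK]
    exact L.nor
  have hrel : Rel S₁ (NEXM.rel L.R V lam) := by
    intro p hp
    unfold NEXM.rel at hp
    rw [List.mem_append, List.mem_map, List.mem_map] at hp
    rcases hp with ⟨r, hr, rfl⟩ | ⟨v, hv, rfl⟩
    · obtain ⟨h1, h2, h3⟩ := L.hR r hr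
      exact ⟨mul_pos hlam0 h1, hR1 r.2 r.1 h1 h3 h2, hK ▸ h3⟩
    · exact ⟨mul_pos hlam0 hlam0, hV1 v (hV v hv), hK ▸ mul_mem (hV v hv) (hV v hv)⟩
  obtain ⟨S', P, hn, hle, hG', hsq, hR', hP, hA', hI'⟩ :=
    hLEV F S₁ hn1 (NEXM.rel L.R V lam) hrel
  have hP0 : 0 < P := lt_of_lt_of_le (Real.rpow_pos_of_pos two_pos _) hP
  let L' : Lv F := ⟨S', hn, NEXM.rel L.R V lam, fun p hp =>
    ⟨(hrel p hp).1, by rw [hG']; exact (hrel p hp).2.1, hR' p hp⟩⟩
  have hθ' : L'.θ = (lam * (1 + L.S.A) - 1) / L.S.I -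
      (lam * wsum L.R + V.length * (lam * lam)) := by
    change S'.A / S'.I - wsum (NEXM.rel L.R V lam) = _
    rw [hA', hI', mul_div_mul_right _ _ hP0.ne', hA, hI1, NEXM.wsumRel]
  refine ⟨L', ?_, ?_, ?_, ?_, ?_, ?_, ?_, ?_⟩
  · exact hK ▸ hle
  · intro k hk
    exact hsq k (by rw [hK]; exact hk)
  · intro v hv
    change v * v ∈ (NEXM.rel L.R V lam).map Prod.fst
    rw [List.mem_map]
    refine ⟨(v * v, lam * lam), ?_, rfl⟩
    unfold NEXM.rel
    rw [List.mem_append]
    exact Or.inr (List.mem_map.mpr ⟨v, hv, rfl⟩)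
  · intro p hp
    change p.1 ∈ (NEXM.rel L.R V lam).map Prod.fst
    rw [List.mem_map]
    refine ⟨(p.1, lam * p.2), ?_, rfl⟩
    unfold NEXM.rel
    rw [List.mem_append]
    exact Or.inl (List.mem_map.mpr ⟨p, hp, rfl⟩)
  · intro ρ hρ
    change L.S.G ρ ≤ S'.G ρ
    rw [hG']
    exact hG ρ hρ
  · rw [hθ']
    exact hT1
  · rw [hθ']
    exact hT2
  · change L.S.I * (2 : ℝ) ^ (1 + L.S.I * L'.θ) ≤ S'.I
    rw [hI', hI1]
    apply mul_le_mul_of_nonneg_left _ hI.le
    refine le_trans (le_of_eq ?_) hP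
    congr 1
    rw [hθ', NEXM.wsumRel, hA, hI1]
    field_simp
    ring

end Pool.Agent.Lib.MP166ce5.FR
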