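import Pool.Agent.Lib.MP_166ce5_al.FR.Spec

/-!
# NUM: numbers
-/

set_option autoImplicit false

namespace Pool.Agent.Lib.MP166ce5.FR

namespace NUMM

open Filter Topology

lemma ev : ∃ R : ℝ, ∀ r : ℝ, R ≤ r → (2 : ℝ) ^ 24 * r ^ 12 ≤ (2 : ℝ) ^ (1 + r ^ 2 / 8) := by
  have hl : 0 < Real.log 2 := Real.log_pos (by norm_num)
  have h := isLittleO_pow_exp_pos_mul_atTop 12 hl
  have h2 := h.bound (show (0 : ℝ) < ((2 : ℝ) ^ 24)⁻¹ by positivity)
  obtain ⟨R, hR⟩ := eventually_atTop.mp h2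
  refine ⟨max R 8, fun r hr => ?_⟩
  have hr8 : 8 ≤ r := (le_max_right _ _).trans hr
  have h3 := hR r ((le_max_left _ _).trans hr)
  rw [Real.norm_eq_abs, Real.norm_eq_abs, abs_of_nonneg (by positivity),
    abs_of_nonneg (Real.exp_pos _).le] at h3
  have h4 : Real.exp (Real.log 2 * r) = (2 : ℝ) ^ r := by
    rw [Real.rpow_def_of_pos (by norm_num)]
  rw [h4] at h3
  have h5 : (2 : ℝ) ^ r ≤ (2 : ℝ) ^ (1 + r ^ 2 / 8) := by
    apply Real.rpow_le_rpow_of_exponent_le (by norm_num)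
    nlinarith
  calc (2 : ℝ) ^ 24 * r ^ 12 ≤ (2 : ℝ) ^ 24 * (((2 : ℝ) ^ 24)⁻¹ * (2 : ℝ) ^ r) := by gcongr
    _ = (2 : ℝ) ^ r := by field_simp
    _ ≤ _ := h5

end NUMM

theorem specNUM : SpecNUM := by
  intro b hb
  obtain ⟨R, hR⟩ := NUMM.ev
  set κ : ℝ := Real.logb 2 b with hκ
  have hbκ : (2 : ℝ) ^ κ = b := Real.rpow_logb (by norm_num) (by norm_num) (by linarith)
  have hκ0 : 0 ≤ κ := Real.logb_nonneg (by norm_num) (by linarith)
  set R₀ : ℝ := max (max R 4) (32 * κ) with hR₀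
  have hR₀4 : 4 ≤ R₀ := (le_max_right R 4).trans (le_max_left _ _)
  have hR₀R : R ≤ R₀ := (le_max_left R 4).trans (le_max_left _ _)
  have hR₀κ : 32 * κ ≤ R₀ := le_max_right _ _
  refine ⟨R₀ ^ 4, one_le_pow₀ (by linarith), ?_⟩
  intro I θ m hI hθ hθI hbI
  have hI0 : 0 < I := lt_of_lt_of_le (by positivity) hI
  -- the fourth root of `I`
  obtain ⟨r, hr0, hrI⟩ : ∃ r : ℝ, 0 ≤ r ∧ r ^ 4 = I := by
    refine ⟨√(√I), Real.sqrt_nonneg _, ?_⟩
    have h1 : √(√I) ^ 2 = √I := Real.sq_sqrt (Real.sqrt_nonneg _)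
    have h2 : √I ^ 2 = I := Real.sq_sqrt hI0.le
    calc √(√I) ^ 4 = (√(√I) ^ 2) ^ 2 := by ring
      _ = I := by rw [h1, h2]
  have hrR : R₀ ≤ r := by
    have : R₀ ^ 4 ≤ r ^ 4 := by rw [hrI]; exact hI
    exact le_of_pow_le_pow_left₀ (by norm_num) hr0 this
  have hr4 : 4 ≤ r := hR₀4.trans hrR
  have hrpos : 0 < r := by linarith
  set q : ℝ := b ^ m with hq
  have hq0 : 0 < q := by positivity
  have hqr : q ≤ r := by
    have : q ^ 4 ≤ r ^ 4 := by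
      rw [hrI, hq, ← pow_mul, mul_comm m 4]; exact hbI
    exact le_of_pow_le_pow_left₀ (by norm_num) hr0 this
  have h2q : (2 : ℝ) ^ m ≤ q := by
    rw [hq]; exact pow_le_pow_left₀ (by norm_num) hb m
  -- `q ≤ r² θ²`
  have hqs : q ≤ r ^ 2 * θ ^ 2 := by
    have h1 : q ^ 4 ≤ (r ^ 2 * θ ^ 2) ^ 4 := by
      have h2 : q ^ 4 ≤ I := by rw [hq, ← pow_mul, mul_comm m 4]; exact hbI
      have h3 : I ≤ I * (θ ^ 8 * I) := le_mul_of_one_le_right hI0.le hθI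
      have h4 : (r ^ 2 * θ ^ 2) ^ 4 = I * (θ ^ 8 * I) := by rw [← hrI]; ring
      rw [h4]
      exact h2.trans h3
    exact le_of_pow_le_pow_left₀ (by norm_num) (by positivity) h1
  have hθ2 : 0 < θ ^ 2 := by positivity
  refine ⟨?_, ?_⟩
  · rw [div_le_iff₀ hθ2]
    have : 16 * q ≤ 16 * (r ^ 2 * θ ^ 2) := by linarith
    refine this.trans ?_
    rw [← hrI]
    have h16 : (16 : ℝ) ≤ r ^ 2 := by nlinarith
    nlinarith [mul_pos (pow_pos hrpos 2) hθ2, mul_le_mul_of_nonneg_right h16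
      (mul_pos (pow_pos hrpos 2) hθ2).le]
  · intro I' θ' hθ' hI'
    have hθ'1 : 1 / (8 * r ^ 2) ≤ θ' := by
      refine le_trans ?_ hθ'
      rw [div_le_div_iff₀ (by positivity) (by positivity)]
      nlinarith
    have hIθ' : r ^ 2 / 8 ≤ I * θ' := by
      calc r ^ 2 / 8 = I * (1 / (8 * r ^ 2)) := by rw [← hrI]; field_simp
        _ ≤ I * θ' := by gcongr
    have hexp : (2 : ℝ) ^ (1 + r ^ 2 / 8) ≤ (2 : ℝ) ^ (1 + I * θ') :=
      Real.rpow_le_rpow_of_exponent_le (by norm_num) (by linarith)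
    have hI'2 : I * (2 : ℝ) ^ (1 + r ^ 2 / 8) ≤ I' :=
      (mul_le_mul_of_nonneg_left hexp hI0.le).trans hI'
    have h2le : (2 : ℝ) ≤ (2 : ℝ) ^ (1 + r ^ 2 / 8) := by
      calc (2 : ℝ) = (2 : ℝ) ^ (1 : ℝ) := (Real.rpow_one 2).symm
        _ ≤ _ := Real.rpow_le_rpow_of_exponent_le (by norm_num) (by
          have : 0 ≤ r ^ 2 / 8 := by positivity
          linarith)
    have h2I : 2 * I ≤ I' := by nlinarith
    have hθ'0 : 0 < θ' := lt_of_lt_of_le (by positivity) hθ'1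
    refine ⟨by linarith, h2I, ?_, ?_⟩
    · have h1 : (1 / (8 * r ^ 2)) ^ 8 ≤ θ' ^ 8 := pow_le_pow_left₀ (by positivity) hθ'1 8
      have h2 : I * ((2 : ℝ) ^ 24 * r ^ 12) ≤ I' :=
        (mul_le_mul_of_nonneg_left (hR r (hR₀R.trans hrR)) hI0.le).trans hI'2
      have hI'0 : 0 < I' := by linarith
      calc (1 : ℝ) = (1 / (8 * r ^ 2)) ^ 8 * (I * ((2 : ℝ) ^ 24 * r ^ 12)) := by
            rw [← hrI]; field_simp; norm_num
        _ ≤ θ' ^ 8 * I' := by gcongr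
    · have h1 : b ^ (4 * 2 ^ m) = (2 : ℝ) ^ (κ * (4 * 2 ^ m)) := by
        rw [Real.rpow_mul (by norm_num), hbκ, ← Real.rpow_natCast]
        push_cast
        rfl
      rw [h1]
      have h2 : κ * (4 * 2 ^ m) ≤ 1 + r ^ 2 / 8 := by
        have h3 : 32 * κ ≤ r := hR₀κ.trans hrR
        have h4 : (2 : ℝ) ^ m ≤ r := h2q.trans hqr
        have h5 : (32 * κ) * (2 : ℝ) ^ m ≤ r * r := by gcongr
        nlinarith
      have h6 : (2 : ℝ) ^ (κ * (4 * 2 ^ m)) ≤ (2 : ℝ) ^ (1 + r ^ 2 / 8) :=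
        Real.rpow_le_rpow_of_exponent_le (by norm_num) h2
      have h7 : (1 : ℝ) ≤ I := by rw [← hrI]; exact one_le_pow₀ (by linarith)
      refine h6.trans (le_trans ?_ hI'2)
      exact le_mul_of_one_le_left (by positivity) h7

end Pool.Agent.Lib.MP166ce5.FR
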