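import Pool.Agent.Lib.MP_166ce5_al.FR.Spec

/-!
# NXT (helper21): one step of the construction
-/

set_option autoImplicit false

namespace Pool.Agent.Lib.MP166ce5.FR

open FreeGroup

namespace NXTM

lemma wx_pos {ι : Type} (w : ι → ℝ) (i₀ : ι) (h0 : ∀ i, 0 < w i) (j : Nx i₀) :
    0 < wx w i₀ j := by
  rcases j with _ | ⟨i, _ | _⟩
  · exact mul_pos (h0 _) (h0 _)
  · exact h0 _
  · exact mul_pos (h0 _) (h0 _)

lemma wx_le {ι : Type} (w : ι → ℝ) (i₀ : ι) (h0 : ∀ i, 0 < w i) (h1 : ∀ i, w i ≤ 1)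
    (j : Nx i₀) : wx w i₀ j ≤ 1 := by
  rcases j with _ | ⟨i, _ | _⟩
  · exact mul_le_one₀ (h1 _) (h0 _).le (h1 _)
  · exact h1 _
  · exact mul_le_one₀ (h1 _) (h0 _).le (h1 _)

lemma par_self {ι : Type} [DecidableEq ι] (i₀ : ι) :
    par i₀ (of i₀) = Multiplicative.ofAdd (1 : ZMod 2) := by
  simp [par]

lemma par_ne {ι : Type} [DecidableEq ι] {i₀ i : ι} (h : i ≠ i₀) : par i₀ (of i) = 1 := by
  simp [par, h]

lemma ofAdd_ne : Multiplicative.ofAdd (1 : ZMod 2) ≠ 1 := by decide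

lemma two (x : Multiplicative (ZMod 2)) :
    x = 1 ∨ x * (Multiplicative.ofAdd (1 : ZMod 2))⁻¹ = 1 := by
  revert x
  decide

lemma mem_K {F : Type} [Group F] (hFRR : SpecFRR) (S : St F) (i₀ : S.ι) (g : F) :
    g ∈ (S.e.comp (jx i₀)).range ↔ ∃ u, par i₀ u = 1 ∧ S.e u = g := by
  constructor
  · rintro ⟨v, rfl⟩
    exact ⟨jx i₀ v, ((hFRR S.ι i₀).1 _).1 ⟨v, rfl⟩, rfl⟩
  · rintro ⟨u, hu, rfl⟩
    obtain ⟨v, rfl⟩ := ((hFRR S.ι i₀).1 _).2 hu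
    exact ⟨v, rfl⟩

/-- the new state -/
def next {F : Type} [Group F] (hLIN : SpecLIN) (hFRI : SpecFRI) (hFRR : SpecFRR)
    (hSTP : SpecSTP) (S : St F) (i₀ : S.ι) : St F where
  ι := Nx i₀
  fin := inferInstance
  dec := inferInstance
  e := S.e.comp (jx i₀)
  inj := S.inj.comp (hFRI S.ι i₀)
  w := wx S.w i₀
  w0 := wx_pos S.w i₀ S.w0
  w1 := wx_le S.w i₀ S.w0 S.w1
  G := S.G
  ser := S.ser
  mem := fun ρ hρ u => (S.mem ρ hρ (jx i₀ u)).trans (hSTP S.ι S.w i₀ S.w0 S.w1 ρ hρ u)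
  l := (S.e (of i₀), S.w i₀) :: S.l
  chain := by
    refine Chain.cons (S.e (of i₀)) (S.w i₀) S.chain ?_ ⟨_, rfl⟩ ?_ ?_ (S.w0 _) (S.w1 _) ?_ ?_
    · rintro _ ⟨v, rfl⟩
      exact ⟨_, rfl⟩
    · rw [mem_K hFRR]
      rintro ⟨u, hu, he⟩
      rw [S.inj he, par_self] at hu
      exact ofAdd_ne hu
    · rintro _ ⟨u, rfl⟩
      rw [mem_K hFRR, mem_K hFRR]
      rcases two (par i₀ u) with h | h
      · exact Or.inl ⟨u, h, rfl⟩
      · refine Or.inr ⟨u * (of i₀)⁻¹, ?_, ?_⟩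
        · rw [_root_.map_mul, _root_.map_inv, par_self, h]
        · rw [_root_.map_mul, _root_.map_inv]
    · exact (S.mem _ (S.w0 _) _).2 (Wt.gen i₀ le_rfl)
    · rintro ρ hρ hlt _ ⟨u, rfl⟩ hg
      rw [mem_K hFRR]
      refine ⟨u, ?_, rfl⟩
      refine hLIN S.ι S.w S.w1 (par i₀) ρ ?_ u ((S.mem ρ hρ u).1 hg)
      intro i hi
      refine par_ne ?_
      rintro rfl
      exact absurd hi (not_le.2 hlt)

lemma sum_wx {ι : Type} [Fintype ι] [DecidableEq ι] (w : ι → ℝ) (i₀ : ι) :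
    (∑ j : Nx i₀, wx w i₀ j) - 1 = ((∑ i, w i) - 1) * (1 + w i₀) := by
  have h1 : (∑ i, w i) = w i₀ + ∑ i : {i : ι // i ≠ i₀}, w i.1 :=
    Fintype.sum_eq_add_sum_subtype_ne w i₀
  rw [Fintype.sum_option, Fintype.sum_prod_type, h1]
  simp only [Fintype.sum_bool, wx, Finset.sum_add_distrib, ← Finset.sum_mul]
  ring

end NXTM

theorem specNXT (hLIN : SpecLIN) (hFRI : SpecFRI) (hFRR : SpecFRR) (hSTP : SpecSTP) :
    SpecNXT := by
  intro F _ S i₀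
  refine ⟨NXTM.next hLIN hFRI hFRR hSTP S i₀, fun i => some (i, false), ?_, rfl, ?_, ?_, ?_, ?_,
    ?_⟩
  · intro i j h
    exact (Prod.ext_iff.1 (Option.some.inj h)).1
  · exact NXTM.sum_wx S.w i₀
  · change (List.map (fun p : F × ℝ => 1 + p.2) ((S.e (of i₀), S.w i₀) :: S.l)).prod = _
    rw [List.map_cons, List.prod_cons, mul_comm]
    rfl
  · intro i
    rfl
  · intro g
    exact NXTM.mem_K hFRR S i₀ g
  · intro i u u' h
    have h1 : jx i₀ u' = u := S.inj h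
    rw [← h1]
    exact ((hFRR S.ι i₀).2.2 i u').symm

end Pool.Agent.Lib.MP166ce5.FR

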