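import Pool.Agent.Lib.MP_166ce5_al.FR.Spec

set_option autoImplicit false

namespace Pool.Agent.Lib.MP166ce5.FR

theorem specPOW : SpecPOW := by
  intro ι Z w h0 h1
  rw [Real.rpow_sum_of_pos (by norm_num : (0 : ℝ) < 2)]
  refine Finset.prod_le_prod (fun z _ => by positivity) (fun z _ => ?_)
  have h := rpow_one_add_le_one_add_mul_self (s := 1) (p := w z) (by norm_num) (h0 z).le (h1 z)
  have h2 : (1 : ℝ) + 1 = 2 := by norm_num
  rw [h2, mul_one] at h
  exact h

end Pool.Agent.Lib.MP166ce5.FR
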