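import Pool.Agent.Lib.MP_166ce5_al.FR.Spec

/-!
# SCA: scaling of the weights
-/

set_option autoImplicit false

namespace Pool.Agent.Lib.MP166ce5.FR

open FreeGroup

namespace SCAM

/-- Every element of the free group has every weight which all generators have. -/
theorem all_wt {ι : Type} (v : ι → ℝ) (r : ℝ) (hr : 0 < r) (h : ∀ i, v i ≤ r)
    (u : FreeGroup ι) : Wt of v r u := by
  induction u using FreeGroup.induction_on with
  | C1 => exact Wt.one hr
  | of i => exact Wt.gen i (h i)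
  | inv_of i hi => exact Wt.inv hi
  | mul x y hx hy => exact Wt.mul hx hy

end SCAM

theorem specSCA (hWTB : SpecWTB) : SpecSCA := by
  intro ι w lam hl hl1 hw hw1 ρ u hu
  have hpos := (hWTB (FreeGroup ι) ι of w hw).1
  induction hu with
  | gen i h => exact Wt.gen i (mul_le_mul_of_nonneg_left h hl.le)
  | one h => exact Wt.one (mul_pos hl h)
  | mul _ _ iha ihb => exact Wt.mul iha ihb
  | inv _ iha => exact Wt.inv iha
  | @comm ρ σ τ a b ha hb h iha ihb =>
    have h1 := hpos _ _ ha
    have h2 := hpos _ _ hb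
    refine Wt.comm iha ihb ?_
    have h3 : 0 < ρ * σ := mul_pos h1 h2
    calc lam * ρ * (lam * σ) = lam * (lam * (ρ * σ)) := by ring
      _ ≤ lam * (1 * (ρ * σ)) :=
        mul_le_mul_of_nonneg_left (mul_le_mul_of_nonneg_right hl1 h3.le) hl.le
      _ = lam * (ρ * σ) := by ring
      _ ≤ lam * τ := mul_le_mul_of_nonneg_left h hl.le
  | @sq ρ τ a ha h iha =>
    have h1 := hpos _ _ ha
    refine Wt.sq iha ?_
    have h3 : 0 < ρ * ρ := mul_pos h1 h1
    calc lam * ρ * (lam * ρ) = lam * (lam * (ρ * ρ)) := by ring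
      _ ≤ lam * (1 * (ρ * ρ)) :=
        mul_le_mul_of_nonneg_left (mul_le_mul_of_nonneg_right hl1 h3.le) hl.le
      _ = lam * (ρ * ρ) := by ring
      _ ≤ lam * τ := mul_le_mul_of_nonneg_left h hl.le
  | @top ρ a h =>
    refine SCAM.all_wt _ _ (mul_pos hl (lt_of_lt_of_le one_pos h)) (fun i => ?_) a
    calc lam * w i ≤ lam * 1 := mul_le_mul_of_nonneg_left (hw1 i) hl.le
      _ ≤ lam * ρ := mul_le_mul_of_nonneg_left h hl.le

end Pool.Agent.Lib.MP166ce5.FR
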