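import Pool.Agent.Lib.MP_166ce5_al.FR.Spec

/-!
# Module SEQ: the infinite chain
-/

set_option autoImplicit false

namespace Pool.Agent.Lib.MP166ce5.FR

open FreeGroup

namespace SEQM

/-- the invariants of the recursion -/
structure Inv (d : ℕ) (s M₀ : ℝ) (j₀ k : ℕ) (L : Lv (FreeGroup (Fin d))) : Prop where
  hM : M₀ ≤ L.S.I
  pos : 0 < L.θ
  le : L.θ ≤ d
  eig : 1 ≤ L.θ ^ 8 * L.S.I
  tow : ((2 * d + 1 : ℕ) : ℝ) ^ (4 * tower k) ≤ L.S.I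
  pow : ∀ g : FreeGroup (Fin d), g ^ 2 ^ (j₀ + k) ∈ L.S.K
  gen : ∀ i, of i ∈ L.S.G s

lemma one_le_tower (k : ℕ) : 1 ≤ tower k := by
  cases k with
  | zero => exact le_refl 1
  | succ k => exact Nat.one_le_two_pow

/-- the first levels -/
lemma phase1 (hNE0 : SpecNE0) (hINI : SpecINI) (d : ℕ) (s : ℝ) (hs : 0 < s) (hs1 : s < 1)
    (hds : 1 < d * s) (j : ℕ) : ∃ L : Lv (FreeGroup (Fin d)),
    (∀ g : FreeGroup (Fin d), g ^ 2 ^ j ∈ L.S.K) ∧ (2 : ℝ) ^ j ≤ L.S.I ∧ L.θ = d * s - 1 ∧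
      ∀ i, of i ∈ L.S.G s := by
  induction j with
  | zero =>
    obtain ⟨L, h1, h2, _, h4, h5⟩ := hINI d s hs hs1.le
    exact ⟨L, fun g => by rw [h1]; exact Subgroup.mem_top _, by rw [h2]; norm_num, h4, h5⟩
  | succ j ih =>
    obtain ⟨L, h1, h2, h3, h4⟩ := ih
    obtain ⟨L', _, k2, _, k4, k5, k6⟩ := hNE0 _ L
    refine ⟨L', fun g => ?_, ?_, by rw [k5, h3], fun i => by rw [k4]; exact h4 i⟩
    · have := k2 _ (h1 g)
      rwa [← pow_add, ← two_mul, ← pow_succ'] at this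
    · refine le_trans ?_ k6
      have hI : (0 : ℝ) < L.S.I := lt_of_lt_of_le (by positivity) h2
      have hθ : 0 < L.θ := by rw [h3]; linarith
      have e1 : (2 : ℝ) ≤ (2 : ℝ) ^ (1 + L.S.I * L.θ) := by
        have : (2 : ℝ) ^ (1 : ℝ) ≤ (2 : ℝ) ^ (1 + L.S.I * L.θ) :=
          Real.rpow_le_rpow_of_exponent_le (by norm_num) (by nlinarith [mul_pos hI hθ])
        simpa using this
      rw [pow_succ]
      exact mul_le_mul h2 e1 (by norm_num) hI.le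

/-- one step -/
lemma step (hNEX : SpecNEX) (hWLI : SpecWLI) (d : ℕ) (s M₀ : ℝ) (hd : 2 ≤ d) (hs : 0 < s)
    (hM : ∀ (I θ : ℝ) (m : ℕ), M₀ ≤ I → 0 < θ →
      1 ≤ θ ^ 8 * I → ((2 * d + 1 : ℕ) : ℝ) ^ (4 * m) ≤ I →
      16 * ((2 * d + 1 : ℕ) : ℝ) ^ m / θ ^ 2 ≤ I ∧ ∀ I' θ' : ℝ,
        θ ^ 2 / (8 * ((2 * d + 1 : ℕ) : ℝ) ^ m) ≤ θ' →
        I * (2 : ℝ) ^ (1 + I * θ') ≤ I' → M₀ ≤ I' ∧ 2 * I ≤ I' ∧ 1 ≤ θ' ^ 8 * I' ∧
          ((2 * d + 1 : ℕ) : ℝ) ^ (4 * 2 ^ m) ≤ I') (j₀ k : ℕ)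
    (L : Lv (FreeGroup (Fin d))) (hL : Inv d s M₀ j₀ k L) :
    ∃ L' : Lv (FreeGroup (Fin d)), Inv d s M₀ j₀ (k + 1) L' ∧ L'.S.K ≤ L.S.K ∧
      (∀ g ∈ Len (tower k), g ^ 2 ^ (j₀ + k + 1) ∈ L'.R.map Prod.fst) ∧
      (∀ p ∈ L.R, p.1 ∈ L'.R.map Prod.fst) ∧ 2 * L.S.I ≤ L'.S.I := by
  obtain ⟨W, hW1, hW2⟩ := hWLI d (tower k)
  set q : ℝ := ((2 * d + 1 : ℕ) : ℝ) ^ tower k with hq
  have hb1 : (1 : ℝ) ≤ ((2 * d + 1 : ℕ) : ℝ) := by
    exact_mod_cast Nat.succ_le_of_lt (Nat.succ_pos _)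
  have hqb : ((2 * d + 1 : ℕ) : ℝ) ≤ q := by
    rw [hq]
    calc ((2 * d + 1 : ℕ) : ℝ) = ((2 * d + 1 : ℕ) : ℝ) ^ 1 := (pow_one _).symm
      _ ≤ _ := pow_le_pow_right₀ hb1 (one_le_tower k)
  obtain ⟨n1, n2⟩ := hM L.S.I L.θ (tower k) hL.hM hL.pos hL.eig hL.tow
  obtain ⟨L', a1, a2, a3, a4, a5, a6, a7, a8⟩ := hNEX _ L (W.map fun g => g ^ 2 ^ (j₀ + k)) q
    (by
      intro v hv
      rw [List.mem_map] at hv
      obtain ⟨g, _, rfl⟩ := hv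
      exact hL.pow g)
    (by
      rw [List.length_map, hq]
      exact_mod_cast hW1)
    hL.pos
    (by
      have h1 := hL.le
      have h2 : (d : ℝ) ≤ ((2 * d + 1 : ℕ) : ℝ) := by exact_mod_cast (by omega : d ≤ 2 * d + 1)
      have h3 : (0 : ℝ) ≤ q := le_trans (by positivity) hqb
      linarith) n1
  obtain ⟨c1, c2, c3, c4⟩ := n2 L'.S.I L'.θ a6 a8
  have hθ' : 0 < L'.θ := by
    refine lt_of_lt_of_le ?_ a6
    have := hL.pos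
    have hq0 : 0 < q := lt_of_lt_of_le (by positivity) hqb
    positivity
  refine ⟨L', ⟨c1, hθ', a7.trans hL.le, c3, c4, fun g => ?_, fun i => a5 s hs (hL.gen i)⟩, a1,
    fun g hg => ?_, a4, c2⟩
  · have := a2 _ (hL.pow g)
    rwa [← pow_add, ← two_mul, ← pow_succ'] at this
  · have := a3 (g ^ 2 ^ (j₀ + k)) (List.mem_map.2 ⟨g, hW2 g hg, rfl⟩)
    rwa [← pow_add, ← two_mul, ← pow_succ'] at this

end SEQM

open SEQM in
theorem specSEQ (hNEX : SpecNEX) (hNE0 : SpecNE0) (hINI : SpecINI) (hNUM : SpecNUM)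
    (hWLI : SpecWLI) (hCFI : SpecCFI) : SpecSEQ := by
  classical
  intro d s hd hs hs1 hds
  have hb2 : (2 : ℝ) ≤ ((2 * d + 1 : ℕ) : ℝ) := by exact_mod_cast (by omega : 2 ≤ 2 * d + 1)
  obtain ⟨M₀, hM1, hM⟩ := hNUM ((2 * d + 1 : ℕ) : ℝ) hb2
  set θ₀ : ℝ := d * s - 1 with hθ₀
  have hθ₀pos : 0 < θ₀ := by rw [hθ₀]; linarith
  -- the first levels
  obtain ⟨j₀, L₀, hL₀⟩ : ∃ (j₀ : ℕ) (L₀ : Lv (FreeGroup (Fin d))), Inv d s M₀ j₀ 0 L₀ := by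
    obtain ⟨j₀, hj₀⟩ := pow_unbounded_of_one_lt
      (max M₀ (max (1 / θ₀ ^ 8) (((2 * d + 1 : ℕ) : ℝ) ^ (4 * tower 0)))) (by norm_num : (1 : ℝ) < 2)
    obtain ⟨L, h1, h2, h3, h4⟩ := phase1 hNE0 hINI d s hs hs1 hds j₀
    have hI := hj₀.le.trans h2
    have e1 : M₀ ≤ L.S.I := (le_max_left _ _).trans hI
    have e2 : 1 / θ₀ ^ 8 ≤ L.S.I := ((le_max_left _ _).trans (le_max_right _ _)).trans hI
    have e3 : ((2 * d + 1 : ℕ) : ℝ) ^ (4 * tower 0) ≤ L.S.I :=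
      ((le_max_right _ _).trans (le_max_right _ _)).trans hI
    refine ⟨j₀, L, ⟨e1, by rw [h3]; exact hθ₀pos, ?_, ?_, e3, h1, h4⟩⟩
    · rw [h3]
      have : (d : ℝ) * s ≤ d * 1 := mul_le_mul_of_nonneg_left hs1.le (Nat.cast_nonneg _)
      linarith
    · rw [h3, ← hθ₀]
      rw [div_le_iff₀ (by positivity)] at e2
      linarith
  -- the recursion
  have hstep : ∀ (k : ℕ) (L : {L : Lv (FreeGroup (Fin d)) // Inv d s M₀ j₀ k L}),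
      ∃ L' : {L : Lv (FreeGroup (Fin d)) // Inv d s M₀ j₀ (k + 1) L}, L'.1.S.K ≤ L.1.S.K ∧
      (∀ g ∈ Len (tower k), g ^ 2 ^ (j₀ + k + 1) ∈ L'.1.R.map Prod.fst) ∧
      (∀ p ∈ L.1.R, p.1 ∈ L'.1.R.map Prod.fst) ∧ 2 * L.1.S.I ≤ L'.1.S.I := by
    rintro k ⟨L, hL⟩
    obtain ⟨L', h0, h1⟩ := step hNEX hWLI d s M₀ hd hs hM j₀ k L hL
    exact ⟨⟨L', h0⟩, h1⟩
  choose f hf using hstep
  obtain ⟨T, hT⟩ : ∃ T : ∀ k, {L : Lv (FreeGroup (Fin d)) // Inv d s M₀ j₀ k L},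
      ∀ k, T (k + 1) = f k (T k) :=
    ⟨fun k => Nat.rec (motive := fun k => {L : Lv (FreeGroup (Fin d)) // Inv d s M₀ j₀ k L})
      ⟨L₀, hL₀⟩ (fun k L => f k L) k, fun k => rfl⟩
  have hK : ∀ k, (T (k + 1)).1.S.K ≤ (T k).1.S.K := fun k => by rw [hT]; exact (hf k (T k)).1
  have hKm0 : Antitone fun k => (T k).1.S.K := antitone_nat_of_succ_le hK
  have hKm : ∀ i j, i ≤ j → (T j).1.S.K ≤ (T i).1.S.K := fun i j hij => hKm0 hij
  have hI : ∀ k, (2 : ℝ) ^ k ≤ (T k).1.S.I := by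
    intro k
    induction k with
    | zero => simpa using hM1.trans (T 0).2.hM
    | succ k ih =>
      rw [hT, pow_succ']
      exact (mul_le_mul_of_nonneg_left ih (by norm_num)).trans (hf k (T k)).2.2.2
  have hR : ∀ k, ∀ g ∈ Len (tower k), ∀ m, k + 1 ≤ m →
      g ^ 2 ^ (j₀ + k + 1) ∈ (T m).1.R.map Prod.fst := by
    intro k g hg m hm
    induction m, hm using Nat.le_induction with
    | base => rw [hT]; exact (hf k (T k)).2.1 g hg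
    | succ m hm ih =>
      rw [List.mem_map] at ih
      obtain ⟨p, hp, hpg⟩ := ih
      rw [hT, ← hpg]
      exact (hf m (T m)).2.2.1 p hp
  have hRK : ∀ m (g : FreeGroup (Fin d)), g ∈ (T m).1.R.map Prod.fst → g ∈ (T m).1.S.K := by
    intro m g hg
    rw [List.mem_map] at hg
    obtain ⟨p, hp, rfl⟩ := hg
    exact ((T m).1.hR p hp).2.2
  let N : ℕ → Subgroup (FreeGroup (Fin d)) := fun j =>
    if j < j₀ then ⊤ else (T (j - j₀)).1.S.K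
  have hN1 : ∀ j, j < j₀ → N j = ⊤ := fun j hj => if_pos hj
  have hN2 : ∀ j, ¬ j < j₀ → N j = (T (j - j₀)).1.S.K := fun j hj => if_neg hj
  refine ⟨N, j₀ + 1, ?_, fun j => ?_, fun j => ?_, fun j g => ?_, fun k j g hg => ?_, fun B => ?_⟩
  · intro i j hij
    by_cases hi : i < j₀
    · rw [hN1 i hi]; exact le_top
    · rw [hN2 i hi, hN2 j (by omega)]
      exact hKm _ _ (by omega)
  · by_cases hj : j < j₀
    · rw [hN1 j hj]; infer_instance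
    · rw [hN2 j hj]; exact (T (j - j₀)).1.nor
  · by_cases hj : j < j₀
    · rw [hN1 j hj]; infer_instance
    · rw [hN2 j hj]
      exact (hCFI _ _ _ _ (T (j - j₀)).1.S.chain).1
  · by_cases hj : j < j₀
    · rw [hN1 j hj]; exact Subgroup.mem_top _
    · rw [hN2 j hj]
      have := (T (j - j₀)).2.pow g
      rwa [show j₀ + (j - j₀) = j by omega] at this
  · by_cases hj : j < j₀
    · rw [hN1 j hj]; exact Subgroup.mem_top _
    · rw [hN2 j hj]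
      rw [show k + (j₀ + 1) = j₀ + k + 1 by omega]
      by_cases hc : k + 1 ≤ j - j₀
      · exact hRK (j - j₀) _ (hR k g hg (j - j₀) hc)
      · have h1 : j - j₀ ≤ k + 1 := by omega
        have h2 := hRK (k + 1) _ (hR k g hg (k + 1) le_rfl)
        have h3 := hKm (j - j₀) (k + 1) h1
        exact h3 h2
  · obtain ⟨k, hk⟩ := pow_unbounded_of_one_lt B (by norm_num : (1 : ℝ) < 2)
    refine ⟨j₀ + k, (T k).1.S, ?_, (T k).2.gen, hk.le.trans (hI k)⟩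
    rw [hN2 _ (by omega), show j₀ + k - j₀ = k by omega]

end Pool.Agent.Lib.MP166ce5.FR
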