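import Pool.Agent.Lib.MP_166ce5_al.FR.Spec

/-!
# STG: rescaling of a state (MP_166ce5_al)
-/

set_option autoImplicit false

namespace Pool.Agent.Lib.MP166ce5.FR

open FreeGroup

namespace STGM

/-- the elements of an N-series are normal subgroups -/
theorem nser_normal {F : Type} [Group F] {G : ℝ → Subgroup F} (h : IsNSer G) {ρ : ℝ} (hρ : 0 < ρ) :
    (G ρ).Normal := by
  refine ⟨fun a ha b => ?_⟩
  have hb : b ∈ G 1 := by rw [h.top 1 le_rfl]; trivial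
  have h1 := h.comm 1 ρ b a one_pos hρ hb ha
  rw [one_mul] at h1
  have h2 : b * a * b⁻¹ = (b * a * b⁻¹ * a⁻¹) * a := by group
  rw [h2]
  exact mul_mem h1 ha

theorem comm_iff {F : Type} [Group F] (N : Subgroup F) [N.Normal] (x y : F) :
    x * y * x⁻¹ * y⁻¹ ∈ N ↔ Commute (x : F ⧸ N) (y : F ⧸ N) := by
  rw [← QuotientGroup.eq_one_iff]
  constructor
  · intro h
    have h' : (x : F ⧸ N) * (y : F ⧸ N) * (x : F ⧸ N)⁻¹ * (y : F ⧸ N)⁻¹ = 1 := h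
    rw [mul_inv_eq_one, mul_inv_eq_iff_eq_mul] at h'
    exact h'
  · intro h
    have h' : (x : F ⧸ N) * (y : F ⧸ N) = (y : F ⧸ N) * (x : F ⧸ N) := h
    change (x : F ⧸ N) * (y : F ⧸ N) * (x : F ⧸ N)⁻¹ * (y : F ⧸ N)⁻¹ = 1
    rw [h']
    group

section

variable {F : Type} [Group F] (S : St F) (lam : ℝ)

/-- the new weights -/
noncomputable abbrev w' : S.ι → ℝ := fun i => lam * S.w i

/-- the rescaled filtration of `K` -/
noncomputable def D' (ρ : ℝ) : Subgroup F := (Dg of (w' S lam) ρ).map S.e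

/-- the new N-series -/
noncomputable def G' (ρ : ℝ) : Subgroup F := S.G ρ ⊔ D' S lam ρ

variable {S lam}

theorem mem_D' (hWTB : SpecWTB) (h0 : 0 < lam) {ρ : ℝ} (hρ : 0 < ρ) (x : F) :
    x ∈ D' S lam ρ ↔ ∃ u, Wt of (w' S lam) ρ u ∧ S.e u = x := by
  have hw : ∀ i, 0 < w' S lam i := fun i => mul_pos h0 (S.w0 i)
  have h3 := (hWTB (FreeGroup S.ι) S.ι of (w' S lam) hw).2.2.1
  unfold D'
  rw [Subgroup.mem_map]
  constructor
  · rintro ⟨u, hu, rfl⟩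
    exact ⟨u, (h3 ρ u hρ).1 hu, rfl⟩
  · rintro ⟨u, hu, rfl⟩
    exact ⟨u, (h3 ρ u hρ).2 hu, rfl⟩

theorem D'_normal (hWTB : SpecWTB) (hCMM : SpecCMM) (hK : S.K.Normal) (h0 : 0 < lam) (h1 : lam ≤ 1)
    {ρ : ℝ} (hρ : 0 < ρ) : (D' S lam ρ).Normal := by
  refine ⟨fun a ha g => ?_⟩
  obtain ⟨u, hu, rfl⟩ := (mem_D' hWTB h0 hρ a).1 ha
  have hg : g ∈ S.G 1 := by rw [S.ser.top 1 le_rfl]; trivial
  obtain ⟨v, hv, hve⟩ := hCMM F S hK lam h0 h1 1 ρ one_pos hρ g hg u hu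
  rw [one_mul] at hv
  have h2 : g * S.e u * g⁻¹ = (g * S.e u * g⁻¹ * (S.e u)⁻¹) * S.e u := by group
  rw [h2, ← hve]
  exact mul_mem ((mem_D' hWTB h0 hρ _).2 ⟨v, hv, rfl⟩) ha

theorem mem_G' (hWTB : SpecWTB) (hCMM : SpecCMM) (hK : S.K.Normal) (h0 : 0 < lam) (h1 : lam ≤ 1)
    {ρ : ℝ} (hρ : 0 < ρ) (x : F) :
    x ∈ G' S lam ρ ↔ ∃ g ∈ S.G ρ, ∃ u, Wt of (w' S lam) ρ u ∧ g * S.e u = x := by
  have := D'_normal hWTB hCMM hK h0 h1 hρ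
  unfold G'
  rw [Subgroup.mem_sup_of_normal_right]
  constructor
  · rintro ⟨g, hg, d, hd, rfl⟩
    obtain ⟨u, hu, rfl⟩ := (mem_D' hWTB h0 hρ d).1 hd
    exact ⟨g, hg, u, hu, rfl⟩
  · rintro ⟨g, hg, u, hu, rfl⟩
    exact ⟨g, hg, S.e u, (mem_D' hWTB h0 hρ _).2 ⟨u, hu, rfl⟩, rfl⟩

theorem G'_normal (hWTB : SpecWTB) (hCMM : SpecCMM) (hK : S.K.Normal) (h0 : 0 < lam) (h1 : lam ≤ 1)
    {ρ : ℝ} (hρ : 0 < ρ) : (G' S lam ρ).Normal := by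
  have := D'_normal hWTB hCMM hK h0 h1 hρ
  have := nser_normal S.ser hρ
  unfold G'
  infer_instance

theorem G'_ser (hWTB : SpecWTB) (hCMM : SpecCMM) (hK : S.K.Normal) (h0 : 0 < lam) (h1 : lam ≤ 1) :
    IsNSer (G' S lam) := by
  have hw : ∀ i, 0 < w' S lam i := fun i => mul_pos h0 (S.w0 i)
  have hb := hWTB (FreeGroup S.ι) S.ι of (w' S lam) hw
  refine ⟨?_, ?_, ?_, ?_⟩
  · intro ρ σ hρ hρσ
    refine sup_le_sup (S.ser.mono ρ σ hρ hρσ) ?_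
    intro x hx
    obtain ⟨u, hu, rfl⟩ := (mem_D' hWTB h0 hρ x).1 hx
    exact (mem_D' hWTB h0 (hρ.trans_le hρσ) _).2 ⟨u, hb.2.1 _ _ _ hu hρσ, rfl⟩
  · intro ρ hρ
    unfold G'
    rw [S.ser.top ρ hρ, top_sup_eq]
  · intro ρ σ a b hρ hσ ha hb'
    have hρσ : 0 < ρ * σ := mul_pos hρ hσ
    obtain ⟨g, hg, u, hu, rfl⟩ := (mem_G' hWTB hCMM hK h0 h1 hρ a).1 ha
    obtain ⟨g', hg', u', hu', rfl⟩ := (mem_G' hWTB hCMM hK h0 h1 hσ b).1 hb'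
    have := G'_normal (S := S) hWTB hCMM hK h0 h1 hρσ
    have hD : ∀ x ∈ D' S lam (ρ * σ), x ∈ G' S lam (ρ * σ) := fun x hx =>
      (le_sup_right : D' S lam (ρ * σ) ≤ G' S lam (ρ * σ)) hx
    have c1 : Commute (g : F ⧸ G' S lam (ρ * σ)) (g' : F ⧸ G' S lam (ρ * σ)) := by
      rw [← comm_iff]
      exact (le_sup_left : S.G (ρ * σ) ≤ G' S lam (ρ * σ)) (S.ser.comm ρ σ g g' hρ hσ hg hg')
    have c2 : Commute (g : F ⧸ G' S lam (ρ * σ)) ((S.e u' : F) : F ⧸ G' S lam (ρ * σ)) := by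
      rw [← comm_iff]
      obtain ⟨v, hv, hve⟩ := hCMM F S hK lam h0 h1 ρ σ hρ hσ g hg u' hu'
      exact hD _ ((mem_D' hWTB h0 hρσ _).2 ⟨v, hv, hve⟩)
    have c3 : Commute ((S.e u : F) : F ⧸ G' S lam (ρ * σ)) (g' : F ⧸ G' S lam (ρ * σ)) := by
      refine Commute.symm ?_
      rw [← comm_iff]
      obtain ⟨v, hv, hve⟩ := hCMM F S hK lam h0 h1 σ ρ hσ hρ g' hg' u hu
      rw [mul_comm σ ρ] at hv
      exact hD _ ((mem_D' hWTB h0 hρσ _).2 ⟨v, hv, hve⟩)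
    have c4 : Commute ((S.e u : F) : F ⧸ G' S lam (ρ * σ))
        ((S.e u' : F) : F ⧸ G' S lam (ρ * σ)) := by
      rw [← comm_iff]
      refine hD _ ((mem_D' hWTB h0 hρσ _).2 ⟨u * u' * u⁻¹ * u'⁻¹, Wt.comm hu hu' le_rfl, ?_⟩)
      rw [MonoidHom.map_mul, MonoidHom.map_mul, MonoidHom.map_mul, MonoidHom.map_inv, MonoidHom.map_inv]
    rw [comm_iff]
    exact (c1.mul_right c2).mul_left (c3.mul_right c4)
  · intro ρ a hρ ha
    have hρρ : 0 < ρ * ρ := mul_pos hρ hρ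
    obtain ⟨g, hg, u, hu, rfl⟩ := (mem_G' hWTB hCMM hK h0 h1 hρ a).1 ha
    have hD : ∀ x ∈ D' S lam (ρ * ρ), x ∈ G' S lam (ρ * ρ) := fun x hx =>
      (le_sup_right : D' S lam (ρ * ρ) ≤ G' S lam (ρ * ρ)) hx
    obtain ⟨v, hv, hve⟩ := hCMM F S hK lam h0 h1 ρ ρ hρ hρ g⁻¹ (inv_mem hg) u hu
    have e1 : g * S.e u * (g * S.e u) = g * g * S.e v * (S.e (u * u)) := by
      rw [hve, MonoidHom.map_mul]
      group
    rw [e1]
    refine mul_mem (mul_mem ?_ ?_) ?_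
    · exact (le_sup_left : S.G (ρ * ρ) ≤ G' S lam (ρ * ρ)) (S.ser.sq ρ g hρ hg)
    · exact hD _ ((mem_D' hWTB h0 hρρ _).2 ⟨v, hv, rfl⟩)
    · exact hD _ ((mem_D' hWTB h0 hρρ _).2 ⟨u * u, Wt.sq hu le_rfl, rfl⟩)

theorem chain' (hWTB : SpecWTB) (hCMM : SpecCMM) (hK : S.K.Normal) (h0 : 0 < lam) (h1 : lam ≤ 1)
    {K' : Subgroup F} {l : List (F × ℝ)} (h : Chain S.G K' l) :
    S.K ≤ K' → Chain (G' S lam) K' l := by
  induction h with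
  | nil => exact fun _ => Chain.nil
  | @cons K K' l t c hl hK' ht ht' h2 hc hc1 htc hlt ih =>
    intro hle
    refine Chain.cons t c (ih (hle.trans hK')) hK' ht ht' h2 hc hc1
      ((le_sup_left : S.G c ≤ G' S lam c) htc) ?_
    intro ρ hρ hρc x hx hxG
    obtain ⟨g, hg, u, hu, rfl⟩ := (mem_G' hWTB hCMM hK h0 h1 hρ x).1 hxG
    have hu' : S.e u ∈ K' := hle ⟨u, rfl⟩
    have hgK : g ∈ K := by
      have : g = g * S.e u * (S.e u)⁻¹ := by group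
      rw [this]
      exact mul_mem hx (inv_mem (hK' hu'))
    exact mul_mem (hlt ρ hρ hρc g hgK hg) hu'

end

end STGM

open STGM in
theorem specSTG (hWTB : SpecWTB) (hSCA : SpecSCA) (hCMM : SpecCMM) : SpecSTG := by
  intro F _ S hK lam h0 h1
  have hw : ∀ i, 0 < w' S lam i := fun i => mul_pos h0 (S.w0 i)
  have hb := hWTB (FreeGroup S.ι) S.ι of (w' S lam) hw
  have hmem : ∀ ρ, 0 < ρ → ∀ u, S.e u ∈ G' S lam ρ ↔ Wt of (w' S lam) ρ u := by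
    intro ρ hρ u
    constructor
    · intro h
      obtain ⟨g, hg, u', hu', h2⟩ := (mem_G' hWTB hCMM hK h0 h1 hρ _).1 h
      have h3 : g = S.e (u * u'⁻¹) := by
        rw [MonoidHom.map_mul, MonoidHom.map_inv, ← h2]
        group
      rw [h3, S.mem ρ hρ] at hg
      have h4 := hSCA S.ι S.w lam h0 h1 S.w0 S.w1 ρ _ hg
      have h5 : Wt of (w' S lam) ρ (u * u'⁻¹) :=
        hb.2.1 _ _ _ h4 (mul_le_of_le_one_left hρ.le h1)
      have h6 := Wt.mul h5 hu'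
      rwa [inv_mul_cancel_right] at h6
    · intro h
      exact (le_sup_right : D' S lam ρ ≤ G' S lam ρ) ((mem_D' hWTB h0 hρ _).2 ⟨u, h, rfl⟩)
  have hw1 : ∀ i, w' S lam i ≤ 1 := fun i => mul_le_one₀ h1 (S.w0 i).le (S.w1 i)
  refine ⟨St.mk S.ι S.fin S.dec S.e S.inj (w' S lam) hw hw1 (G' S lam)
    (G'_ser hWTB hCMM hK h0 h1) hmem S.l (chain' hWTB hCMM hK h0 h1 S.chain le_rfl),
    rfl, ?_, rfl, ?_, ?_, ?_⟩
  · unfold St.A
    simp only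
    rw [← Finset.mul_sum]
    ring
  · intro ρ _
    exact le_sup_left
  · rintro ρ r hρ ⟨u, rfl⟩ hr
    have h4 := hSCA S.ι S.w lam h0 h1 S.w0 S.w1 ρ _ ((S.mem ρ hρ u).1 hr)
    exact (hmem (lam * ρ) (mul_pos h0 hρ) u).2 h4
  · rintro v ⟨u, rfl⟩
    have h4 := hSCA S.ι S.w lam h0 h1 S.w0 S.w1 1 u (Wt.top u le_rfl)
    rw [mul_one] at h4
    rw [← MonoidHom.map_mul]
    exact (hmem (lam * lam) (mul_pos h0 h0) _).2 (Wt.sq h4 le_rfl)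

end Pool.Agent.Lib.MP166ce5.FR
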