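import Pool.Agent.Lib.MP_166ce5_al.FR.Spec

/-!
# STP: the filtration of the kernel
-/

set_option autoImplicit false

namespace Pool.Agent.Lib.MP166ce5.FR

open FreeGroup

namespace STPM

theorem conj {K ι : Type} [Group K] {y : ι → K} {w : ι → ℝ} {ρ : ℝ} {v : K} (x : K)
    (hv : Wt y w ρ v) : Wt y w ρ (x * v * x⁻¹) := by
  have h1 : Wt y w ρ (x * v * x⁻¹ * v⁻¹) := Wt.comm (Wt.top x le_rfl) hv (by rw [one_mul])
  have h2 := Wt.mul h1 hv
  rwa [inv_mul_cancel_right] at h2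

theorem jx_none {ι : Type} (i₀ : ι) : jx i₀ (of none) = of i₀ * of i₀ := by
  simp [jx, gx]

theorem jx_false {ι : Type} (i₀ : ι) (i : {i : ι // i ≠ i₀}) :
    jx i₀ (of (some (i, false))) = of i.1 := by
  simp [jx, gx]

theorem back {ι : Type} (w : ι → ℝ) (i₀ : ι) (ρ : ℝ) (v : FreeGroup (Nx i₀))
    (h : Wt of (wx w i₀) ρ v) : Wt of w ρ (jx i₀ v) := by
  induction h with
  | @gen ρ i h =>
    rcases i with _ | ⟨i, b⟩
    · rw [jx_none]
      exact Wt.sq (Wt.gen i₀ le_rfl) h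
    · rcases b with _ | _
      · rw [jx_false]
        exact Wt.gen i.1 h
      · have : jx i₀ (of (some (i, true))) = of i₀ * of i.1 * (of i₀)⁻¹ * (of i.1)⁻¹ := by
          simp [jx, gx]
        rw [this]
        refine Wt.comm (Wt.gen i₀ le_rfl) (Wt.gen i.1 le_rfl) ?_
        rw [mul_comm]
        exact h
  | one h => rw [_root_.map_one]; exact Wt.one h
  | mul _ _ iha ihb => rw [_root_.map_mul]; exact Wt.mul iha ihb
  | inv _ iha => rw [_root_.map_inv]; exact Wt.inv iha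
  | comm _ _ h iha ihb =>
    rw [_root_.map_mul, _root_.map_mul, _root_.map_mul, _root_.map_inv, _root_.map_inv]; exact Wt.comm iha ihb h
  | sq _ h iha => rw [_root_.map_mul]; exact Wt.sq iha h
  | top a h => exact Wt.top _ h

theorem fwd (hWTB : SpecWTB) (hFRR : SpecFRR) (hDEL : SpecDEL) {ι : Type} [DecidableEq ι]
    (w : ι → ℝ) (i₀ : ι) (w0 : ∀ i, 0 < w i) (w1 : ∀ i, w i ≤ 1) (ρ : ℝ) (u : FreeGroup ι)
    (h : Wt of w ρ u) : ∃ v, Wt of (wx w i₀) ρ v ∧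
      (u = jx i₀ v ∨ (w i₀ ≤ ρ ∧ u = jx i₀ v * of i₀)) := by
  have wx0 : ∀ i, 0 < wx w i₀ i := by
    rintro (_ | ⟨i, _ | _⟩)
    · exact mul_pos (w0 _) (w0 _)
    · exact w0 _
    · exact mul_pos (w0 _) (w0 _)
  obtain ⟨pos, mono, -, -, -⟩ := hWTB (FreeGroup (Nx i₀)) (Nx i₀) of (wx w i₀) wx0
  obtain ⟨hr, ht, -⟩ := hFRR ι i₀
  have hdel := hDEL ι w i₀ w0 w1
  set c := w i₀ with hc
  have c0 : 0 < c := w0 i₀
  have c1 : c ≤ 1 := w1 i₀
  have hτ : ∀ ρ v, Wt of (wx w i₀) ρ v → Wt of (wx w i₀) ρ (tx i₀ v) := by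
    intro ρ v hv
    have h1 := hdel ρ v hv
    have h0 := pos ρ v hv
    have h2 : Wt of (wx w i₀) ρ (tx i₀ v * v⁻¹) := mono _ _ _ h1 (by nlinarith)
    have h3 := Wt.mul h2 hv
    rwa [inv_mul_cancel_right] at h3
  have hs : Wt of (wx w i₀) (c * c) (of (none : Nx i₀)) := Wt.gen none le_rfl
  have jt : ∀ v, of i₀ * jx i₀ v = jx i₀ (tx i₀ v) * of i₀ := by
    intro v
    rw [ht, inv_mul_cancel_right]
  have js : jx i₀ (of none) = of i₀ * of i₀ := jx_none i₀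
  induction h with
  | @gen ρ i h =>
    by_cases hi : i = i₀
    · subst hi
      exact ⟨1, Wt.one (lt_of_lt_of_le (w0 i) h), Or.inr ⟨h, by rw [_root_.map_one, one_mul]⟩⟩
    · refine ⟨of (some (⟨i, hi⟩, false)), Wt.gen _ h, Or.inl ?_⟩
      rw [jx_false]
  | one h => exact ⟨1, Wt.one h, Or.inl (by rw [_root_.map_one])⟩
  | @mul ρ a b _ _ iha ihb =>
    obtain ⟨g, hg, ea⟩ := iha
    obtain ⟨h, hh, eb⟩ := ihb
    rcases ea with rfl | ⟨hcρ, rfl⟩ <;> rcases eb with rfl | ⟨hcρ', rfl⟩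
    · exact ⟨g * h, Wt.mul hg hh, Or.inl (by rw [_root_.map_mul])⟩
    · exact ⟨g * h, Wt.mul hg hh, Or.inr ⟨hcρ', by rw [_root_.map_mul, mul_assoc]⟩⟩
    · refine ⟨g * tx i₀ h, Wt.mul hg (hτ _ _ hh), Or.inr ⟨hcρ, ?_⟩⟩
      rw [mul_assoc, jt, _root_.map_mul, mul_assoc]
    · refine ⟨g * tx i₀ h * of none, Wt.mul (Wt.mul hg (hτ _ _ hh)) (mono _ _ _ hs ?_),
        Or.inl ?_⟩
      · nlinarith
      · rw [_root_.map_mul, _root_.map_mul, js]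
        calc jx i₀ g * of i₀ * (jx i₀ h * of i₀) = jx i₀ g * (of i₀ * jx i₀ h) * of i₀ := by group
          _ = jx i₀ g * (jx i₀ (tx i₀ h) * of i₀) * of i₀ := by rw [jt]
          _ = _ := by group
  | @inv ρ a ha iha =>
    obtain ⟨g, hg, ea⟩ := iha
    rcases ea with rfl | ⟨hcρ, rfl⟩
    · exact ⟨g⁻¹, Wt.inv hg, Or.inl (by rw [_root_.map_inv])⟩
    · refine ⟨(of none)⁻¹ * tx i₀ g⁻¹, Wt.mul (Wt.inv (mono _ _ _ hs ?_)) (hτ _ _ (Wt.inv hg)),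
        Or.inr ⟨hcρ, ?_⟩⟩
      · nlinarith
      · rw [_root_.map_mul, _root_.map_inv, js, mul_assoc, ← jt, _root_.map_inv]
        group
  | @comm ρ σ τ a b ha hb hρσ iha ihb =>
    obtain ⟨g, hg, ea⟩ := iha
    obtain ⟨h, hh, eb⟩ := ihb
    have ρ0 := pos _ _ hg
    have σ0 := pos _ _ hh
    have hgh : Wt of (wx w i₀) τ (g * h * g⁻¹ * h⁻¹) := Wt.comm hg hh hρσ
    have dh : c ≤ ρ → Wt of (wx w i₀) τ (g * (tx i₀ h * h⁻¹) * g⁻¹) := fun hcρ =>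
      conj _ (mono _ _ _ (hdel _ _ hh) (le_trans (by nlinarith) hρσ))
    have dg : c ≤ σ → Wt of (wx w i₀) τ (g * h * (tx i₀ g⁻¹ * (g⁻¹)⁻¹) * (g * h)⁻¹) := fun hcσ =>
      conj _ (mono _ _ _ (hdel _ _ (Wt.inv hg)) (le_trans (by nlinarith) hρσ))
    rcases ea with rfl | ⟨hcρ, rfl⟩ <;> rcases eb with rfl | ⟨hcσ, rfl⟩
    · exact ⟨_, hgh, Or.inl (by simp only [_root_.map_mul, _root_.map_inv])⟩
    · refine ⟨_, Wt.mul (dg hcσ) hgh, Or.inl ?_⟩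
      simp only [_root_.map_mul, _root_.map_inv, ht]
      group
    · refine ⟨_, Wt.mul (dh hcρ) hgh, Or.inl ?_⟩
      simp only [_root_.map_mul, _root_.map_inv, ht]
      group
    · refine ⟨_, Wt.mul (dh hcρ) (Wt.mul (dg hcσ) hgh), Or.inl ?_⟩
      simp only [_root_.map_mul, _root_.map_inv, ht]
      group
  | @sq ρ τ a ha hρ iha =>
    obtain ⟨g, hg, ea⟩ := iha
    have ρ0 := pos _ _ hg
    rcases ea with rfl | ⟨hcρ, rfl⟩
    · exact ⟨g * g, Wt.sq hg hρ, Or.inl (by rw [_root_.map_mul])⟩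
    · refine ⟨g * (tx i₀ g * g⁻¹) * g⁻¹ * (g * g) * of none, Wt.mul (Wt.mul (conj _
        (mono _ _ _ (hdel _ _ hg) (le_trans (by nlinarith) hρ))) (Wt.sq hg hρ))
        (mono _ _ _ hs (le_trans (by nlinarith) hρ)), Or.inl ?_⟩
      simp only [_root_.map_mul, _root_.map_inv, ht, js]
      group
  | @top ρ u h =>
    by_cases hu : par i₀ u = 1
    · obtain ⟨v, hv⟩ := (hr u).2 hu
      exact ⟨v, Wt.top v h, Or.inl hv.symm⟩
    · have h1 : par i₀ (u * (of i₀)⁻¹) = 1 := by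
        have h2 : par i₀ (of i₀ : FreeGroup ι) = Multiplicative.ofAdd 1 := by simp [par]
        rw [_root_.map_mul, _root_.map_inv, h2]
        generalize par i₀ u = x at hu ⊢
        revert x
        decide
      obtain ⟨v, hv⟩ := (hr _).2 h1
      exact ⟨v, Wt.top v h, Or.inr ⟨c1.trans h, by rw [hv, inv_mul_cancel_right]⟩⟩

end STPM

theorem specSTP (hWTB : SpecWTB) (hFRI : SpecFRI) (hFRR : SpecFRR) (hDEL : SpecDEL) : SpecSTP := by
  intro ι _ w i₀ w0 w1 ρ hρ v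
  refine ⟨fun h => ?_, STPM.back w i₀ ρ v⟩
  obtain ⟨v', hv', e⟩ := STPM.fwd hWTB hFRR hDEL w i₀ w0 w1 ρ _ h
  rcases e with e | ⟨-, e⟩
  · rw [hFRI ι i₀ e]
    exact hv'
  · exfalso
    have h1 : par i₀ (jx i₀ v) = 1 := ((hFRR ι i₀).1 _).1 ⟨v, rfl⟩
    have h2 : par i₀ (jx i₀ v') = 1 := ((hFRR ι i₀).1 _).1 ⟨v', rfl⟩
    have h3 : par i₀ (of i₀ : FreeGroup ι) = Multiplicative.ofAdd 1 := by simp [par]
    rw [e, _root_.map_mul, h2, h3, one_mul] at h1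
    exact absurd h1 (by decide)

end Pool.Agent.Lib.MP166ce5.FR
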