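import Pool.Agent.Lib.MP_166ce5_al.FR.Spec

/-!
# Module VEC: homomorphisms to the group of order two depend on the parities only
-/

set_option autoImplicit false

namespace Pool.Agent.Lib.MP166ce5.FR

namespace VECM

/-- The value of a homomorphism to the group of order two as a linear form of the parities. -/
private lemma form {ι : Type} [Fintype ι] [DecidableEq ι]
    (φ : FreeGroup ι →* Multiplicative (ZMod 2)) (u : FreeGroup ι) :
    Multiplicative.toAdd (φ u) =
      ∑ i, Multiplicative.toAdd (par i u) * Multiplicative.toAdd (φ (FreeGroup.of i)) := by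
  let ψ : FreeGroup ι →* Multiplicative (ZMod 2) :=
    { toFun := fun u => Multiplicative.ofAdd
        (∑ i, Multiplicative.toAdd (par i u) * Multiplicative.toAdd (φ (FreeGroup.of i)))
      map_one' := by
        simp only [map_one, toAdd_one, zero_mul, Finset.sum_const_zero, ofAdd_zero]
      map_mul' := fun a b => by
        simp only [map_mul, toAdd_mul, add_mul, Finset.sum_add_distrib, ofAdd_add] }
  have h : φ = ψ := by
    apply FreeGroup.ext_hom
    intro j
    have h1 : ∀ i, Multiplicative.toAdd (par i (FreeGroup.of j)) * Multiplicative.toAdd (φ (FreeGroup.of i)) =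
        if i = j then Multiplicative.toAdd (φ (FreeGroup.of j)) else 0 := by
      intro i
      unfold par
      rw [FreeGroup.lift_apply_of]
      by_cases hij : i = j
      · subst hij
        simp
      · have hji : ¬ j = i := fun h => hij h.symm
        simp [hij, hji]
    change φ (FreeGroup.of j) = Multiplicative.ofAdd
        (∑ i, Multiplicative.toAdd (par i (FreeGroup.of j)) * Multiplicative.toAdd (φ (FreeGroup.of i)))
    rw [Finset.sum_congr rfl fun i _ => h1 i]
    simp
  have h2 : φ u = ψ u := by rw [h]
  rw [h2]
  rfl

end VECM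

theorem specVEC : SpecVEC := by
  intro ι _ _ φ E hE u hu
  let ℓ : (ι → ZMod 2) →ₗ[ZMod 2] ZMod 2 :=
    { toFun := fun v => ∑ i, v i * Multiplicative.toAdd (φ (FreeGroup.of i))
      map_add' := fun v w => by
        simp only [Pi.add_apply, add_mul, Finset.sum_add_distrib]
      map_smul' := fun c v => by
        simp only [Pi.smul_apply, smul_eq_mul, RingHom.id_apply, Finset.mul_sum, mul_assoc] }
  have key : Submodule.span (ZMod 2)
      {v : ι → ZMod 2 | ∃ u' ∈ E, v = fun i => Multiplicative.toAdd (par i u')} ≤
      LinearMap.ker ℓ := by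
    rw [Submodule.span_le]
    rintro v ⟨u', hu', rfl⟩
    have h1 := VECM.form φ u'
    rw [hE u' hu'] at h1
    change ℓ (fun i => Multiplicative.toAdd (par i u')) = 0
    exact h1.symm
  have h2 := key hu
  have h3 : ∑ i, Multiplicative.toAdd (par i u) * Multiplicative.toAdd (φ (FreeGroup.of i)) = 0 := h2
  have h4 := VECM.form φ u
  rw [h3] at h4
  exact Multiplicative.toAdd.injective (h4.trans toAdd_one.symm)

end Pool.Agent.Lib.MP166ce5.FR
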