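import Pool.Agent.Lib.MP_166ce5_al.FR.WTB
import Pool.Agent.Lib.MP_166ce5_al.FR.ABS
import Pool.Agent.Lib.MP_166ce5_al.FR.LIN
import Pool.Agent.Lib.MP_166ce5_al.FR.SCA
import Pool.Agent.Lib.MP_166ce5_al.FR.FRI
import Pool.Agent.Lib.MP_166ce5_al.FR.FRR
import Pool.Agent.Lib.MP_166ce5_al.FR.DEL
import Pool.Agent.Lib.MP_166ce5_al.FR.STP
import Pool.Agent.Lib.MP_166ce5_al.FR.NXT
import Pool.Agent.Lib.MP_166ce5_al.FR.ITR
import Pool.Agent.Lib.MP_166ce5_al.FR.BAS
import Pool.Agent.Lib.MP_166ce5_al.FR.LAL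
import Pool.Agent.Lib.MP_166ce5_al.FR.EXP
import Pool.Agent.Lib.MP_166ce5_al.FR.VEC
import Pool.Agent.Lib.MP_166ce5_al.FR.POW
import Pool.Agent.Lib.MP_166ce5_al.FR.CFI
import Pool.Agent.Lib.MP_166ce5_al.FR.LEV
import Pool.Agent.Lib.MP_166ce5_al.FR.CMM
import Pool.Agent.Lib.MP_166ce5_al.FR.STG
import Pool.Agent.Lib.MP_166ce5_al.FR.NEX
import Pool.Agent.Lib.MP_166ce5_al.FR.NE0
import Pool.Agent.Lib.MP_166ce5_al.FR.INI
import Pool.Agent.Lib.MP_166ce5_al.FR.NUM
import Pool.Agent.Lib.MP_166ce5_al.FR.WLI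
import Pool.Agent.Lib.MP_166ce5_al.FR.SEQ
import Pool.Agent.Lib.MP_166ce5_al.FR.JAU
import Pool.Agent.Lib.MP_166ce5_al.FR.JAD
import Pool.Agent.Lib.MP_166ce5_al.FR.JEA
import Pool.Agent.Lib.MP_166ce5_al.FR.JEB
import Pool.Agent.Lib.MP_166ce5_al.FR.JEC
import Pool.Agent.Lib.MP_166ce5_al.FR.GRW
import Pool.Agent.Lib.MP_166ce5_al.FR.MAIN

/-!
# Assembly
-/

set_option autoImplicit false

namespace Pool.Agent.Lib.MP166ce5.FR

theorem mainFR : SpecMAIN := by
  have sca := specSCA specWTB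
  have del := specDEL specWTB specABS
  have stp := specSTP specWTB specFRI specFRR del
  have nxt := specNXT specLIN specFRI specFRR stp
  have itr := specITR nxt
  have bas := specBAS specWTB
  have lev := specLEV specLIN itr bas specLAL specEXP specVEC specPOW
  have cmm := specCMM specWTB specABS sca
  have stg := specSTG specWTB sca cmm
  have nex := specNEX lev stg specCFI
  have ne0 := specNE0 lev specCFI
  have ini := specINI specWTB
  have seq := specSEQ nex ne0 ini specNUM specWLI specCFI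
  have jad := specJAD specJAU
  have jea := specJEA specJAU jad
  have jeb := specJEB jea specCFI
  have jec := specJEC jeb
  exact specMAIN seq jec specGRW specCFI

end Pool.Agent.Lib.MP166ce5.FR
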