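import Pool.Agent.Lib.MP_166ce5_al.FR.Spec

set_option autoImplicit false

namespace Pool.Agent.Lib.MP166ce5.FR

namespace LALM

theorem z2_cases (a : ZMod 2) : a = 0 ∨ a = 1 := by
  revert a
  decide

theorem z2_one_of_ne {a : ZMod 2} (h : a ≠ 0) : a = 1 := by
  revert a
  decide

theorem z2_add_self (a : ZMod 2) : a + a = 0 := by
  revert a
  decide

variable {ι : Type} [Fintype ι] [DecidableEq ι]

theorem step (w : ι → ℝ) (v : ι → ZMod 2) (ρ : ℝ) (S : Submodule (ZMod 2) (ι → ZMod 2))
    (hρ : 0 ≤ ρ) (hv : ∀ i, v i ≠ 0 → w i ≤ ρ) (Z : Finset ι) (P : ι → (ι → ZMod 2))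
    (h1 : ∀ i, i ∉ Z → Pi.single i 1 + P i ∈ S)
    (h2 : ∀ i, i ∉ Z → ∀ z, P i z ≠ 0 → z ∈ Z ∧ w z ≤ w i)
    (h3 : ∀ u ∈ S, (∀ i, i ∉ Z → u i = 0) → u = 0) (s : ℝ)
    (h4 : (∑ i, w i) - s ≤ ∑ z ∈ Z, w z) (S' : Submodule (ZMod 2) (ι → ZMod 2))
    (hS : S ≤ S') (hvS : v ∈ S') (hS' : ∀ u ∈ S', ∃ c : ZMod 2, ∃ x ∈ S, u = c • v + x) :
    ∃ (Z' : Finset ι) (P' : ι → (ι → ZMod 2)),
      (∀ i, i ∉ Z' → Pi.single i 1 + P' i ∈ S') ∧
      (∀ i, i ∉ Z' → ∀ z, P' i z ≠ 0 → z ∈ Z' ∧ w z ≤ w i) ∧
      (∀ u ∈ S', (∀ i, i ∉ Z' → u i = 0) → u = 0) ∧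
      (∑ i, w i) - (ρ + s) ≤ ∑ z ∈ Z', w z := by
  classical
  set t : ι → ZMod 2 := ∑ i ∈ Finset.univ.filter (fun i => i ∉ Z), v i • (Pi.single i 1 + P i)
    with ht
  have htS : t ∈ S := by
    refine Submodule.sum_mem _ fun i hi => ?_
    rw [Finset.mem_filter] at hi
    exact Submodule.smul_mem _ _ (h1 i hi.2)
  set v' : ι → ZMod 2 := v + t with hv'
  have htval : ∀ j, t j = (∑ i ∈ Finset.univ.filter (fun i => i ∉ Z), v i * P i j) +
      (if j ∉ Z then v j else 0) := by
    intro j
    rw [ht, Finset.sum_apply]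
    have e1 : ∀ i ∈ Finset.univ.filter (fun i => i ∉ Z),
        (v i • ((Pi.single i (1 : ZMod 2) : ι → ZMod 2) + P i) : ι → ZMod 2) j =
          v i * P i j + (if i = j then v j else 0) := by
      intro i _
      rw [Pi.smul_apply, Pi.add_apply, smul_eq_mul, mul_add, add_comm]
      congr 1
      by_cases hij : i = j
      · subst hij
        simp
      · rw [Pi.single_apply, if_neg (fun h => hij h.symm), if_neg hij, mul_zero]
    rw [Finset.sum_congr rfl e1, Finset.sum_add_distrib]
    congr 1
    by_cases hj : j ∈ Z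
    · rw [if_neg (by simpa using hj)]
      refine Finset.sum_eq_zero fun i hi => ?_
      rw [Finset.mem_filter] at hi
      rw [if_neg]
      rintro rfl
      exact hi.2 hj
    · rw [if_pos hj, Finset.sum_eq_single j]
      · rw [if_pos rfl]
      · intro i _ hij
        rw [if_neg hij]
      · intro h
        exact absurd (Finset.mem_filter.2 ⟨Finset.mem_univ j, hj⟩ :
          j ∈ Finset.univ.filter (fun i => i ∉ Z)) h
  -- `v'` vanishes outside `Z`
  have hout : ∀ j, j ∉ Z → v' j = 0 := by
    intro j hj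
    have e1 : ∑ i ∈ Finset.univ.filter (fun i => i ∉ Z), v i * P i j = 0 := by
      refine Finset.sum_eq_zero fun i hi => ?_
      rw [Finset.mem_filter] at hi
      by_contra hne
      exact hj (h2 i hi.2 j (right_ne_zero_of_mul hne)).1
    rw [hv', Pi.add_apply, htval, e1, if_pos hj, zero_add]
    exact z2_add_self _
  have hsup : ∀ j, v' j ≠ 0 → w j ≤ ρ := by
    intro j hj
    have hjZ : j ∈ Z := by
      by_contra h
      exact hj (hout j h)
    rw [hv', Pi.add_apply, htval, if_neg (by simpa using hjZ), add_zero] at hj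
    by_cases hvj : v j = 0
    · rw [hvj, zero_add] at hj
      obtain ⟨i, hi, hne⟩ := Finset.exists_ne_zero_of_sum_ne_zero hj
      rw [Finset.mem_filter] at hi
      exact (h2 i hi.2 j (right_ne_zero_of_mul hne)).2.trans (hv i (left_ne_zero_of_mul hne))
    · exact hv j hvj
  have hv'S : v' ∈ S' := S'.add_mem hvS (hS htS)
  have hvv' : v = v' + t := by
    rw [hv', add_assoc]
    have e1 : t + t = 0 := by
      funext j
      exact z2_add_self _
    rw [e1, add_zero]
  have hrep : ∀ u ∈ S', ∃ c : ZMod 2, ∃ x ∈ S, u = c • v' + x := by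
    intro u hu
    obtain ⟨c, x, hx, rfl⟩ := hS' u hu
    refine ⟨c, c • t + x, S.add_mem (S.smul_mem _ htS) hx, ?_⟩
    conv_lhs => rw [hvv']
    rw [smul_add, add_assoc]
  by_cases hzero : v' = 0
  · refine ⟨Z, P, fun i hi => hS (h1 i hi), h2, ?_, ?_⟩
    · intro u hu
      obtain ⟨c, x, hx, rfl⟩ := hrep u hu
      rw [hzero, smul_zero, zero_add]
      exact h3 x hx
    · linarith
  · -- an element of the support with the largest weight
    have hne : (Finset.univ.filter fun i => v' i ≠ 0).Nonempty := by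
      by_contra hcon
      rw [Finset.not_nonempty_iff_eq_empty] at hcon
      apply hzero
      funext i
      by_contra hi
      have : i ∈ Finset.univ.filter fun i => v' i ≠ 0 :=
        Finset.mem_filter.2 ⟨Finset.mem_univ _, hi⟩
      rw [hcon] at this
      exact absurd this (Finset.notMem_empty i)
    obtain ⟨z0, hz0, hmax⟩ := Finset.exists_max_image _ w hne
    rw [Finset.mem_filter] at hz0
    have hz0v : v' z0 = 1 := z2_one_of_ne hz0.2
    have hz0Z : z0 ∈ Z := by
      by_contra h
      exact hz0.2 (hout z0 h)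
    have hmax' : ∀ z, v' z ≠ 0 → w z ≤ w z0 := fun z hz =>
      hmax z (Finset.mem_filter.2 ⟨Finset.mem_univ _, hz⟩)
    refine ⟨Z.erase z0, fun i => if i = z0 then v' + Pi.single z0 1 else P i + (P i z0) • v',
      ?_, ?_, ?_, ?_⟩
    · intro i hi
      by_cases hiz : i = z0
      · subst hiz
        simp only [if_pos]
        have e1 : (Pi.single i 1 : ι → ZMod 2) + (v' + Pi.single i 1) = v' := by
          funext j
          simp only [Pi.add_apply]
          rw [add_comm, add_assoc, z2_add_self, add_zero]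
        rw [e1]
        exact hv'S
      · have hiZ : i ∉ Z := fun h => hi (Finset.mem_erase.2 ⟨hiz, h⟩)
        simp only [if_neg hiz]
        rw [← add_assoc]
        exact S'.add_mem (hS (h1 i hiZ)) (S'.smul_mem _ hv'S)
    · intro i hi z hz
      by_cases hiz : i = z0
      · subst hiz
        simp only [if_pos] at hz
        have hzi : z ≠ i := by
          rintro rfl
          apply hz
          rw [Pi.add_apply, hz0v, Pi.single_eq_same]
          exact z2_add_self _
        have hvz : v' z ≠ 0 := by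
          intro h
          apply hz
          rw [Pi.add_apply, h, Pi.single_eq_of_ne hzi, add_zero]
        refine ⟨Finset.mem_erase.2 ⟨hzi, ?_⟩, hmax' z hvz⟩
        by_contra h
        exact hvz (hout z h)
      · have hiZ : i ∉ Z := fun h => hi (Finset.mem_erase.2 ⟨hiz, h⟩)
        simp only [if_neg hiz] at hz
        rw [Pi.add_apply, Pi.smul_apply, smul_eq_mul] at hz
        have hzz : z ≠ z0 := by
          rintro rfl
          apply hz
          rw [hz0v, mul_one]
          exact z2_add_self _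
        by_cases hPz : P i z = 0
        · rw [hPz, zero_add] at hz
          have hvz := right_ne_zero_of_mul hz
          have hPz0 := left_ne_zero_of_mul hz
          refine ⟨Finset.mem_erase.2 ⟨hzz, ?_⟩, (hmax' z hvz).trans (h2 i hiZ z0 hPz0).2⟩
          by_contra h
          exact hvz (hout z h)
        · exact ⟨Finset.mem_erase.2 ⟨hzz, (h2 i hiZ z hPz).1⟩, (h2 i hiZ z hPz).2⟩
    · intro u hu hu0
      obtain ⟨c, x, hx, rfl⟩ := hrep u hu
      have hz0' : z0 ∉ Z.erase z0 := fun h => (Finset.mem_erase.1 h).1 rfl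
      rcases z2_cases c with rfl | rfl
      · rw [zero_smul, zero_add] at hu0 ⊢
        refine h3 x hx fun i hi => hu0 i fun h => hi (Finset.mem_of_mem_erase h)
      · exfalso
        rw [one_smul] at hu0
        have hx0 : x = 0 := by
          refine h3 x hx fun i hi => ?_
          have e1 := hu0 i fun h => hi (Finset.mem_of_mem_erase h)
          rw [Pi.add_apply, hout i hi, zero_add] at e1
          exact e1
        have e1 := hu0 z0 hz0'
        rw [hx0, add_zero, hz0v] at e1
        exact absurd e1 (by decide)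
    · have e1 : ∑ z ∈ Z.erase z0, w z = ∑ z ∈ Z, w z - w z0 := by
        rw [← Finset.add_sum_erase Z w hz0Z]
        ring
      rw [e1]
      have e2 := hsup z0 hz0.2
      linarith

end LALM

theorem specLAL : SpecLAL := by
  intro ι _ _ w hw L
  induction L with
  | nil =>
    intro _
    refine ⟨Finset.univ, fun _ => 0, fun i hi => absurd (Finset.mem_univ i) hi,
      fun i hi => absurd (Finset.mem_univ i) hi, ?_, ?_⟩
    · intro v hv _
      have e1 : {v : ι → ZMod 2 | v ∈ ([] : List ((ι → ZMod 2) × ℝ)).map Prod.fst} = ∅ := by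
        ext v
        simp
      rw [e1, Submodule.span_empty, Submodule.mem_bot] at hv
      exact hv
    · simp
  | cons p L ih =>
    intro hL
    obtain ⟨Z, P, h1, h2, h3, h4⟩ := ih fun q hq => hL q (List.mem_cons_of_mem _ hq)
    obtain ⟨hρ, hv⟩ := hL p List.mem_cons_self
    have e1 : {v : ι → ZMod 2 | v ∈ (p :: L).map Prod.fst} =
        insert p.1 {v | v ∈ L.map Prod.fst} := by
      ext v
      simp
    rw [e1]
    have e2 : ((p :: L).map Prod.snd).sum = p.2 + (L.map Prod.snd).sum := by simp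
    rw [e2]
    refine LALM.step w p.1 p.2 _ hρ hv Z P h1 h2 h3 _ h4 _
      (Submodule.span_mono (Set.subset_insert _ _))
      (Submodule.subset_span (Set.mem_insert _ _)) ?_
    intro u hu
    rw [Submodule.mem_span_insert] at hu
    obtain ⟨a, z, hz, rfl⟩ := hu
    exact ⟨a, z, hz, rfl⟩

end Pool.Agent.Lib.MP166ce5.FR
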