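import Pool.Agent.Lib.MP_166ce5_al.FR.Defs

/-!
# Specification of the modules

THEOREM. For every `d ≥ 2` and every real `a < d` there is an infinite residually finite 2-group
with `d` generators, growth `≥ a ^ n` for all `n`, in which all elements of length `≤ tower k` have
order dividing `2 ^ (k + c)`.

Conventions: `δ_t(g) = t g t⁻¹ g⁻¹`. In all modules the hypotheses are the Specs named after
`deps`, in this order.
-/

set_option autoImplicit false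

namespace Pool.Agent.Lib.MP166ce5.FR

open FreeGroup

/-- **WTB** (basic facts on `Wt`), 60 lines. deps: none.
All by induction on `Wt`. Positivity: `gen` from `0 < w i`, `mul`, `inv` clear, `comm` and `sq` by
multiplication. Monotone: each constructor has room. The set of the `a` with `Wt y w ρ a` is a
subgroup for `0 < ρ`, so `Dg` is this set. `IsNSer`: constructors `comm`, `sq`, `top`. Universal
property: induction, with the axioms of `IsNSer` (positivity of the weights by the first part). -/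
def SpecWTB : Prop := ∀ (K ι : Type) [Group K] (y : ι → K) (w : ι → ℝ), (∀ i, 0 < w i) →
  (∀ ρ a, Wt y w ρ a → 0 < ρ) ∧
  (∀ ρ σ a, Wt y w ρ a → ρ ≤ σ → Wt y w σ a) ∧
  (∀ ρ a, 0 < ρ → (a ∈ Dg y w ρ ↔ Wt y w ρ a)) ∧
  IsNSer (Dg y w) ∧
  (∀ H : ℝ → Subgroup K, IsNSer H → (∀ i, y i ∈ H (w i)) → ∀ ρ a, Wt y w ρ a → a ∈ H ρ)

/-- **ABS** (perturbation of commutators and squares in an N-series), 60 lines. deps: none.
`G` any N-series, all `G ρ` (`ρ > 0`) are normal (`comm` with `G 1 = ⊤`, `mono`). Let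
`N = G (γ α β)`. Modulo `N` (that is: the commutator lies in `N`): `a'` commutes with `b`
(`γ α · β`), `a'` with `b'` (`γ α · γ β ≤ γ α β`), `b'` with `a` (`γ β · α`). Hence modulo `N`
`[a' a, b' b] = (a' b') [a, b] (a' b')⁻¹`: write `a' a b' b a⁻¹ a'⁻¹ b⁻¹ b'⁻¹`, move `b'` over `a`
and `a'⁻¹` over `b⁻¹`, then over `b'⁻¹`. Finally `a'` commutes with `[a, b]` modulo `N`, because
`[a, b] ∈ G β` (`a ∈ G 1`), `γ α · β`; and `b'` because `[a, b] ∈ G α`, `γ β · α`. (Work in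
`F ⧸ N`, or with `Subgroup.Normal`.) Second part: `(a' a)(a' a)(a a)⁻¹ = a' (a a' a⁻¹)
= (a' (a a' a⁻¹ a'⁻¹) a'⁻¹) (a' a')`, where `[a, a'] ∈ G (α · γ α)` and
`a' a' ∈ G ((γ α)²) ≤ G (γ α α)`. -/
def SpecABS : Prop := ∀ (F : Type) [Group F] (G : ℝ → Subgroup F), IsNSer G →
  ∀ (α β γ : ℝ), 0 < α → 0 < β → 0 < γ → γ ≤ 1 → ∀ a b a' b' : F,
    a ∈ G α → b ∈ G β → a' ∈ G (γ * α) → b' ∈ G (γ * β) →
    (a' * a) * (b' * b) * (a' * a)⁻¹ * (b' * b)⁻¹ * (a * b * a⁻¹ * b⁻¹)⁻¹ ∈ G (γ * (α * β)) ∧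
    (a' * a) * (a' * a) * (a * a)⁻¹ ∈ G (γ * (α * α))

/-- **LIN** (homomorphisms to the group of order two), 30 lines. deps: none.
Induction on `Wt`: `gen`, `one`, `mul`, `inv` clear, `comm` because the target is commutative, `sq`
because all squares are `1` there; `top`: `1 ≤ ρ` and `w i ≤ 1`, so `φ` kills all generators and
`φ = 1` (`FreeGroup.ext_hom`). -/
def SpecLIN : Prop := ∀ (ι : Type) (w : ι → ℝ), (∀ i, w i ≤ 1) →
  ∀ (φ : FreeGroup ι →* Multiplicative (ZMod 2)) (ρ : ℝ), (∀ i, w i ≤ ρ → φ (of i) = 1) →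
  ∀ u, Wt of w ρ u → φ u = 1

/-- **SCA** (scaling of the weights), 50 lines. deps: WTB.
Induction on `Wt`: `gen` clear; `comm`: weights `lam ρ`, `lam σ`, `lam ρ · lam σ ≤ lam τ` since
`lam ≤ 1` (`0 < ρ σ ≤ τ`, positivity by WTB); `sq` in the same way; `top`: every element of the free
group is a product of generators and inverses, all of new weight `lam w i ≤ lam ≤ lam ρ`. -/
def SpecSCA : Prop := ∀ (ι : Type) (w : ι → ℝ) (lam : ℝ), 0 < lam → lam ≤ 1 →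
  (∀ i, 0 < w i) → (∀ i, w i ≤ 1) →
  ∀ ρ u, Wt of w ρ u → Wt of (fun i => lam * w i) (lam * ρ) u

/-- **FRI** (the map `jx` is injective), 80 lines. deps: none.
Let `E = FreeGroup (Nx i₀)`. The free group `FreeGroup ι` acts on `E × Bool` from the right:
`t = of i₀` by `(e, false) ↦ (e, true)`, `(e, true) ↦ (e a, false)` with `a = of none`; `of i`
(`i ≠ i₀`) by `(e, false) ↦ (e b_i, false)`, `(e, true) ↦ (e c_i b_i, true)` with
`b_i = of (some (i, false))`, `c_i = of (some (i, true))`. (All are permutations; use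
`FreeGroup.lift` to `(Equiv.Perm (E × Bool))ᵐᵒᵖ`, or the left version with inverses.) Then `jx v`
maps `(e, false)` to `(e v, false)`: check the three kinds of generators: `t t` gives
`(e a, false)`, `of i` gives `(e b_i, false)`, and `t y_i t⁻¹ y_i⁻¹`: `(e, true)`,
`(e c_i b_i, true)`, `(e c_i b_i, false)`, `(e c_i, false)`. So `jx v = 1` implies `v = 1`. -/
def SpecFRI : Prop := ∀ (ι : Type) (i₀ : ι), Function.Injective (jx i₀)

/-- **FRR** (the range of `jx` and conjugation by `t`), 80 lines. deps: none.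
Second part: both sides are homomorphisms in `v`, check the generators:
`none`: `t t² t⁻¹ = t²`; `(i, false)`: `t y t⁻¹ = (t y t⁻¹ y⁻¹) y`; `(i, true)`: with
`z = t y t⁻¹ y⁻¹`: `t z t⁻¹ = t² y t⁻² y⁻¹ z⁻¹`. First part: `⊆` on generators. `⊇`: the set
`M = range ∪ range · t` contains `1` and is closed under right multiplication by `of i` and by
`(of i)⁻¹` (`i ≠ i₀`: `t y = (t y t⁻¹) t`, in `range · t` by the second part; `i = i₀`: `t t` in the
range, `t⁻¹ = (t t)⁻¹ t`), so it is everything; and elements of `range · t` have parity different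
from `1`. Third part: the generator `i ↦ (i, false)` has the parity of `i` (check on generators:
`t²` has parity `1`, the commutators have parity `1`). -/
def SpecFRR : Prop := ∀ (ι : Type) [DecidableEq ι] (i₀ : ι),
  (∀ u : FreeGroup ι, u ∈ (jx i₀).range ↔ par i₀ u = 1) ∧
  (∀ v : FreeGroup (Nx i₀), jx i₀ (tx i₀ v) = of i₀ * jx i₀ v * (of i₀)⁻¹) ∧
  (∀ (i : {i : ι // i ≠ i₀}) (v : FreeGroup (Nx i₀)),
    par i.1 (jx i₀ v) = par (some (i, false) : Nx i₀) v)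

/-- **DEL** (`δ_t` multiplies weights by `c = w i₀`), 90 lines. deps: WTB, ABS.
Let `D` be the filtration `Wt of (wx w i₀)` on `FreeGroup (Nx i₀)`, `δ(v) = τ(v) v⁻¹`, `τ = tx i₀`.
Induction on `Wt`, claim `δ(v) ∈ D (ρ c)`. Generators: `δ(none) = 1`; `δ(i, false) = (i, true)` of
weight `w_i c`; `δ(i, true) = [a, b] z⁻¹ z⁻¹` with `a = none` (weight `c²`), `b = (i, false)`
(weight `w_i`), `z = (i, true)` (weight `w_i c`): both `c² w_i` and `(w_i c)²` are `≤ w_i c · c`.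
(`gen` has slack `w ≤ ρ`: use monotonicity.) Products: `δ(a b) = δ(a) · a δ(b) a⁻¹`, inverses:
`δ(a⁻¹) = a⁻¹ δ(a)⁻¹ a` (`D ρ` is normal). Commutators and squares: `τ(a) = δ(a) a`, use ABS for
the N-series `Dg` with `γ = c`. `top`: every element is a product of generators and inverses, each
of weight `≤ 1`, so `δ ∈ D c ≤ D (ρ c)`. -/
def SpecDEL : Prop := ∀ (ι : Type) (w : ι → ℝ) (i₀ : ι), (∀ i, 0 < w i) → (∀ i, w i ≤ 1) →
  ∀ ρ v, Wt of (wx w i₀) ρ v → Wt of (wx w i₀) (ρ * w i₀) (tx i₀ v * v⁻¹)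

/-- **STP** (the filtration of the kernel), 120 lines. deps: WTB, FRI, FRR, DEL.
`⇐`: induction on `Wt` (or the universal property, with `Dg of w` pulled back by `jx`): the elements
`gx` have weights `wx` for `Wt of w`. `⇒`: let `c = w i₀`, `t = of i₀`, `D'` the filtration of
`FreeGroup (Nx i₀)`, and `H ρ` the set of the `jx v` with `v ∈ D' ρ` and, if `c ≤ ρ`, of the
`jx v · t` with `v ∈ D' ρ`. These are subgroups (`ρ > 0`) which form an N-series on `FreeGroup ι`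
containing `of i` in `H (w i)` (simplest in Lean: prove by induction on `Wt of w ρ u` that there is
`v` with `Wt of (wx w i₀) ρ v` and `u = jx v ∨ (c ≤ ρ ∧ u = jx v * t)`); and `jx v ∈ H ρ` implies
`v ∈ D' ρ`, as `jx` is injective and `jx v = jx v' · t` is impossible by parity. The verification
(`δ(v) = τ(v) v⁻¹`, DEL; `t v = τ(v) t` inside `FreeGroup ι`): product: `t t ∈ D' (c²) ≤ D' ρ`;
inverses: `(g t)⁻¹ = t⁻¹ g⁻¹`, `t⁻¹ = t⁻² t`, and `τ` preserves `D' ρ` since `τ(v) = δ(v) v`.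
Commutators, `g ∈ D' ρ`, `h ∈ D' σ`: `[g t, h] = g δ(h) g⁻¹ · [g, h]` with `δ(h) ∈ D' (σ c)`,
`c ≤ ρ`; `[g, h t] = [h t, g]⁻¹`; `[g t, h t] = g δ(h) h δ(g⁻¹) g⁻¹ h⁻¹`, modulo the normal subgroup
`D' (ρ σ)` (which contains `δ(h)`, `δ(g⁻¹)`) equal to `[g, h]`. Squares:
`(g t)² = (g δ(g) g⁻¹) g² t²`. `top`: `1 ≤ ρ` gives `c ≤ ρ`, and `FreeGroup ι` is
`range jx ∪ range jx · t` (FRR). -/
def SpecSTP : Prop := ∀ (ι : Type) [DecidableEq ι] (w : ι → ℝ) (i₀ : ι), (∀ i, 0 < w i) →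
  (∀ i, w i ≤ 1) → ∀ ρ, 0 < ρ → ∀ v : FreeGroup (Nx i₀),
    Wt of w ρ (jx i₀ v) ↔ Wt of (wx w i₀) ρ v

/-- **NXT** (one step), 120 lines. deps: LIN, FRI, FRR, STP.
`S'.ι = Nx i₀`, `S'.e = S.e.comp (jx i₀)`, `S'.w = wx S.w i₀`, `S'.G = S.G`,
`S'.l = (S.e (of i₀), S.w i₀) :: S.l`, `f i = some (i, false)`. `mem` by `S.mem` and STP. Chain:
`t = S.e (of i₀)` lies in `S.G c` (`S.mem`, `Wt.gen`), not in `S'.K` (parity, FRR, `S.inj`);
`h2`: `g = S.e u`, `par i₀ u = 1` or `par i₀ (u t⁻¹) = 1` (two elements); `hlt`: `g = S.e u` in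
`S.G ρ`, `ρ < c = w i₀`: `Wt of w ρ u`, and `par i₀ (of i) = 1` for all `i` with `w i ≤ ρ`, so
`par i₀ u = 1` by LIN. `A`: the sum of `wx` is `c² + Σ_(i ≠ i₀) (w i + w i c)`, minus one it is
`(1 + c)(Σ w - 1)`. Parity: third part of FRR and injectivity of `S.e`. -/
def SpecNXT : Prop := ∀ (F : Type) [Group F] (S : St F) (i₀ : S.ι),
  ∃ (S' : St F) (f : {i : S.ι // i ≠ i₀} → S'.ι), Function.Injective f ∧ S'.G = S.G ∧
    S'.A = S.A * (1 + S.w i₀) ∧ S'.I = S.I * (1 + S.w i₀) ∧ (∀ i, S'.w (f i) = S.w i.1) ∧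
    (∀ g, g ∈ S'.K ↔ ∃ u, par i₀ u = 1 ∧ S.e u = g) ∧
    (∀ i u u', S'.e u' = S.e u → par (f i) u' = par i.1 u)

/-- **ITR** (iteration over a set of generators), 60 lines. deps: NXT.
Induction on the number of elements of `Z`, generalizing `S`. `Z = ∅`: `S' = S`. Otherwise choose
`i₀ ∈ Z`, apply NXT, and the induction hypothesis to `S'` and the image of `Z \ {i₀}` under `f`
(as many elements, the same weights). The last clause by the parity clause of NXT. -/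
def SpecITR : Prop := ∀ (F : Type) [Group F] (S : St F) (Z : Finset S.ι),
  ∃ S' : St F, S'.G = S.G ∧ S'.A = S.A * ∏ z ∈ Z, (1 + S.w z) ∧
    S'.I = S.I * ∏ z ∈ Z, (1 + S.w z) ∧
    ∀ g, g ∈ S'.K ↔ ∃ u, (∀ z ∈ Z, par z u = 1) ∧ S.e u = g

/-- **BAS** (change of the free generators), 90 lines. deps: WTB.
Let `β` be the endomorphism of `FreeGroup ι` with `of z ↦ of z` for `z ∈ Z` and
`of i ↦ of i * p i` for `i ∉ Z`. It fixes the `p i` (products of `of z`, `z ∈ Z`), so the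
endomorphism `of i ↦ of i * (p i)⁻¹` is its inverse. `p i` has weight `≤ w i` (product of
generators of weight `≤ w i`), so `Wt ρ u → Wt ρ (β u)` by induction (or universal property), in the
same way for the inverse. Take `S' = {S with e := S.e.comp β}`; range, `A`, `I` unchanged. -/
def SpecBAS : Prop := ∀ (F : Type) [Group F] (S : St F) (Z : Finset S.ι)
  (p : S.ι → FreeGroup S.ι),
  (∀ i, i ∉ Z → p i ∈ Subgroup.closure {u | ∃ z ∈ Z, S.w z ≤ S.w i ∧ u = of z}) →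
  ∃ (S' : St F) (f : S.ι ≃ S'.ι), S'.G = S.G ∧ S'.A = S.A ∧ S'.I = S.I ∧ S'.K = S.K ∧
    (∀ i, S'.w (f i) = S.w i) ∧ (∀ z ∈ Z, S'.e (of (f z)) = S.e (of z)) ∧
    (∀ i, i ∉ Z → S'.e (of (f i)) = S.e (of i * p i))

/-- **LAL** (linear algebra over the field with two elements), 120 lines. deps: none.
Induction on the list `L`. `L = []`: `Z = univ`. Step, new vector `v` with weight `ρ` (supported on
`w i ≤ ρ`): let `Z`, `P` belong to `L`. Reduce: `v' = v + Σ_(i ∉ Z) v i (e_i + P i)`, supported on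
`Z ∩ {w ≤ ρ}` and congruent to `v` modulo the span. If `v' = 0`, keep `Z`, `P` (the span is
unchanged). Otherwise let `z*` be an element of the support of `v'` with the largest weight,
`Z' = Z \ {z*}`, `P' z* = v' + e_(z*)`, and for `i ∉ Z`: `P' i = P i + (P i z*) v'` (if `P i z* ≠ 0`
then `w z* ≤ w i`, and the support of `v'` has weights `≤ w z*`). Independence: if `u` is in the new
span and vanishes outside `Z'`, then `u` or `u + v'` is in the old span (`u = x + c v`,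
`v - v'` in the old span), vanishes outside `Z`, so is `0`; `u = v'` is impossible since
`v' z* = 1`. Weights: only `w z* ≤ ρ` is lost (if nothing is lost use `0 ≤ ρ`). -/
def SpecLAL : Prop := ∀ (ι : Type) [Fintype ι] [DecidableEq ι] (w : ι → ℝ), (∀ i, 0 < w i) →
  ∀ L : List ((ι → ZMod 2) × ℝ), (∀ p ∈ L, 0 ≤ p.2 ∧ ∀ i, p.1 i ≠ 0 → w i ≤ p.2) →
  ∃ (Z : Finset ι) (P : ι → (ι → ZMod 2)),
    (∀ i, i ∉ Z → Pi.single i 1 + P i ∈ Submodule.span (ZMod 2) {v | v ∈ L.map Prod.fst}) ∧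
    (∀ i, i ∉ Z → ∀ z, P i z ≠ 0 → z ∈ Z ∧ w z ≤ w i) ∧
    (∀ v ∈ Submodule.span (ZMod 2) {v | v ∈ L.map Prod.fst}, (∀ i, i ∉ Z → v i = 0) → v = 0) ∧
    (∑ i, w i) - (L.map Prod.snd).sum ≤ ∑ z ∈ Z, w z

/-- **EXP** (generators of the normal closure with weights), 110 lines. deps: none.
Induction on the chain, for the statement with `K'` in place of `S.K`: for `Chain G K' l` there is a
list `E` as stated with `wsum E = ρ · ∏ (1 + c)`, all elements of `E` in the normal closure of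
`{r}` and in `G` of their weight, such that every subgroup `M` normalised by `K'` which contains `E`
contains all conjugates of `r`. `K' = ⊤`: `E = [(r, ρ)]`. Step from `K` to `K'`, `t`, `c`: let `E`
belong to `K`, `E' = E ++ [(t g t⁻¹ g⁻¹, c σ) : (g, σ) ∈ E]` (weights by `IsNSer.comm`). Let `M` be
normalised by `K'` and contain `E'`; `M₁ = {m ∈ M : t m t⁻¹ ∈ M}` contains `E`, and it is normalised
by `K'` (`t` normalises `K'`, index two: from `h2`) and by `t` (`t (t m t⁻¹) t⁻¹ = t² m t⁻²` is in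
`M`, `t²` is in `K'`), so by `K` (`h2`); hence all conjugates of `r` are in `M₁`. For `S.K`: the
elements are in `S.K` because it is normal and contains `r`. -/
def SpecEXP : Prop := ∀ (F : Type) [Group F] (S : St F), S.K.Normal → ∀ (r : F) (ρ : ℝ), 0 < ρ →
  r ∈ S.G ρ → r ∈ S.K → ∃ E : List (F × ℝ), Rel S E ∧ wsum E = ρ * S.I ∧
    (∀ p ∈ E, p.1 ∈ Subgroup.normalClosure {r}) ∧
    ∀ M : Subgroup F, (∀ k ∈ S.K, ∀ m ∈ M, k * m * k⁻¹ ∈ M) → (∀ p ∈ E, p.1 ∈ M) →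
      ∀ f : F, f * r * f⁻¹ ∈ M

/-- **VEC** (a homomorphism to the group of order two depends on the parities only), 60 lines.
deps: none. `φ u = ∏ i, φ (of i) ^ (par i u)` (both sides are homomorphisms in `u`, check
generators), so `u ↦ toAdd (φ u)` is the composition of the vector `(toAdd (par i u))_i` with a
linear form; the linear form vanishes on the vectors of `E`, so on their span. -/
def SpecVEC : Prop := ∀ (ι : Type) [Fintype ι] [DecidableEq ι]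
  (φ : FreeGroup ι →* Multiplicative (ZMod 2)) (E : Set (FreeGroup ι)), (∀ u ∈ E, φ u = 1) →
  ∀ u, (fun i => Multiplicative.toAdd (par i u)) ∈ Submodule.span (ZMod 2)
    {v : ι → ZMod 2 | ∃ u' ∈ E, v = fun i => Multiplicative.toAdd (par i u')} → φ u = 1

/-- **POW**, 20 lines. deps: none. `2 ^ x ≤ 1 + x` for `0 ≤ x ≤ 1` (convexity of `2 ^ x`, or Bernoulli
`(1 + 1) ^ x ≤ 1 + x`: `Real.rpow_one_add_le_one_add_mul_self`), product. -/
def SpecPOW : Prop := ∀ (ι : Type) (Z : Finset ι) (w : ι → ℝ), (∀ i, 0 < w i) → (∀ i, w i ≤ 1) →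
  (2 : ℝ) ^ (∑ z ∈ Z, w z) ≤ ∏ z ∈ Z, (1 + w z)

/-- **CFI** (index of the chain), 50 lines. deps: none.
Induction on the chain: `K'` has relative index two in `K` (`t ∉ K'`, `h2`), so
`index K' = 2 * index K` (`Subgroup.relIndex_mul_index`). -/
def SpecCFI : Prop := ∀ (F : Type) [Group F] (G : ℝ → Subgroup F) (K : Subgroup F)
  (l : List (F × ℝ)), Chain G K l → K.FiniteIndex ∧ K.index = 2 ^ l.length ∧
    ∀ p ∈ l, 0 < p.2 ∧ p.2 ≤ 1

/-- **LEV** (one level: from `K` to the Frattini subgroup modulo the relators), 200 lines.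
deps: LIN, ITR, BAS, LAL, EXP, VEC, POW.
Let `E` be the union of the lists of EXP for the relators `(r, ρ) ∈ R`, so `wsum E = wsum R · I`.
For `g ∈ S.K`, `g = S.e u`, let `lin g : S.ι → ZMod 2` be the parities of `u` (`par i u`). By LIN
(`φ = par i`) the vector of an element of `E` of weight `ρ` is supported on `w i ≤ ρ`. LAL gives
`Z`, `P`; let `p i` (`i ∉ Z`) be the product of the `of z`, `P i z ≠ 0`, and `S₁`, `f` the state of
BAS; then ITR for `S₁` and `f '' Z` gives `S'`. Let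
`N = {g ∈ S.K : φ (g) = 1 for all φ : S.K →* Multiplicative (ZMod 2) which kill all conjugates
f r f⁻¹, r ∈ R, f ∈ F}`. Then `S'.K = N`: (`⊆`) a homomorphism `φ` that kills the relators kills
the elements of the normal closure, in particular `E`, so `φ (S₁.e (of (f i))) = 1` for `i ∉ Z`
(its vector `e_i + P i` is in the span of the vectors of `E`, and `φ` depends only on the vector),
hence `φ` is determined on `S₁.K` by the parities at `f z` (VEC, also for the state `S₁`). (`⊇`) for `z ∈ Z` the parity at `f z`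
of `S₁` is a homomorphism; it kills `E`: the vector of an element of `E` is
`Σ_(i ∉ Z) v i (e_i + P i) + x` with `x` in the span and zero outside `Z`, so `x = 0`; as the set of
the elements of `S.K` it kills is a subgroup normalised by `S.K`, it kills all conjugates of the
relators (EXP). `N` is normal in `F` (precompose `φ` with conjugation), contains all squares and all
relators. `P = ∏_(z ∈ Z) (1 + w z) ≥ 2 ^ (Σ_Z w)` (POW)
and `Σ_Z w ≥ Σ w - wsum E = 1 + A - I · wsum R`. -/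
def SpecLEV : Prop := ∀ (F : Type) [Group F] (S : St F), S.K.Normal → ∀ R : List (F × ℝ),
  Rel S R → ∃ (S' : St F) (P : ℝ), S'.K.Normal ∧ S'.K ≤ S.K ∧ S'.G = S.G ∧
    (∀ k ∈ S.K, k * k ∈ S'.K) ∧ (∀ p ∈ R, p.1 ∈ S'.K) ∧
    (2 : ℝ) ^ (1 + S.A - S.I * wsum R) ≤ P ∧ S'.A = S.A * P ∧ S'.I = S.I * P

/-- **CMM** (commutators with the rescaled filtration), 100 lines. deps: WTB, ABS, SCA.
Let `D' σ` be the set of the `e u` with `Wt of (lam w) σ u`. Claim by induction on `Wt`: for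
`g ∈ G ρ`, `g (e u) g⁻¹ (e u)⁻¹ ∈ D' (ρ σ)`. Generator `i`, `lam w i ≤ σ`:
`e (of i) ∈ G (w i)`, so the commutator is in `G (ρ w i) ∩ K` (`K` is normal), it is `e v` with
`Wt of w (ρ w i) v`, by SCA `Wt of (lam w) (lam (ρ w i)) v`, monotonicity. Products and inverses:
`[g, a b] = [g, a] · a [g, b] a⁻¹`, `[g, a⁻¹] = a⁻¹ [g, a]⁻¹ a`, `D'` is normalised by `K` (`comm`
with `top`). Commutators and squares: ABS in `FreeGroup ι` for the N-series `Dg of (lam w)`, with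
`γ = min ρ 1`, if `ρ ≤ 1`; for `ρ ≥ 1` replace `ρ` by `1` first (`G ρ = ⊤ = G 1`), this gives more.
`top` (`1 ≤ σ`): every `u` is a product of generators and inverses, `lam w i ≤ 1`; the case of
generators with `σ = 1`, then monotonicity. (`g (e u) g⁻¹ = e (v u)` for the `v` with
`e v = [g, e u]`.) -/
def SpecCMM : Prop := ∀ (F : Type) [Group F] (S : St F), S.K.Normal → ∀ lam : ℝ, 0 < lam →
  lam ≤ 1 → ∀ ρ σ : ℝ, 0 < ρ → 0 < σ → ∀ g ∈ S.G ρ, ∀ u, Wt of (fun i => lam * S.w i) σ u →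
    ∃ v, Wt of (fun i => lam * S.w i) (ρ * σ) v ∧ S.e v = g * S.e u * g⁻¹ * (S.e u)⁻¹

/-- **STG** (rescaling of a state), 140 lines. deps: WTB, SCA, CMM.
New weights `lam w i`, `G' ρ = G ρ ⊔ D' ρ` with `D' ρ = (Dg of (lam w) ρ).map e`. `D' ρ` is normal
in `F` (CMM with `ρ := 1`), so `G' ρ` is the set of the products `g d`. `G' ρ ∩ K = D' ρ`: `g d` in
`K` gives `g ∈ K ∩ G ρ`, `g = e u`, `Wt of w ρ u`, so `Wt of (lam w) ρ u` (SCA, `lam ρ ≤ ρ`); with
injectivity this is `mem`. N-series: `mono`, `top` clear; `comm`: generators of the join: it is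
enough that `[g d, g' d']` is in the normal subgroup `G' (ρ ρ')` if `[g, g']`, `[g, d']`, `[d, g']`,
`[d, d']` are (normal subgroups; CMM for the mixed ones, `IsNSer (Dg ..)` for the last; note that
`G (ρ)` is normal by `comm` and `top`); `sq`: `(g d)² = g² · (g⁻¹ d g) · d`, modulo the normal
subgroup `G' (ρ²)`: `g⁻¹ d g = [g⁻¹, d] d`, `d d ∈ D' (ρ²)`. Chain for `G'` (induction on the chain
of `S`, all its subgroups contain `K`): `t ∈ G c ≤ G' c`; `hlt`: `x = g d`, `d ∈ K ≤ K'`, so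
`g = x d⁻¹ ∈ K_(i-1) ∩ G ρ`. `A' = lam Σ w - 1 = lam (1 + A) - 1`. Last two clauses: `r = e u`
with `Wt of w ρ u`, so `Wt of (lam w) (lam ρ) u`; `v = e u`, `Wt of w 1 u`, so weight `lam` and the
square has weight `lam²`. -/
def SpecSTG : Prop := ∀ (F : Type) [Group F] (S : St F), S.K.Normal → ∀ lam : ℝ, 0 < lam →
  lam ≤ 1 → ∃ S' : St F, S'.K = S.K ∧ S'.A = lam * (1 + S.A) - 1 ∧ S'.I = S.I ∧
    (∀ ρ, 0 < ρ → S.G ρ ≤ S'.G ρ) ∧
    (∀ ρ r, 0 < ρ → r ∈ S.K → r ∈ S.G ρ → r ∈ S'.G (lam * ρ)) ∧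
    (∀ v ∈ S.K, v * v ∈ S'.G (lam * lam))

/-- **NEX** (a stage and a level together), 100 lines. deps: LEV, STG, CFI.
Let `I = L.S.I > 0` (product of `1 + c`, `c > 0` by CFI), `θ = A / I - wsum R`,
`lam = θ / (4 q)`, in `(0, 1]`. STG gives `S₁`; relators `R₁` = the `(r, lam ρ)`, `(r, ρ) ∈ R`, and
the `(v v, lam²)`, `v ∈ V`. Then
`θ₁ = (lam (1 + A) - 1) / I - lam wsum R - |V| lam² = lam θ - (1 - lam) / I - |V| lam²`, where
`|V| lam² ≤ q lam² = lam θ / 4` and `1 / I ≤ θ² / (16 q) = lam θ / 4`, so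
`θ² / (8 q) = lam θ / 2 ≤ θ₁ ≤ lam θ ≤ θ`. LEV for `S₁`, `R₁`: `S'`, `P`, `A' / I' = A₁ / I`, the
same relators, `θ' = θ₁` and `I' = I P ≥ I 2 ^ (1 + A₁ - I wsum R₁) = I 2 ^ (1 + I θ₁)`. -/
def SpecNEX : Prop := ∀ (F : Type) [Group F] (L : Lv F) (V : List F) (q : ℝ),
  (∀ v ∈ V, v ∈ L.S.K) → (V.length : ℝ) ≤ q → 0 < L.θ → L.θ ≤ 4 * q →
  16 * q / L.θ ^ 2 ≤ L.S.I →
  ∃ L' : Lv F, L'.S.K ≤ L.S.K ∧ (∀ k ∈ L.S.K, k * k ∈ L'.S.K) ∧
    (∀ v ∈ V, v * v ∈ L'.R.map Prod.fst) ∧ (∀ p ∈ L.R, p.1 ∈ L'.R.map Prod.fst) ∧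
    (∀ ρ, 0 < ρ → L.S.G ρ ≤ L'.S.G ρ) ∧ L.θ ^ 2 / (8 * q) ≤ L'.θ ∧ L'.θ ≤ L.θ ∧
    L.S.I * (2 : ℝ) ^ (1 + L.S.I * L'.θ) ≤ L'.S.I

/-- **NE0** (a level without stage), 40 lines. deps: LEV, CFI.
LEV with `R = L.R`; `θ` is unchanged as in NEX. -/
def SpecNE0 : Prop := ∀ (F : Type) [Group F] (L : Lv F),
  ∃ L' : Lv F, L'.S.K ≤ L.S.K ∧ (∀ k ∈ L.S.K, k * k ∈ L'.S.K) ∧ L'.R = L.R ∧
    L'.S.G = L.S.G ∧ L'.θ = L.θ ∧ L.S.I * (2 : ℝ) ^ (1 + L.S.I * L.θ) ≤ L'.S.I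

/-- **INI** (the first state), 50 lines. deps: WTB.
`ι = Fin d`, `e = id`, `w = s`, `G = Dg of w`, `l = []` (the range of the identity is `⊤`), `R = []`;
`A = d s - 1`, `I = 1`. -/
def SpecINI : Prop := ∀ (d : ℕ) (s : ℝ), 0 < s → s ≤ 1 →
  ∃ L : Lv (FreeGroup (Fin d)), L.S.K = ⊤ ∧ L.S.I = 1 ∧ L.R = [] ∧ L.θ = d * s - 1 ∧
    ∀ i, of i ∈ L.S.G s

/-- **NUM** (numbers), 80 lines. deps: none.
With `θ ≥ I^(-1/8)` (that is `1 ≤ θ^8 I`), `q = b^m ≤ I^(1/4)` (`q^4 ≤ I`):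
`16 q / θ² ≤ 16 I^(1/4) I^(1/4) = 16 I^(1/2) ≤ I`. If `θ' ≥ θ² / (8 q)` then
`θ' ≥ I^(-1/2) / 8`, `I θ' ≥ √I / 8`, so `I' ≥ I 2^(1 + √I / 8)`, and
`θ'^8 I' ≥ 8^(-8) I^(-4) I 2^(1 + √I / 8) ≥ 1` for large `I` (`2^24 I³ ≤ 2^(1 + √I / 8)`, e.g. for
`I ≥ 2^20`). Moreover for `m' = 2^m` one has `b^(4 m') ≤ I'` as soon as `I` is large in terms of
`b`: `4 · 2^m log₂ b ≤ √I / 8` since `2^m ≤ q ≤ I^(1/4)`. So there is `M₀` (depending on `b`) such
that all this holds for `I ≥ M₀` (and `I' ≥ I`, so `I' ≥ M₀`). -/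
def SpecNUM : Prop := ∀ b : ℝ, 2 ≤ b → ∃ M₀ : ℝ, 1 ≤ M₀ ∧ ∀ (I θ : ℝ) (m : ℕ), M₀ ≤ I → 0 < θ →
  1 ≤ θ ^ 8 * I → b ^ (4 * m) ≤ I →
  16 * b ^ m / θ ^ 2 ≤ I ∧ ∀ I' θ' : ℝ, θ ^ 2 / (8 * b ^ m) ≤ θ' →
    I * (2 : ℝ) ^ (1 + I * θ') ≤ I' → M₀ ≤ I' ∧ 2 * I ≤ I' ∧ 1 ≤ θ' ^ 8 * I' ∧
      b ^ (4 * 2 ^ m) ≤ I'

/-- **WLI** (list of the short words), 40 lines. deps: none.
Induction on `m`: `Len (m + 1)` consists of the `1 · g`, `of i · g`, `(of i)⁻¹ · g`, `g ∈ Len m`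
(split off the first letter; `FreeGroup.mk (x :: L) = mk [x] * mk L`). -/
def SpecWLI : Prop := ∀ d m : ℕ, ∃ L : List (FreeGroup (Fin d)), L.length ≤ (2 * d + 1) ^ m ∧
  ∀ g, g ∈ Len m → g ∈ L

/-- **SEQ** (the infinite chain), 200 lines. deps: NEX, NE0, INI, NUM, WLI, CFI.
Let `b = 2 d + 1`, `M₀` from NUM. Levels `0, .., j₀` by INI and NE0 (`R = []`, `θ = d s - 1 > 0`
constant, `I` at least doubles, `2 ≤ 2^(1 + I θ)`) until `I ≥ M₀`, `1 ≤ θ^8 I` and `b^4 ≤ I`. At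
level `j = j₀ + k` apply NEX with `m = tower k` and `V` the list of all `w^(2^j)`, `w` in the list
of WLI for `m`, `q = b^m`; `w^(2^j) ∈ K_j` since squares go down one level; `θ ≤ d ≤ 4 q`. NUM: the invariants
`M₀ ≤ I`, `1 ≤ θ^8 I`, `b^(4 tower k) ≤ I` go on (`tower (k + 1) = 2 ^ tower k`). So one gets by
recursion (state: `Lv` with the invariants) levels `L_j`; put `N j = L_j.S.K`. The relators stay in
all later `R`, so in all later `N j` (`Rel`), and in all earlier ones by monotonicity: for `g` of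
length `≤ tower k`, `(g^(2^j))² = g^(2^(j+1))` with `j = j₀ + k`, `c = j₀ + 1`. Finite index: CFI.
`I → ∞` by doubling. -/
def SpecSEQ : Prop := ∀ (d : ℕ) (s : ℝ), 2 ≤ d → 0 < s → s < 1 → 1 < d * s →
  ∃ (N : ℕ → Subgroup (FreeGroup (Fin d))) (c : ℕ), Antitone N ∧ (∀ j, (N j).Normal) ∧
    (∀ j, (N j).FiniteIndex) ∧ (∀ (j : ℕ) (g : FreeGroup (Fin d)), g ^ 2 ^ j ∈ N j) ∧
    (∀ (k j : ℕ) (g : FreeGroup (Fin d)), g ∈ Len (tower k) → g ^ 2 ^ (k + c) ∈ N j) ∧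
    ∀ B : ℝ, ∃ (j : ℕ) (S : St (FreeGroup (Fin d))), S.K = N j ∧ (∀ i, of i ∈ S.G s) ∧ B ≤ S.I

/-- **JAU** (basic facts on `U`), 50 lines. deps: none.
Monotone: clear. `1`: the empty list. Products: `Submodule.span_induction` twice, concatenate the
lists (the products of the weights are positive). Last clause: the list `[(g, ρ)]`. -/
def SpecJAU : Prop := ∀ (F : Type) [Group F] (G : ℝ → Subgroup F) (K H : Subgroup F) [K.Normal],
  (∀ ρ σ, ρ ≤ σ → U K G H ρ ≤ U K G H σ) ∧ (∀ ρ, 1 ≤ ρ → 1 ∈ U K G H ρ) ∧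
  (∀ ρ σ a b, 0 < ρ → 0 < σ → a ∈ U K G H ρ → b ∈ U K G H σ → a * b ∈ U K G H (ρ * σ)) ∧
  (∀ ρ g, 0 < ρ → g ∈ G ρ → g ∈ H →
    MonoidAlgebra.of (ZMod 2) (F ⧸ K) (g : F ⧸ K) - 1 ∈ U K G H ρ)

/-- **JAD** (conjugation by `t` in the group algebra), 80 lines. deps: JAU.
Notation `[g]` for the image of `g` in the algebra, `D a = [t] a [t⁻¹] - a` (linear in `a`). For
`a = [g] - 1`, `g ∈ K' ∩ G σ`: `D a = ([h] - 1) [g]`, `h = t g t⁻¹ g⁻¹ ∈ K' ∩ G (c σ)`,
`= ([h] - 1) + ([h] - 1)([g] - 1)`, where `[g] - 1 ∈ U 1` (`G 1 = ⊤`). For products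
`D (x y) = D x · (y + D y) + x · D y`; induction on the list in the definition of `U` (the empty
list: `D 1 = 0`). -/
def SpecJAD : Prop := ∀ (F : Type) [Group F] (G : ℝ → Subgroup F), IsNSer G →
  ∀ (K K' : Subgroup F) [K.Normal] (t : F) (c : ℝ), 0 < c → c ≤ 1 → t ∈ G c →
  (∀ g ∈ K', t * g * t⁻¹ ∈ K') → ∀ σ, 0 < σ → ∀ a ∈ U K G K' σ,
    MonoidAlgebra.of (ZMod 2) (F ⧸ K) (t : F ⧸ K) * a *
      MonoidAlgebra.of (ZMod 2) (F ⧸ K) ((t⁻¹ : F) : F ⧸ K) - a ∈ U K G K' (c * σ)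

/-- **JEA** (one step in the group algebra), 120 lines. deps: JAU, JAD.
Notation `[g]` for the image of `g` in the algebra `V`, `T = [t] - 1`, `U' = U K G K'`,
`W ρ = U' ρ + U' (ρ / c) T`, claim `U K G H ρ ≤ W ρ`. (i) `t` normalises `K'` (index two: `t t ∈ K'`
and, for `k ∈ K'`, `t k t⁻¹ t⁻¹ ∈ K'` would give `t ∈ K'`). (ii) `D a = [t] a [t⁻¹] - a` is in
`U' (c σ)` for `a ∈ U' σ` (JAD). (iii) `([g] - 1) ∈ W ρ` for `g ∈ H ∩ G ρ`: clear if `g ∈ K'`; otherwise `g = k t`,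
`k ∈ K'` (`h2`), `c ≤ ρ` (`hlt`), `k = g t⁻¹ ∈ G ρ`, `[g] - 1 = ([k] - 1) T + T + ([k] - 1)`.
(iv) `W ρ · W σ ≤ W (ρ σ)`: `T a' = a' T + D a' + D a' T`, and `T T = [t t] - 1 ∈ U' (c²)`
(characteristic two; `t t ∈ K'` by `h2`). So `b T a' = b a' T + b D a' + b D a' T` and
`b T b' T = b b' T² + b D b' T + b D b' T²`: with `a ∈ U' ρ`, `b ∈ U' (ρ/c)`, `a' ∈ U' σ`,
`b' ∈ U' (σ/c)` every term is in `U' (ρ σ)` or in `U' (ρ σ / c) T` (`c ≤ 1`). -/
def SpecJEA : Prop := ∀ (F : Type) [Group F] (G : ℝ → Subgroup F), IsNSer G →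
  ∀ (K K' H : Subgroup F) [K.Normal], K ≤ K' → K' ≤ H → ∀ (t : F) (c : ℝ), t ∈ H → t ∉ K' →
  (∀ g ∈ H, g ∈ K' ∨ g * t⁻¹ ∈ K') → 0 < c → c ≤ 1 → t ∈ G c →
  (∀ ρ, 0 < ρ → ρ < c → ∀ g ∈ H, g ∈ G ρ → g ∈ K') → ∀ ρ, 0 < ρ →
  U K G H ρ ≤ U K G K' ρ ⊔ (U K G K' (ρ / c)).map
    (LinearMap.mulRight (ZMod 2) (MonoidAlgebra.of (ZMod 2) (F ⧸ K) (t : F ⧸ K) - 1))

/-- **JEB** (dimensions), 120 lines. deps: JEA, CFI.
By induction on the chain from `⊤` down to `K'` (with `K ≤ K'`): for all `ρ > 0`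
`finrank (U K G ⊤ ρ) ≤ Σ_(x ∈ sub l) finrank (U K G K' (ρ / x))` (JEA; the map does not increase
the dimension; everything is finite dimensional), all `x ∈ sub l` are `> 0`. For `K' = K`: `[g] = 1`
for `g ∈ K`, so `U K G K ρ'` is spanned by `1` and it is zero if `ρ' < 1` (only the empty list has a
nonzero product, and it needs `1 ≤ ρ'`). So `finrank (U K G ⊤ ρ) ≤ #{x ∈ sub l : x ≤ ρ}`. Moreover
`Nat.card (F ⧸ K) = 2 ^ l.length` (steps of index two), and `sub l` has `2 ^ l.length` elements. -/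
def SpecJEB : Prop := ∀ (F : Type) [Group F] (G : ℝ → Subgroup F), IsNSer G →
  ∀ (K : Subgroup F) [K.Normal] (l : List (F × ℝ)), Chain G K l →
  K.FiniteIndex ∧ Nat.card (F ⧸ K) = 2 ^ l.length ∧ ∀ ρ, 0 < ρ →
    Module.finrank (ZMod 2) (U K G ⊤ ρ) ≤ (sub (l.map Prod.snd)).countP (fun x => x ≤ ρ)

/-- **JEC** (many elements in the balls), 130 lines. deps: JEB.
`V` = group algebra, `B` = image of `Len n` in `F ⧸ K`, `X = of i`. `V = span B + U ⊤ (s^(n+1))`: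
the span `Q` of the products of any number of factors `[of i] - 1` is all of `V` (it contains `1`
and is closed under multiplication by `[of i]`; the finite group `F ⧸ K` is generated as a monoid by
the `of i`, since inverses are positive powers); a product with at most `n` factors is in the span
of the `[w]`, `w` a positive word of length `≤ n`; a product with more factors is in
`U ⊤ (s^(n+1))` (list with weights `s`, product `s^m ≤ s^(n+1)`). So
`2 ^ l.length = dim V ≤ |B| + finrank (U ⊤ (s^(n+1)))`, and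
`countP (s^(n+1) < ·) + countP (· ≤ s^(n+1)) = 2 ^ l.length`. -/
def SpecJEC : Prop := ∀ (d : ℕ) (s : ℝ), 0 < s → s < 1 → ∀ S : St (FreeGroup (Fin d)),
  S.K.Normal → (∀ i, of i ∈ S.G s) → ∀ n : ℕ,
  (sub (S.l.map Prod.snd)).countP (fun x => s ^ (n + 1) < x) ≤
    ((QuotientGroup.mk : FreeGroup (Fin d) → FreeGroup (Fin d) ⧸ S.K) '' Len n).ncard

/-- **GRW** (exponential growth from unbounded sums), 120 lines. deps: none.
First `Σ_(x ∈ sub l) x = ∏ (1 + c)` (induction), all `x ∈ sub l` are in `(0, 1]`. Suppose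
`γ n₀ < s^(-n₀)` for some `n₀ ≥ 1`. Then `γ (k n₀ + r) ≤ (γ n₀)^k γ r`, so `Σ γ n s^n` converges;
let `C = (1 - s) Σ γ n s^n`. For each list as in the hypothesis
`Σ_x x ≤ Σ_x Σ_(n : s^(n+1) < x) (1 - s) s^n = Σ_n (1 - s) s^n #{x : s^(n+1) < x} ≤ C`
(for `x ∈ (0, 1]` the `n` with `s^(n+1) < x` are all `n ≥ n_x`, the sum is `s^(n_x) ≥ x`).
Contradiction for `B > C`. (`n₀ = 0`: `γ 0 ≥ 1`.) -/
def SpecGRW : Prop := ∀ (s : ℝ) (γ : ℕ → ℕ), 0 < s → s < 1 → 1 ≤ γ 0 → Monotone γ →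
  (∀ m n, γ (m + n) ≤ γ m * γ n) →
  (∀ B : ℝ, ∃ l : List ℝ, (∀ c ∈ l, 0 < c ∧ c ≤ 1) ∧ B ≤ (l.map fun c => 1 + c).prod ∧
    ∀ n, (sub l).countP (fun x => s ^ (n + 1) < x) ≤ γ n) →
  ∀ n, (s⁻¹) ^ n ≤ (γ n : ℝ)

/-- **MAIN**, 150 lines. deps: SEQ, JEC, GRW, CFI.
`s = 1 / a`, `G = FreeGroup (Fin d) ⧸ ⨅ j, N j`, `x i` = image of `of i`. `γ n` = number of elements
of the image of `Len n` in `G` (finite sets), at least the number in `FreeGroup (Fin d) ⧸ N j` for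
every `j`; submultiplicative (split a word), monotone, `γ 0 = 1`. JEC and the last clause of SEQ
give the hypothesis of GRW (the list `S.l.map Prod.snd`; `0 < c ≤ 1` from the chain, `∏ (1 + c)` is
`S.I`). `a > 1`, so `G` is infinite. `g ≠ 1`: `g` is the image of `u`, `u ∉ N j` for some `j`, take
the image of `N j` in `G` (`⨅ N ≤ N j`). The last clause: `u ∈ Len (tower k)`,
`u ^ 2 ^ (k + c) ∈ N j` for all `j`. -/
def SpecMAIN : Prop := ∀ (d : ℕ) (a : ℝ), 2 ≤ d → 1 < a → a < d →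
  ∃ (G : Type) (_ : Group G) (x : Fin d → G) (c : ℕ), Subgroup.closure (Set.range x) = ⊤ ∧
    Infinite G ∧ (∀ g : G, g ≠ 1 → ∃ N : Subgroup G, N.Normal ∧ N.FiniteIndex ∧ g ∉ N) ∧
    (∀ n : ℕ, a ^ n ≤ ((FreeGroup.lift x '' Len n).ncard : ℝ)) ∧
    ∀ k : ℕ, ∀ g ∈ FreeGroup.lift x '' Len (tower k), g ^ 2 ^ (k + c) = 1

end Pool.Agent.Lib.MP166ce5.FR
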