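import Pool.Agent.Lib.MP_166ce5_al.FR.Spec

set_option autoImplicit false

namespace Pool.Agent.Lib.MP166ce5.FR

open FreeGroup

theorem specWLI : SpecWLI := by
  intro d m
  induction m with
  | zero =>
    refine ⟨[1], by simp, ?_⟩
    rintro g ⟨L, hL, rfl⟩
    have hL0 : L = [] := by
      rw [← List.length_eq_zero_iff]
      omega
    rw [hL0, List.mem_singleton]
    rfl
  | succ m ih =>
    obtain ⟨L, hL, hmem⟩ := ih
    refine ⟨L ++ (List.finRange d).flatMap (fun i => L.map (fun g => of i * g)) ++
      (List.finRange d).flatMap (fun i => L.map (fun g => (of i)⁻¹ * g)), ?_, ?_⟩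
    · rw [List.length_append, List.length_append, List.length_flatMap, List.length_flatMap]
      simp only [List.length_map, List.map_const', List.sum_replicate, List.length_finRange,
        smul_eq_mul]
      rw [pow_succ]
      calc L.length + d * L.length + d * L.length = L.length * (2 * d + 1) := by ring
        _ ≤ (2 * d + 1) ^ m * (2 * d + 1) := Nat.mul_le_mul_right _ hL
    · rintro g ⟨W, hW, rfl⟩
      rw [List.mem_append, List.mem_append]
      cases W with
      | nil =>
        refine Or.inl (Or.inl (hmem _ ⟨[], ?_, rfl⟩))
        simp
      | cons x W =>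
        obtain ⟨i, b⟩ := x
        have hlen : W.length ≤ m := by
          rw [List.length_cons] at hW
          omega
        have h1 : FreeGroup.mk W ∈ L := hmem _ ⟨W, hlen, rfl⟩
        have h2 : (FreeGroup.mk ((i, b) :: W) : FreeGroup (Fin d))
            = FreeGroup.mk [(i, b)] * FreeGroup.mk W := by
          rw [FreeGroup.mul_mk]
          rfl
        rw [h2]
        cases b with
        | true =>
          refine Or.inl (Or.inr ?_)
          rw [List.mem_flatMap]
          exact ⟨i, List.mem_finRange i, List.mem_map.2 ⟨_, h1, rfl⟩⟩
        | false =>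
          refine Or.inr ?_
          rw [List.mem_flatMap]
          refine ⟨i, List.mem_finRange i, List.mem_map.2 ⟨_, h1, ?_⟩⟩
          rfl

end Pool.Agent.Lib.MP166ce5.FR
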