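import Pool.Agent.Lib.MP_166ce5_al.FR.Spec

/-!
# WTB: basic facts on `Wt`
-/

set_option autoImplicit false

namespace Pool.Agent.Lib.MP166ce5.FR

namespace WTBM

variable {K ι : Type} [Group K] {y : ι → K} {w : ι → ℝ}

theorem pos (hw : ∀ i, 0 < w i) {ρ : ℝ} {a : K} (h : Wt y w ρ a) : 0 < ρ := by
  induction h with
  | gen i h => exact (hw i).trans_le h
  | one h => exact h
  | mul _ _ ih _ => exact ih
  | inv _ ih => exact ih
  | comm _ _ h ih1 ih2 => exact (mul_pos ih1 ih2).trans_le h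
  | sq _ h ih => exact (mul_pos ih ih).trans_le h
  | top _ h => exact one_pos.trans_le h

theorem mono {ρ : ℝ} {a : K} (h : Wt y w ρ a) : ∀ σ : ℝ, ρ ≤ σ → Wt y w σ a := by
  induction h with
  | gen i h => exact fun σ hσ => Wt.gen i (h.trans hσ)
  | one h => exact fun σ hσ => Wt.one (h.trans_le hσ)
  | mul _ _ ih1 ih2 => exact fun σ hσ => Wt.mul (ih1 σ hσ) (ih2 σ hσ)
  | inv _ ih => exact fun σ hσ => Wt.inv (ih σ hσ)
  | comm h1 h2 h _ _ => exact fun σ hσ => Wt.comm h1 h2 (h.trans hσ)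
  | sq h1 h _ => exact fun σ hσ => Wt.sq h1 (h.trans hσ)
  | top a h => exact fun σ hσ => Wt.top a (h.trans hσ)

theorem mem_Dg {ρ : ℝ} (hρ : 0 < ρ) (a : K) : a ∈ Dg y w ρ ↔ Wt y w ρ a := by
  constructor
  · intro h
    unfold Dg at h
    induction h using Subgroup.closure_induction with
    | mem x hx => exact hx
    | one => exact Wt.one hρ
    | mul x y _ _ h1 h2 => exact Wt.mul h1 h2
    | inv x _ h1 => exact Wt.inv h1
  · intro h
    exact Subgroup.subset_closure h

end WTBM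

open WTBM in
theorem specWTB : SpecWTB := by
  intro K ι _ y w hw
  refine ⟨fun ρ a h => pos hw h, fun ρ σ a h hσ => mono h σ hσ, fun ρ a hρ => mem_Dg hρ a, ?_, ?_⟩
  · refine ⟨fun ρ σ _ hσ => Subgroup.closure_mono fun a h => mono h σ hσ, fun ρ hρ => ?_,
      fun ρ σ a b hρ hσ ha hb => ?_, fun ρ a hρ ha => ?_⟩
    · rw [eq_top_iff]
      intro a _
      exact Subgroup.subset_closure (Wt.top a hρ)
    · rw [mem_Dg hρ] at ha
      rw [mem_Dg hσ] at hb
      rw [mem_Dg (mul_pos hρ hσ)]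
      exact Wt.comm ha hb le_rfl
    · rw [mem_Dg hρ] at ha
      rw [mem_Dg (mul_pos hρ hρ)]
      exact Wt.sq ha le_rfl
  · intro H hH hy ρ a h
    induction h with
    | gen i h => exact hH.mono _ _ (hw i) h (hy i)
    | one h => exact one_mem _
    | mul _ _ ih1 ih2 => exact mul_mem ih1 ih2
    | inv _ ih => exact inv_mem ih
    | comm h1 h2 h ih1 ih2 =>
      exact hH.mono _ _ (mul_pos (pos hw h1) (pos hw h2)) h
        (hH.comm _ _ _ _ (pos hw h1) (pos hw h2) ih1 ih2)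
    | sq h1 h ih =>
      exact hH.mono _ _ (mul_pos (pos hw h1) (pos hw h1)) h (hH.sq _ _ (pos hw h1) ih)
    | top a h =>
      rw [hH.top _ h]
      exact Subgroup.mem_top a

end Pool.Agent.Lib.MP166ce5.FR
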